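import Pool.Agent.Zk82.DN.Eng
import Pool.Agent.R521.Champ.F

/-!
# The binary Champernowne number is normal (module for helper82)
-/

set_option autoImplicit false

open Filter Topology Finset

namespace Pool.Agent.Zk85.CN

open Pool.Agent.R521.Champ

/-- the integer with the binary digits `u 0, …, u (k - 1)` -/
def val (u : ℕ → ℕ) : ℕ → ℕ
  | 0 => 0
  | k + 1 => 2 * val u k + u k

lemma val_inj {u u' : ℕ → ℕ} (hu : ∀ j, u j ≤ 1) (hu' : ∀ j, u' j ≤ 1) {k : ℕ} :
    val u k = val u' k ↔ ∀ j < k, u j = u' j := by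
  induction k with
  | zero => simp [val]
  | succ k ih =>
    simp only [val]
    have h1 := hu k
    have h2 := hu' k
    constructor
    · intro h j hj
      have h3 : val u k = val u' k := by omega
      rcases Nat.lt_succ_iff_lt_or_eq.1 hj with h4 | h4
      · exact ih.1 h3 j h4
      · subst h4
        omega
    · intro h
      have h3 := ih.2 fun j hj => h j (by omega)
      have h4 := h k (by omega)
      omega

lemma pow_tail (k n : ℕ) : (2 : ℝ) ^ k * tail n = (val (fun j => digit (n + j)) k : ℝ) + tail (n + k) := by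
  induction k with
  | zero => simp [val]
  | succ k ih =>
    rw [pow_succ', mul_assoc, ih, tail_succ (n + k)]
    simp only [val]
    push_cast
    rw [← add_assoc n k 1]
    ring

lemma cel_eq (k n : ℕ) : cel k n = val (fun j => digit (n + j)) k := by
  unfold cel
  rw [pow_tail, Nat.floor_eq_iff (add_nonneg (Nat.cast_nonneg _) (tail_nonneg _))]
  have h1 := tail_nonneg (n + k)
  have h2 := tail_lt_one (n + k)
  constructor <;> linarith

lemma sum_cN (k N : ℕ) : ∑ v ∈ range (2 ^ k), (cN k N v : ℝ) = N := by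
  have h1 : ∑ v ∈ range (2 ^ k), cN k N v = N := by
    unfold cN
    rw [← Finset.card_eq_sum_card_fiberwise (f := fun n => cel k n) (s := Icc 1 N) (t := range (2 ^ k))
      (fun n _ => by simpa using cel_lt k n)]
    simp
  exact_mod_cast h1

lemma cN_near {k N v : ℕ} {η : ℝ} (hη : 0 < η) (hv : v < 2 ^ k)
    (h : ∑ v ∈ range (2 ^ k), (cN k N v : ℝ) ^ 2 ≤ (1 + η ^ 2) * (N : ℝ) ^ 2 / 2 ^ k) :
    |(cN k N v : ℝ) - N / 2 ^ k| ≤ η * N := by
  have hK : (1 : ℝ) ≤ 2 ^ k := one_le_pow₀ (by norm_num)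
  have h1 : ∑ v ∈ range (2 ^ k), ((cN k N v : ℝ) - N / 2 ^ k) ^ 2 =
      ∑ v ∈ range (2 ^ k), (cN k N v : ℝ) ^ 2 - (N : ℝ) ^ 2 / 2 ^ k := by
    have e : ∀ v, ((cN k N v : ℝ) - N / 2 ^ k) ^ 2 =
        (cN k N v : ℝ) ^ 2 - 2 * ((N : ℝ) / 2 ^ k) * (cN k N v : ℝ) + ((N : ℝ) / 2 ^ k) ^ 2 := by
      intro v; ring
    simp only [e]
    rw [Finset.sum_add_distrib, Finset.sum_sub_distrib, ← Finset.mul_sum, sum_cN, Finset.sum_const,
      card_range, nsmul_eq_mul]
    push_cast
    field_simp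
    ring
  have h2 : ((cN k N v : ℝ) - N / 2 ^ k) ^ 2 ≤ ∑ v ∈ range (2 ^ k), ((cN k N v : ℝ) - N / 2 ^ k) ^ 2 :=
    Finset.single_le_sum (f := fun v => ((cN k N v : ℝ) - N / 2 ^ k) ^ 2) (fun _ _ => sq_nonneg _)
      (mem_range.2 hv)
  have h3 : (1 + η ^ 2) * (N : ℝ) ^ 2 / 2 ^ k - (N : ℝ) ^ 2 / 2 ^ k = (η * N) ^ 2 / 2 ^ k := by
    field_simp
    ring
  have h4 : (η * N) ^ 2 / 2 ^ k ≤ (η * N) ^ 2 := div_le_self (sq_nonneg _) hK
  have h5 : ((cN k N v : ℝ) - N / 2 ^ k) ^ 2 ≤ (η * N) ^ 2 := by linarith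
  exact abs_le_of_sq_le_sq h5 (by positivity)

/-- the count of a word -/
lemma count_near {k : ℕ} {u : ℕ → ℕ} (hu : ∀ j, u j ≤ 1) (N : ℕ) {S : Set ℕ}
    (hS : S = {n : ℕ | n < N ∧ ∀ j < k, digit (n + j) = u j}) :
    |(S.ncard : ℝ) - cN k N (val u k)| ≤ 1 := by
  have hiff : ∀ n, cel k n = val u k ↔ ∀ j < k, digit (n + j) = u j := by
    intro n
    rw [cel_eq]
    exact val_inj (fun j => digit_le _) hu
  have hSf : S = (((range N).filter fun n => cel k n = val u k : Finset ℕ) : Set ℕ) := by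
    rw [hS]
    ext n
    simp only [Set.mem_ofPred_eq, coe_filter, mem_range, hiff]
  rw [hSf, Set.ncard_coe_finset]
  unfold cN
  have h1 : ((range N).filter fun n => cel k n = val u k).card ≤
      ((Icc 1 N).filter fun n => cel k n = val u k).card + 1 := by
    have : ((range N).filter fun n => cel k n = val u k) ⊆
        insert 0 ((Icc 1 N).filter fun n => cel k n = val u k) := by
      intro n hn
      simp only [mem_filter, mem_range, mem_insert, mem_Icc] at hn ⊢
      rcases Nat.eq_zero_or_pos n with h | h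
      · exact Or.inl h
      · exact Or.inr ⟨⟨h, hn.1.le⟩, hn.2⟩
    exact (card_le_card this).trans (card_insert_le _ _)
  have h2 : ((Icc 1 N).filter fun n => cel k n = val u k).card ≤
      ((range N).filter fun n => cel k n = val u k).card + 1 := by
    have : ((Icc 1 N).filter fun n => cel k n = val u k) ⊆
        insert N ((range N).filter fun n => cel k n = val u k) := by
      intro n hn
      simp only [mem_filter, mem_range, mem_insert, mem_Icc] at hn ⊢
      rcases Nat.lt_or_eq_of_le hn.1.2 with h | h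
      · exact Or.inr ⟨h, hn.2⟩
      · exact Or.inl h
    exact (card_le_card this).trans (card_insert_le _ _)
  have h1' : (((range N).filter fun n => cel k n = val u k).card : ℝ) ≤
      ((Icc 1 N).filter fun n => cel k n = val u k).card + 1 := by exact_mod_cast h1
  have h2' : (((Icc 1 N).filter fun n => cel k n = val u k).card : ℝ) ≤
      ((range N).filter fun n => cel k n = val u k).card + 1 := by exact_mod_cast h2
  rw [abs_le]
  constructor <;> linarith

lemma val_lt {u : ℕ → ℕ} (hu : ∀ j, u j ≤ 1) (k : ℕ) : val u k < 2 ^ k := by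
  induction k with
  | zero => simp [val]
  | succ k ih =>
    have := hu k
    simp only [val, pow_succ]
    omega

/-- every word of length `k ≥ 1` has its frequency -/
lemma freq {k : ℕ} (hk : 1 ≤ k) {u : ℕ → ℕ} (hu : ∀ j, u j ≤ 1) :
    Tendsto (fun N : ℕ => (({n : ℕ | n < N ∧ ∀ j < k, digit (n + j) = u j}.ncard : ℕ) : ℝ) / (N : ℝ))
      atTop (𝓝 (1 / 2 ^ k)) := by
  rw [Metric.tendsto_atTop]
  intro δ hδ
  set η : ℝ := min δ 1 / 2 with hη
  have hη0 : 0 < η := by
    have : 0 < min δ 1 := lt_min hδ one_pos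
    positivity
  have hη1 : η ≤ 1 := by
    have : min δ 1 ≤ 1 := min_le_right _ _
    linarith
  have hηδ : 2 * η ≤ δ := by
    have : min δ 1 ≤ δ := min_le_left _ _
    linarith
  obtain ⟨N₀, hN₀⟩ := main_count (β := 1 / 2) (C := 1) (ε := η ^ 2) (by norm_num) one_pos
    (by positivity) (by nlinarith)
  obtain ⟨N₁, hN₁⟩ := exists_nat_gt (1 / η)
  refine ⟨max (max N₀ N₁) (4 ^ k), fun N hN => ?_⟩
  have hN0 : N₀ ≤ N := le_trans (le_trans (le_max_left _ _) (le_max_left _ _)) hN
  have hN1 : N₁ ≤ N := le_trans (le_trans (le_max_right _ _) (le_max_left _ _)) hN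
  have hN4 : 4 ^ k ≤ N := le_trans (le_max_right _ _) hN
  have hNpos : (0 : ℝ) < N := by
    have : 0 < N := lt_of_lt_of_le (by positivity) hN4
    exact_mod_cast this
  have hNη : 1 / (N : ℝ) < η := by
    have h1 : 1 / η < N := hN₁.trans_le (by exact_mod_cast hN1)
    rw [div_lt_iff₀ hNpos]
    rw [div_lt_iff₀ hη0] at h1
    linarith
  have hkN : (2 : ℝ) ^ k ≤ 1 * (N : ℝ) ^ (1 / 2 : ℝ) := by
    rw [one_mul, ← Real.sqrt_eq_rpow]
    apply Real.le_sqrt_of_sq_le
    have : ((4 ^ k : ℕ) : ℝ) ≤ N := by exact_mod_cast hN4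
    calc ((2 : ℝ) ^ k) ^ 2 = ((4 ^ k : ℕ) : ℝ) := by
          push_cast
          rw [← pow_mul, mul_comm, pow_mul]
          norm_num
      _ ≤ N := this
  have h1 := cN_near hη0 (val_lt hu k) (hN₀ N hN0 k hk hkN)
  have h2 := count_near (k := k) hu N rfl
  set A : ℝ := (({n : ℕ | n < N ∧ ∀ j < k, digit (n + j) = u j}.ncard : ℕ) : ℝ)
  rw [Real.dist_eq]
  have h3 : A / N - 1 / 2 ^ k = (A - (cN k N (val u k) : ℝ)) / N +
      ((cN k N (val u k) : ℝ) - N / 2 ^ k) / N := by
    field_simp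
    ring
  rw [h3]
  refine (abs_add_le _ _).trans_lt ?_
  rw [abs_div, abs_div, abs_of_pos hNpos]
  have h4 : |A - (cN k N (val u k) : ℝ)| / N ≤ 1 / N := div_le_div_of_nonneg_right h2 hNpos.le
  have h5 : |(cN k N (val u k) : ℝ) - N / 2 ^ k| / N ≤ η := by
    rw [div_le_iff₀ hNpos]
    exact h1
  linarith

end Pool.Agent.Zk85.CN

namespace Pool.Agent.Zk85

open Filter Topology

/-- **the binary Champernowne number is normal** -/
theorem champ_normal : Pool.Agent.Zk82.DN.NormalSeq (ι := Fin 1) (b := 2)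
    (fun n _ => ⟨Pool.Agent.R521.Champ.digit n, Nat.lt_succ_of_le (Pool.Agent.R521.Champ.digit_le n)⟩) := by
  intro k w
  rcases Nat.eq_zero_or_pos k with hk | hk
  · subst hk
    have e : ∀ N : ℕ, {n : ℕ | n < N ∧ ∀ j : Fin 0, (fun (n : ℕ) (_ : Fin 1) => (⟨Pool.Agent.R521.Champ.digit n,
        Nat.lt_succ_of_le (Pool.Agent.R521.Champ.digit_le n)⟩ : Fin 2)) (n + j) = w j}.ncard = N := by
      intro N
      have : {n : ℕ | n < N ∧ ∀ j : Fin 0, (fun (n : ℕ) (_ : Fin 1) => (⟨Pool.Agent.R521.Champ.digit n,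
        Nat.lt_succ_of_le (Pool.Agent.R521.Champ.digit_le n)⟩ : Fin 2)) (n + j) = w j} =
          ((Finset.range N : Finset ℕ) : Set ℕ) := by
        ext n
        simp
      rw [this, Set.ncard_coe_finset, Finset.card_range]
    simp only [e, pow_zero, div_one]
    refine tendsto_const_nhds.congr' ?_
    filter_upwards [eventually_gt_atTop 0] with N hN
    have : (N : ℝ) ≠ 0 := by exact_mod_cast hN.ne'
    rw [div_self this]
  · set u : ℕ → ℕ := fun j => if h : j < k then (w ⟨j, h⟩ 0 : ℕ) else 0 with hu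
    have hu1 : ∀ j, u j ≤ 1 := by
      intro j
      simp only [hu]
      split_ifs with h
      · have := (w ⟨j, h⟩ 0).isLt
        omega
      · omega
    have h1 := CN.freq hk hu1
    have h2 : ∀ N : ℕ, {n : ℕ | n < N ∧ ∀ j : Fin k, (fun (n : ℕ) (_ : Fin 1) => (⟨Pool.Agent.R521.Champ.digit n,
        Nat.lt_succ_of_le (Pool.Agent.R521.Champ.digit_le n)⟩ : Fin 2)) (n + j) = w j} =
        {n : ℕ | n < N ∧ ∀ j < k, Pool.Agent.R521.Champ.digit (n + j) = u j} := by
      intro N
      ext n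
      simp only [Set.mem_ofPred_eq]
      refine and_congr_right fun _ => ⟨fun h j hj => ?_, fun h j => ?_⟩
      · have h3 := congrFun (h ⟨j, hj⟩) 0
        have h4 := congrArg Fin.val h3
        simp only [hu, dif_pos hj]
        exact h4
      · funext i
        apply Fin.ext
        have h3 := h j j.isLt
        simp only [hu, dif_pos j.isLt] at h3
        rw [Subsingleton.elim i 0]
        exact h3
    simp only [h2]
    simpa using h1

end Pool.Agent.Zk85
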