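import Pool.Agent.Zk32.Tu0
import Pool.Agent.Zk32.Gp0
import Pool.Agent.Zk26.FS

/-!
# Convergence almost everywhere from a maximal inequality (module M2 for helper32)

A continuous function is, up to an error which is small in `L²`, the sum of a jointly invariant
function and of two coboundaries of continuous functions (Hilbert space argument). The Folner
averages of the coboundaries tend to zero uniformly; the averages of the error are controlled by the
maximal inequality.
-/

set_option autoImplicit false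

open MeasureTheory Filter Topology Set
open scoped ENNReal

namespace Pool.Agent.Zk85.Tu

open Pool.Agent.Zk32

/-! ### the Hilbert space part -/

lemma fixed_of_orth {H : Type*} [NormedAddCommGroup H] [InnerProductSpace ℝ H] (U : H →ₗᵢ[ℝ] H)
    (w : H) (h : inner ℝ w (w - U w) = 0) : U w = w := by
  have h1 : ‖w - U w‖ ^ 2 = ‖w‖ ^ 2 - 2 * inner ℝ w (U w) + ‖U w‖ ^ 2 := norm_sub_sq_real _ _
  rw [inner_sub_right, real_inner_self_eq_norm_sq] at h
  rw [U.norm_map] at h1
  have h2 : ‖w - U w‖ ^ 2 = 0 := by linarith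
  have h3 := norm_eq_zero.mp ((pow_eq_zero_iff two_ne_zero).mp h2)
  exact (sub_eq_zero.mp h3).symm

lemma hilbert {H E : Type*} [NormedAddCommGroup H] [InnerProductSpace ℝ H] [CompleteSpace H]
    [AddCommGroup E] [Module ℝ E] (T : E →ₗ[ℝ] H) (hT : DenseRange T) (U V : H →ₗᵢ[ℝ] H) (g : H) :
    ∃ w : H, U w = w ∧ V w = w ∧ ∀ ε > 0, ∃ u v : E,
      ‖g - w - (T u - U (T u)) - (T v - V (T v))‖ < ε := by
  let A : E →ₗ[ℝ] H := T - U.toLinearMap ∘ₗ T
  let B : E →ₗ[ℝ] H := T - V.toLinearMap ∘ₗ T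
  let K : Submodule ℝ H := (LinearMap.range A ⊔ LinearMap.range B).topologicalClosure
  haveI : CompleteSpace K := Submodule.topologicalClosure.completeSpace _
  obtain ⟨y, hy, w, hw, hg⟩ := Submodule.exists_add_mem_mem_orthogonal (K := K) g
  have hAK : ∀ u, A u ∈ K := fun u =>
    Submodule.le_topologicalClosure _ (Submodule.mem_sup_left ⟨u, rfl⟩)
  have hBK : ∀ u, B u ∈ K := fun u =>
    Submodule.le_topologicalClosure _ (Submodule.mem_sup_right ⟨u, rfl⟩)
  have key : ∀ (W : H →ₗᵢ[ℝ] H), (∀ u : E, inner ℝ w (T u - W (T u)) = 0) → W w = w := by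
    intro W hW
    apply fixed_of_orth
    have hcl : IsClosed {x : H | inner ℝ w (x - W x) = 0} := by
      apply isClosed_eq
      · exact continuous_const.inner (continuous_id.sub W.continuous)
      · exact continuous_const
    have : ∀ x : H, x ∈ {x : H | inner ℝ w (x - W x) = 0} := by
      intro x
      refine hT.induction_on (p := fun x => x ∈ {x : H | inner ℝ w (x - W x) = 0}) x hcl ?_
      intro u
      exact hW u
    exact this w
  refine ⟨w, ?_, ?_, ?_⟩
  · apply key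
    intro u
    have := (Submodule.mem_orthogonal _ _).mp hw _ (hAK u)
    rw [real_inner_comm]
    exact this
  · apply key
    intro u
    have := (Submodule.mem_orthogonal _ _).mp hw _ (hBK u)
    rw [real_inner_comm]
    exact this
  · intro ε hε
    have hy' : y ∈ closure ((LinearMap.range A ⊔ LinearMap.range B : Submodule ℝ H) : Set H) := hy
    obtain ⟨z, hz, hyz⟩ := Metric.mem_closure_iff.mp hy' ε hε
    obtain ⟨z1, ⟨u, rfl⟩, z2, ⟨v, rfl⟩, hz12⟩ := Submodule.mem_sup.mp hz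
    refine ⟨u, v, ?_⟩
    rw [dist_eq_norm, ← hz12] at hyz
    have e : g - w - (T u - U (T u)) - (T v - V (T v)) = y - (A u + B v) := by
      rw [hg]
      show y + w - w - (T u - U (T u)) - (T v - V (T v)) =
        y - ((T u - U (T u)) + (T v - V (T v)))
      abel
    rw [e]
    exact hyz

/-! ### the decomposition of a continuous function -/

theorem decomp {p q : ℕ} {ν : Measure UnitAddCircle} [IsProbabilityMeasure ν]
    (hp : MeasurePreserving (fun x : UnitAddCircle => p • x) ν ν)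
    (hq : MeasurePreserving (fun x : UnitAddCircle => q • x) ν ν) (g : C(UnitAddCircle, ℝ)) :
    ∃ W : UnitAddCircle → ℝ, Measurable W ∧ (∀ᵐ x ∂ν, W (p • x) = W x) ∧
      (∀ᵐ x ∂ν, W (q • x) = W x) ∧ ∀ ε > 0, ∃ u v : C(UnitAddCircle, ℝ),
        Integrable (fun x => g x - W x - (u x - u (p • x)) - (v x - v (q • x))) ν ∧
        ∫ x, |g x - W x - (u x - u (p • x)) - (v x - v (q • x))| ∂ν ≤ ε := by
  let T : C(UnitAddCircle, ℝ) →ₗ[ℝ] Lp ℝ 2 ν := (ContinuousMap.toLp 2 ν ℝ).toLinearMap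
  have hT : DenseRange T := ContinuousMap.toLp_denseRange ℝ ν ℝ (by norm_num)
  let U : Lp ℝ 2 ν →ₗᵢ[ℝ] Lp ℝ 2 ν := Lp.compMeasurePreservingₗᵢ ℝ _ hp
  let V : Lp ℝ 2 ν →ₗᵢ[ℝ] Lp ℝ 2 ν := Lp.compMeasurePreservingₗᵢ ℝ _ hq
  obtain ⟨w, hU, hV, hw⟩ := hilbert T hT U V (T g)
  have hTc : ∀ u : C(UnitAddCircle, ℝ), (T u : UnitAddCircle → ℝ) =ᵐ[ν] u := fun u =>
    ContinuousMap.coeFn_toLp ν u
  have hUc : ∀ x : Lp ℝ 2 ν, (U x : UnitAddCircle → ℝ) =ᵐ[ν] fun t => x (p • t) := fun x =>
    Lp.coeFn_compMeasurePreserving x hp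
  have hVc : ∀ x : Lp ℝ 2 ν, (V x : UnitAddCircle → ℝ) =ᵐ[ν] fun t => x (q • t) := fun x =>
    Lp.coeFn_compMeasurePreserving x hq
  refine ⟨w, (Lp.stronglyMeasurable w).measurable, ?_, ?_, ?_⟩
  · have := hUc w
    rw [hU] at this
    filter_upwards [this] with x hx using hx.symm
  · have := hVc w
    rw [hV] at this
    filter_upwards [this] with x hx using hx.symm
  · intro ε hε
    obtain ⟨u, v, huv⟩ := hw ε hε
    refine ⟨u, v, ?_⟩
    set z : Lp ℝ 2 ν := T g - w - (T u - U (T u)) - (T v - V (T v)) with hz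
    have hUu : (U (T u) : UnitAddCircle → ℝ) =ᵐ[ν] fun x => u (p • x) :=
      (hUc (T u)).trans (hp.quasiMeasurePreserving.ae_eq_comp (hTc u))
    have hVv : (V (T v) : UnitAddCircle → ℝ) =ᵐ[ν] fun x => v (q • x) :=
      (hVc (T v)).trans (hq.quasiMeasurePreserving.ae_eq_comp (hTc v))
    have hae : (z : UnitAddCircle → ℝ) =ᵐ[ν]
        fun x => g x - w x - (u x - u (p • x)) - (v x - v (q • x)) := by
      filter_upwards [Lp.coeFn_sub (T g - w - (T u - U (T u))) (T v - V (T v)),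
        Lp.coeFn_sub (T g - w) (T u - U (T u)), Lp.coeFn_sub (T g) w,
        Lp.coeFn_sub (T u) (U (T u)), Lp.coeFn_sub (T v) (V (T v)), hTc g, hTc u, hTc v, hUu, hVv]
        with x h1 h2 h3 h4 h5 h6 h7 h8 h9 h10
      rw [hz, h1, Pi.sub_apply, h2, Pi.sub_apply, h3, Pi.sub_apply, h4, Pi.sub_apply, h5,
        Pi.sub_apply, h6, h7, h8, h9, h10]
    have hzm : MemLp (z : UnitAddCircle → ℝ) 2 ν := Lp.memLp z
    have hzi : Integrable (z : UnitAddCircle → ℝ) ν := hzm.integrable (by norm_num)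
    refine ⟨hzi.congr hae, ?_⟩
    have e1 : ∫ x, |g x - w x - (u x - u (p • x)) - (v x - v (q • x))| ∂ν = ∫ x, ‖z x‖ ∂ν := by
      refine integral_congr_ae ?_
      filter_upwards [hae] with x hx
      rw [hx, Real.norm_eq_abs]
    rw [e1, integral_norm_eq_lintegral_enorm hzm.1, ← eLpNorm_one_eq_lintegral_enorm]
    have h2 : eLpNorm (z : UnitAddCircle → ℝ) 1 ν ≤ eLpNorm (z : UnitAddCircle → ℝ) 2 ν :=
      eLpNorm_le_eLpNorm_of_exponent_le (by norm_num) hzm.1
    have h3 : ‖z‖ = (eLpNorm (z : UnitAddCircle → ℝ) 2 ν).toReal := Lp.norm_def z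
    calc (eLpNorm (z : UnitAddCircle → ℝ) 1 ν).toReal
        ≤ (eLpNorm (z : UnitAddCircle → ℝ) 2 ν).toReal :=
          ENNReal.toReal_mono hzm.eLpNorm_ne_top h2
      _ = ‖z‖ := h3.symm
      _ ≤ ε := huv.le

/-! ### averages -/

lemma ave_add (p q : ℕ) (F : Finset (ℕ × ℕ)) (f g : UnitAddCircle → ℝ) (x : UnitAddCircle) :
    ave p q F (fun x => f x + g x) x = ave p q F f x + ave p q F g x := by
  unfold ave
  rw [← mul_add, ← Finset.sum_add_distrib]

lemma ave_abs (p q : ℕ) (F : Finset (ℕ × ℕ)) (f : UnitAddCircle → ℝ) (x : UnitAddCircle) :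
    |ave p q F f x| ≤ ave p q F (fun x => |f x|) x := by
  unfold ave
  rw [abs_mul, abs_inv, Nat.abs_cast]
  exact mul_le_mul_of_nonneg_left (Finset.abs_sum_le_sum_abs _ _) (inv_nonneg.2 (Nat.cast_nonneg _))

/-- the averages of a coboundary in the first direction -/
lemma ave_cob1 (p q : ℕ) (F : Finset (ℕ × ℕ)) (u : C(UnitAddCircle, ℝ)) (x : UnitAddCircle) :
    |ave p q F (fun x => u x - u (p • x)) x| ≤
      2 * ‖u‖ * (((F.filter fun n => (n.1 + 1, n.2) ∉ F).card : ℝ) / F.card) := by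
  have k := Zk26.FS.shift_sum F (fun n => (n.1 + 1, n.2)) (by
    rintro ⟨a, b⟩ ⟨a', b'⟩ h
    simp only [Prod.mk.injEq] at h
    ext
    · simp only; omega
    · exact h.2) (fun n => u ((p ^ n.1 * q ^ n.2) • x)) (C := ‖u‖) (fun n => Zk26.FS.bdd u _)
  simp only at k
  unfold ave
  rw [abs_mul, abs_inv, Nat.abs_cast]
  have e : ∑ n ∈ F, (u ((p ^ n.1 * q ^ n.2) • x) - u (p • (p ^ n.1 * q ^ n.2) • x)) =
      -(∑ n ∈ F, u ((p ^ (n.1 + 1) * q ^ n.2) • x) - ∑ n ∈ F, u ((p ^ n.1 * q ^ n.2) • x)) := by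
    rw [neg_sub, ← Finset.sum_sub_distrib]
    refine Finset.sum_congr rfl fun n _ => ?_
    rw [smul_smul]
    congr 3
    ring
  rw [e, abs_neg]
  calc (F.card : ℝ)⁻¹ * |∑ n ∈ F, u ((p ^ (n.1 + 1) * q ^ n.2) • x) - ∑ n ∈ F, u ((p ^ n.1 * q ^ n.2) • x)|
      ≤ (F.card : ℝ)⁻¹ * (2 * ‖u‖ * ((F.filter fun n => (n.1 + 1, n.2) ∉ F).card : ℝ)) :=
        mul_le_mul_of_nonneg_left k (inv_nonneg.2 (Nat.cast_nonneg _))
    _ = _ := by ring

/-- the averages of a coboundary in the second direction -/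
lemma ave_cob2 (p q : ℕ) (F : Finset (ℕ × ℕ)) (u : C(UnitAddCircle, ℝ)) (x : UnitAddCircle) :
    |ave p q F (fun x => u x - u (q • x)) x| ≤
      2 * ‖u‖ * (((F.filter fun n => (n.1, n.2 + 1) ∉ F).card : ℝ) / F.card) := by
  have k := Zk26.FS.shift_sum F (fun n => (n.1, n.2 + 1)) (by
    rintro ⟨a, b⟩ ⟨a', b'⟩ h
    simp only [Prod.mk.injEq] at h
    ext
    · exact h.1
    · simp only; omega) (fun n => u ((p ^ n.1 * q ^ n.2) • x)) (C := ‖u‖) (fun n => Zk26.FS.bdd u _)
  simp only at k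
  unfold ave
  rw [abs_mul, abs_inv, Nat.abs_cast]
  have e : ∑ n ∈ F, (u ((p ^ n.1 * q ^ n.2) • x) - u (q • (p ^ n.1 * q ^ n.2) • x)) =
      -(∑ n ∈ F, u ((p ^ n.1 * q ^ (n.2 + 1)) • x) - ∑ n ∈ F, u ((p ^ n.1 * q ^ n.2) • x)) := by
    rw [neg_sub, ← Finset.sum_sub_distrib]
    refine Finset.sum_congr rfl fun n _ => ?_
    rw [smul_smul]
    congr 3
    ring
  rw [e, abs_neg]
  calc (F.card : ℝ)⁻¹ * |∑ n ∈ F, u ((p ^ n.1 * q ^ (n.2 + 1)) • x) - ∑ n ∈ F, u ((p ^ n.1 * q ^ n.2) • x)|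
      ≤ (F.card : ℝ)⁻¹ * (2 * ‖u‖ * ((F.filter fun n => (n.1, n.2 + 1) ∉ F).card : ℝ)) :=
        mul_le_mul_of_nonneg_left k (inv_nonneg.2 (Nat.cast_nonneg _))
    _ = _ := by ring

/-- the averages of an invariant function -/
lemma ave_inv {p q : ℕ} {ν : Measure UnitAddCircle} [IsProbabilityMeasure ν]
    (hp : MeasurePreserving (fun x : UnitAddCircle => p • x) ν ν)
    (hq : MeasurePreserving (fun x : UnitAddCircle => q • x) ν ν)
    {W : UnitAddCircle → ℝ} (h1 : ∀ᵐ x ∂ν, W (p • x) = W x) (h2 : ∀ᵐ x ∂ν, W (q • x) = W x) :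
    ∀ᵐ x ∂ν, ∀ F : Finset (ℕ × ℕ), F.Nonempty → ave p q F W x = W x := by
  have hq' : ∀ j : ℕ, ∀ᵐ x ∂ν, W (q ^ j • x) = W x := by
    intro j
    induction j with
    | zero => simp
    | succ j ih =>
      have k := (hq.quasiMeasurePreserving).ae ih
      filter_upwards [k, h2] with x hx hx2
      rw [pow_succ, mul_smul, hx, hx2]
  have hpq : ∀ i j : ℕ, ∀ᵐ x ∂ν, W ((p ^ i * q ^ j) • x) = W x := by
    intro i j
    induction i with
    | zero => simpa using hq' j
    | succ i ih =>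
      have k := (hp.quasiMeasurePreserving).ae ih
      filter_upwards [k, h1] with x hx hx1
      have : (p ^ (i + 1) * q ^ j) • x = (p ^ i * q ^ j) • (p • x) := by
        rw [smul_smul]
        congr 1
        ring
      rw [this, hx, hx1]
  have hall : ∀ᵐ x ∂ν, ∀ n : ℕ × ℕ, W ((p ^ n.1 * q ^ n.2) • x) = W x := by
    rw [ae_all_iff]
    exact fun n => hpq n.1 n.2
  filter_upwards [hall] with x hx F hF
  unfold ave
  rw [Finset.sum_congr rfl fun n _ => hx n, Finset.sum_const, nsmul_eq_mul, ← mul_assoc,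
    inv_mul_cancel₀, one_mul]
  exact_mod_cast hF.card_ne_zero

/-- **Convergence almost everywhere from the maximal inequality.** -/
theorem ae_conv {p q : ℕ} {ν : Measure UnitAddCircle} [IsProbabilityMeasure ν]
    (hnp : MeasurePreserving (fun x : UnitAddCircle => p • x) ν ν)
    (hnq : MeasurePreserving (fun x : UnitAddCircle => q • x) ν ν)
    {F : ℕ → Finset (ℕ × ℕ)} (hF : Folner F) {C : ℝ} (hC : 0 < C)
    (hmax : ∀ f : UnitAddCircle → ℝ, Measurable f → (∀ x, 0 ≤ f x) → Integrable f ν →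
      ∀ l : ℝ, 0 < l → ν.real {x | ∃ n, l < ave p q (F n) f x} ≤ C / l * ∫ x, f x ∂ν)
    (g : C(UnitAddCircle, ℝ)) :
    ∀ᵐ x ∂ν, ∃ c : ℝ, Tendsto (fun k => ave p q (F k) g x) atTop (𝓝 c) := by
  obtain ⟨W, hWm, hWp, hWq, hW⟩ := decomp hnp hnq g
  obtain ⟨hF1, hF2, hF3⟩ := hF
  have hinv := ave_inv hnp hnq hWp hWq
  -- the exceptional sets
  have hB : ∀ m : ℕ, ∀ᵐ x ∂ν, ∀ᶠ k in atTop,
      |ave p q (F k) g x - W x| ≤ 2 * (1 / ((m : ℝ) + 1)) := by
    intro m
    set l : ℝ := 1 / ((m : ℝ) + 1) with hl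
    have hl0 : 0 < l := by positivity
    set B : Set UnitAddCircle := {x | ¬ ((∀ G : Finset (ℕ × ℕ), G.Nonempty → ave p q G W x = W x) →
      ∀ᶠ k in atTop, |ave p q (F k) g x - W x| ≤ 2 * l)} with hBd
    have hB0 : ν B = 0 := by
      refine le_antisymm ?_ bot_le
      refine ENNReal.le_of_forall_pos_le_add ?_
      intro ε hε _
      rw [zero_add]
      have hε' : (0 : ℝ) < ε := by exact_mod_cast hε
      obtain ⟨u, v, hint, huv⟩ := hW (ε * l / C) (by positivity)
      set e : UnitAddCircle → ℝ := fun x => g x - W x - (u x - u (p • x)) - (v x - v (q • x)) with he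
      have hem : Measurable e := by
        refine ((g.continuous.measurable.sub hWm).sub ?_).sub ?_
        · exact (u.continuous.sub (u.continuous.comp (Zk26.FS.smul_cont p))).measurable
        · exact (v.continuous.sub (v.continuous.comp (Zk26.FS.smul_cont q))).measurable
      have h1 := hmax (fun x => |e x|) (by simpa using hem.norm) (fun x => abs_nonneg _)
        hint.abs l hl0
      have h2 : ν.real {x | ∃ n, l < ave p q (F n) (fun x => |e x|) x} ≤ ε := by
        refine h1.trans ?_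
        calc C / l * ∫ x, |e x| ∂ν ≤ C / l * (ε * l / C) :=
              mul_le_mul_of_nonneg_left huv (by positivity)
          _ = ε := by field_simp
      have h3 : ν {x | ∃ n, l < ave p q (F n) (fun x => |e x|) x} ≤ ε := by
        have h4 : ν {x | ∃ n, l < ave p q (F n) (fun x => |e x|) x} =
            ENNReal.ofReal (ν.real {x | ∃ n, l < ave p q (F n) (fun x => |e x|) x}) := by
          rw [ofReal_measureReal]
        rw [h4]
        calc ENNReal.ofReal _ ≤ ENNReal.ofReal (ε : ℝ) := ENNReal.ofReal_le_ofReal h2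
          _ = ε := ENNReal.ofReal_coe_nnreal
      refine (measure_mono ?_).trans h3
      intro x hx
      by_contra hx'
      apply hx
      intro hWx
      simp only [mem_ofPred_eq, not_exists, not_lt] at hx'
      have hlim : Tendsto (fun k => 2 * ‖u‖ * ((((F k).filter fun n => (n.1 + 1, n.2) ∉ F k).card : ℝ) /
          (F k).card) + 2 * ‖v‖ * ((((F k).filter fun n => (n.1, n.2 + 1) ∉ F k).card : ℝ) /
          (F k).card)) atTop (𝓝 0) := by
        have := (hF2.const_mul (2 * ‖u‖)).add (hF3.const_mul (2 * ‖v‖))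
        simpa using this
      filter_upwards [hlim.eventually (gt_mem_nhds hl0)] with k hk
      have d1 : ave p q (F k) g x = ave p q (F k) W x + ave p q (F k) (fun x => u x - u (p • x)) x +
          ave p q (F k) (fun x => v x - v (q • x)) x + ave p q (F k) e x := by
        rw [← ave_add, ← ave_add, ← ave_add]
        congr 1
        funext x
        simp only [he]
        ring
      have d2 := hWx (F k) (hF1 k)
      have d3 := ave_cob1 p q (F k) u x
      have d4 := ave_cob2 p q (F k) v x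
      have d5 := (ave_abs p q (F k) e x).trans (hx' k)
      rw [d1, d2]
      have : |W x + ave p q (F k) (fun x => u x - u (p • x)) x +
          ave p q (F k) (fun x => v x - v (q • x)) x + ave p q (F k) e x - W x| ≤
          |ave p q (F k) (fun x => u x - u (p • x)) x| +
          |ave p q (F k) (fun x => v x - v (q • x)) x| + |ave p q (F k) e x| := by
        have e1 : W x + ave p q (F k) (fun x => u x - u (p • x)) x +
          ave p q (F k) (fun x => v x - v (q • x)) x + ave p q (F k) e x - W x =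
          ave p q (F k) (fun x => u x - u (p • x)) x +
          ave p q (F k) (fun x => v x - v (q • x)) x + ave p q (F k) e x := by ring
        rw [e1]
        exact (abs_add_le _ _).trans (add_le_add (abs_add_le _ _) le_rfl)
      linarith
    have hBae : ∀ᵐ x ∂ν, ((∀ G : Finset (ℕ × ℕ), G.Nonempty → ave p q G W x = W x) →
      ∀ᶠ k in atTop, |ave p q (F k) g x - W x| ≤ 2 * l) := by
      rw [ae_iff]
      exact hB0
    filter_upwards [hBae, hinv] with x hx hx2
    exact hx hx2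
  have hall := ae_all_iff.2 hB
  filter_upwards [hall] with x hx
  refine ⟨W x, ?_⟩
  rw [Metric.tendsto_atTop]
  intro ε hε
  obtain ⟨m, hm⟩ := exists_nat_one_div_lt (show (0 : ℝ) < ε / 2 by positivity)
  obtain ⟨k₀, hk₀⟩ := eventually_atTop.1 (hx m)
  refine ⟨k₀, fun k hk => ?_⟩
  rw [Real.dist_eq]
  have := hk₀ k hk
  linarith

end Pool.Agent.Zk85.Tu
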