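import Pool.Agent.Zk85.Tu2

/-!
# Convergence almost everywhere from a weak maximal inequality for bounded functions

(module T2 for helper32) As `Tu2`, but the maximal inequality is assumed only for functions with values
in `[0, 1]` and levels `l ≤ 1`, with the bound `C / l ^ 2`.
-/

set_option autoImplicit false

open MeasureTheory Filter Topology Set
open scoped ENNReal

namespace Pool.Agent.Zk85.Tu

open Pool.Agent.Zk32

/-- the square of exponents -/
def Sqr (N : ℕ) : Finset (ℕ × ℕ) := Finset.range N ×ˢ Finset.range N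

lemma Sqr_card (N : ℕ) : ((Sqr N).card : ℝ) = (N : ℝ) * N := by
  unfold Sqr
  rw [Finset.card_product, Finset.card_range]
  push_cast
  ring

lemma box_ave (p q : ℕ) (g : UnitAddCircle → ℝ) (N : ℕ) (n : ℕ × ℕ) (x : UnitAddCircle) :
    Zk26.FS.box p q g N n x = ave p q (Sqr N) g ((p ^ n.1 * q ^ n.2) • x) := by
  unfold Zk26.FS.box ave
  rw [Sqr_card]
  unfold Sqr
  rw [Finset.sum_product, mul_inv, mul_assoc]
  congr 1
  rw [Finset.mul_sum]
  refine Finset.sum_congr rfl fun i _ => ?_
  congr 1
  refine Finset.sum_congr rfl fun j _ => ?_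
  rw [smul_smul]
  congr 2
  ring

lemma ave_box' (p q : ℕ) (F : Finset (ℕ × ℕ)) (g : C(UnitAddCircle, ℝ)) {N : ℕ} (hN : 0 < N)
    (x : UnitAddCircle) :
    |ave p q F (ave p q (Sqr N) g) x - ave p q F g x| ≤
      2 * ‖g‖ * N * (((F.filter fun n => (n.1 + 1, n.2) ∉ F).card : ℝ) / F.card +
        ((F.filter fun n => (n.1, n.2 + 1) ∉ F).card : ℝ) / F.card) := by
  have h := Zk26.FS.ave_box p q F g hN x
  have e : ave p q F (ave p q (Sqr N) g) x =
      (F.card : ℝ)⁻¹ * ∑ n ∈ F, Zk26.FS.box p q g N n x := by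
    unfold ave
    congr 1
    refine Finset.sum_congr rfl fun n _ => ?_
    exact (box_ave p q g N n x).symm
  rw [e]
  exact h

lemma leave1 (N : ℕ) : (((Sqr N).filter fun n => (n.1 + 1, n.2) ∉ Sqr N).card : ℝ) ≤ N := by
  have : ((Sqr N).filter fun n => (n.1 + 1, n.2) ∉ Sqr N) ⊆ {N - 1} ×ˢ Finset.range N := by
    intro n hn
    rw [Finset.mem_filter] at hn
    obtain ⟨h1, h2⟩ := hn
    unfold Sqr at h1 h2
    simp only [Finset.mem_product, Finset.mem_range, Finset.mem_singleton] at h1 h2 ⊢
    omega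
  have h := Finset.card_le_card this
  rw [Finset.card_product, Finset.card_singleton, Finset.card_range, one_mul] at h
  exact_mod_cast h

lemma leave2 (N : ℕ) : (((Sqr N).filter fun n => (n.1, n.2 + 1) ∉ Sqr N).card : ℝ) ≤ N := by
  have : ((Sqr N).filter fun n => (n.1, n.2 + 1) ∉ Sqr N) ⊆ Finset.range N ×ˢ {N - 1} := by
    intro n hn
    rw [Finset.mem_filter] at hn
    obtain ⟨h1, h2⟩ := hn
    unfold Sqr at h1 h2
    simp only [Finset.mem_product, Finset.mem_range, Finset.mem_singleton] at h1 h2 ⊢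
    omega
  have h := Finset.card_le_card this
  rw [Finset.card_product, Finset.card_singleton, Finset.card_range, mul_one] at h
  exact_mod_cast h

lemma mp_pow {p : ℕ} {ν : Measure UnitAddCircle}
    (hp : MeasurePreserving (fun x : UnitAddCircle => p • x) ν ν) (i : ℕ) :
    MeasurePreserving (fun x : UnitAddCircle => p ^ i • x) ν ν := by
  induction i with
  | zero =>
    have e : (fun x : UnitAddCircle => p ^ 0 • x) = id := by
      funext x
      simp
    rw [e]
    exact MeasurePreserving.id ν
  | succ i ih =>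
    have h := ih.comp hp
    have e : (fun x : UnitAddCircle => p ^ (i + 1) • x) =
        (fun x : UnitAddCircle => p ^ i • x) ∘ fun x => p • x := by
      funext x
      simp only [Function.comp_apply]
      rw [smul_smul, pow_succ]
    rw [e]
    exact h

lemma mp_pq {p q : ℕ} {ν : Measure UnitAddCircle}
    (hp : MeasurePreserving (fun x : UnitAddCircle => p • x) ν ν)
    (hq : MeasurePreserving (fun x : UnitAddCircle => q • x) ν ν) (n : ℕ × ℕ) :
    MeasurePreserving (fun x : UnitAddCircle => (p ^ n.1 * q ^ n.2) • x) ν ν := by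
  have h := (mp_pow hp n.1).comp (mp_pow hq n.2)
  have e : (fun x : UnitAddCircle => (p ^ n.1 * q ^ n.2) • x) =
      (fun x : UnitAddCircle => p ^ n.1 • x) ∘ fun x => q ^ n.2 • x := by
    funext x
    simp only [Function.comp_apply]
    rw [smul_smul]
  rw [e]
  exact h

/-- the averages preserve the integrals -/
lemma ave_int {p q : ℕ} {ν : Measure UnitAddCircle} [IsProbabilityMeasure ν]
    (hp : MeasurePreserving (fun x : UnitAddCircle => p • x) ν ν)
    (hq : MeasurePreserving (fun x : UnitAddCircle => q • x) ν ν)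
    {f : UnitAddCircle → ℝ} (hf : Integrable f ν) {F : Finset (ℕ × ℕ)} (hF : F.Nonempty) :
    Integrable (ave p q F f) ν ∧ ∫ x, ave p q F f x ∂ν = ∫ x, f x ∂ν := by
  have hi : ∀ n : ℕ × ℕ, Integrable (fun x => f ((p ^ n.1 * q ^ n.2) • x)) ν := fun n =>
    (mp_pq hp hq n).integrable_comp_of_integrable hf
  have hv : ∀ n : ℕ × ℕ, ∫ x, f ((p ^ n.1 * q ^ n.2) • x) ∂ν = ∫ x, f x ∂ν := by
    intro n
    have h := mp_pq hp hq n
    have h1 := integral_map (μ := ν) (f := f) h.measurable.aemeasurable (by
      rw [h.map_eq]; exact hf.aestronglyMeasurable)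
    rw [h.map_eq] at h1
    exact h1.symm
  unfold ave
  refine ⟨(integrable_finsetSum _ fun n _ => hi n).const_mul _, ?_⟩
  rw [integral_const_mul, integral_finsetSum _ fun n _ => hi n, Finset.sum_congr rfl fun n _ => hv n,
    Finset.sum_const, nsmul_eq_mul, ← mul_assoc, inv_mul_cancel₀, one_mul]
  exact_mod_cast hF.card_ne_zero

lemma Sqr_ne {N : ℕ} (hN : 0 < N) : (Sqr N).Nonempty := by
  refine ⟨(0, 0), ?_⟩
  unfold Sqr
  simp [hN]

/-- truncation at the level `M` -/
lemma trunc {M y w : ℝ} (hy : |y| ≤ M) : |y - max (-M) (min M w)| ≤ |y - w| := by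
  obtain ⟨h1, h2⟩ := abs_le.mp hy
  rcases le_total w (-M) with h | h
  · rw [min_eq_right (by linarith), max_eq_left h, abs_of_nonneg (by linarith),
      abs_of_nonneg (by linarith)]
    linarith
  · rcases le_total M w with h' | h'
    · rw [min_eq_left h', max_eq_right (by linarith), abs_of_nonpos (by linarith),
        abs_of_nonpos (by linarith)]
      linarith
    · rw [min_eq_right h', max_eq_right h]

lemma ave_bdd (p q : ℕ) (F : Finset (ℕ × ℕ)) {g : UnitAddCircle → ℝ} {M : ℝ} (hM : 0 ≤ M)
    (hg : ∀ x, |g x| ≤ M) (x : UnitAddCircle) : |ave p q F g x| ≤ M := by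
  unfold ave
  rw [abs_mul, abs_inv, Nat.abs_cast]
  rcases F.eq_empty_or_nonempty with h | h
  · subst h
    simpa using hM
  · have hF : (0 : ℝ) < F.card := by exact_mod_cast h.card_pos
    rw [inv_mul_le_iff₀ hF]
    calc |∑ n ∈ F, g ((p ^ n.1 * q ^ n.2) • x)| ≤ ∑ n ∈ F, |g ((p ^ n.1 * q ^ n.2) • x)| :=
          Finset.abs_sum_le_sum_abs _ _
      _ ≤ ∑ _n ∈ F, M := Finset.sum_le_sum fun n _ => hg _
      _ = F.card * M := by rw [Finset.sum_const, nsmul_eq_mul]

/-- the averages over squares converge in `L¹` to a bounded invariant function -/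
theorem box_approx {p q : ℕ} {ν : Measure UnitAddCircle} [IsProbabilityMeasure ν]
    (hp : MeasurePreserving (fun x : UnitAddCircle => p • x) ν ν)
    (hq : MeasurePreserving (fun x : UnitAddCircle => q • x) ν ν) (g : C(UnitAddCircle, ℝ)) :
    ∃ W : UnitAddCircle → ℝ, Measurable W ∧ (∀ x, |W x| ≤ ‖g‖) ∧ (∀ᵐ x ∂ν, W (p • x) = W x) ∧
      (∀ᵐ x ∂ν, W (q • x) = W x) ∧ ∀ ε > 0, ∃ N : ℕ, 0 < N ∧
        ∫ x, |ave p q (Sqr N) g x - W x| ∂ν ≤ ε := by
  obtain ⟨W, hWm, hWp, hWq, hW⟩ := decomp hp hq g
  have hinv := ave_inv hp hq hWp hWq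
  set M : ℝ := ‖g‖ with hM
  have hM0 : 0 ≤ M := norm_nonneg _
  refine ⟨fun x => max (-M) (min M (W x)), measurable_const.max (measurable_const.min hWm), ?_, ?_,
    ?_, ?_⟩
  · intro x
    rw [abs_le]
    exact ⟨le_max_left _ _, max_le (by linarith) (min_le_left _ _)⟩
  · filter_upwards [hWp] with x hx
    rw [hx]
  · filter_upwards [hWq] with x hx
    rw [hx]
  · intro ε hε
    obtain ⟨u, v, hint, huv⟩ := hW (ε / 2) (by positivity)
    obtain ⟨N, hN⟩ := exists_nat_gt ((2 * ‖u‖ + 2 * ‖v‖) / (ε / 2))
    have hN0 : (0 : ℝ) < N := lt_of_le_of_lt (by positivity) hN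
    have hN0' : 0 < N := by exact_mod_cast hN0
    rw [div_lt_iff₀ (by positivity)] at hN
    refine ⟨N, hN0', ?_⟩
    set e : UnitAddCircle → ℝ := fun x => g x - W x - (u x - u (p • x)) - (v x - v (q • x)) with he
    obtain ⟨hai, hav⟩ := ave_int hp hq hint.abs (Sqr_ne hN0')
    have hgc : Continuous (ave p q (Sqr N) g) := Zk26.FS.ave_cont p q _ g
    have hWb : ∀ x, ‖max (-M) (min M (W x))‖ ≤ M := by
      intro x
      rw [Real.norm_eq_abs, abs_le]
      exact ⟨le_max_left _ _, max_le (by linarith) (min_le_left _ _)⟩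
    have hWi : Integrable (fun x => max (-M) (min M (W x))) ν :=
      Integrable.of_bound (measurable_const.max (measurable_const.min hWm)).aestronglyMeasurable M
        (Eventually.of_forall hWb)
    have hpt : ∀ᵐ x ∂ν, |ave p q (Sqr N) g x - max (-M) (min M (W x))| ≤
        (2 * ‖u‖ + 2 * ‖v‖) / N + ave p q (Sqr N) (fun x => |e x|) x := by
      filter_upwards [hinv] with x hx
      refine (trunc (ave_bdd p q (Sqr N) hM0 (fun x => Zk26.FS.bdd g x) x)).trans ?_
      have d1 : ave p q (Sqr N) g x = ave p q (Sqr N) W x +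
          ave p q (Sqr N) (fun x => u x - u (p • x)) x +
          ave p q (Sqr N) (fun x => v x - v (q • x)) x + ave p q (Sqr N) e x := by
        rw [← ave_add, ← ave_add, ← ave_add]
        congr 1
        funext x
        simp only [he]
        ring
      have d2 := hx (Sqr N) (Sqr_ne hN0')
      have d3 := ave_cob1 p q (Sqr N) u x
      have d4 := ave_cob2 p q (Sqr N) v x
      have d5 := ave_abs p q (Sqr N) e x
      rw [Sqr_card] at d3 d4
      have d3' : |ave p q (Sqr N) (fun x => u x - u (p • x)) x| ≤ 2 * ‖u‖ / N := by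
        refine d3.trans ?_
        have h1 := leave1 N
        rw [mul_div_assoc']
        rw [div_le_div_iff₀ (by positivity) hN0]
        nlinarith [mul_le_mul_of_nonneg_left h1 (mul_nonneg (mul_nonneg zero_le_two (norm_nonneg u))
          hN0.le)]
      have d4' : |ave p q (Sqr N) (fun x => v x - v (q • x)) x| ≤ 2 * ‖v‖ / N := by
        refine d4.trans ?_
        have h1 := leave2 N
        rw [mul_div_assoc']
        rw [div_le_div_iff₀ (by positivity) hN0]
        nlinarith [mul_le_mul_of_nonneg_left h1 (mul_nonneg (mul_nonneg zero_le_two (norm_nonneg v))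
          hN0.le)]
      rw [d1, d2]
      have e1 : W x + ave p q (Sqr N) (fun x => u x - u (p • x)) x +
          ave p q (Sqr N) (fun x => v x - v (q • x)) x + ave p q (Sqr N) e x - W x =
          ave p q (Sqr N) (fun x => u x - u (p • x)) x +
          ave p q (Sqr N) (fun x => v x - v (q • x)) x + ave p q (Sqr N) e x := by ring
      rw [e1]
      refine (abs_add_le _ _).trans ?_
      refine add_le_add ((abs_add_le _ _).trans ?_) d5
      rw [add_div]
      exact add_le_add d3' d4'
    calc ∫ x, |ave p q (Sqr N) g x - max (-M) (min M (W x))| ∂ν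
        ≤ ∫ x, ((2 * ‖u‖ + 2 * ‖v‖) / N + ave p q (Sqr N) (fun x => |e x|) x) ∂ν := by
          refine integral_mono_ae ((Zk26.FS.cont_int hgc).sub hWi).abs
            ((integrable_const _).add hai) hpt
      _ = (2 * ‖u‖ + 2 * ‖v‖) / N + ∫ x, |e x| ∂ν := by
          rw [integral_add (integrable_const _) hai, hav]
          simp
      _ ≤ ε / 2 + ε / 2 := by
          refine add_le_add ?_ huv
          rw [div_le_iff₀ hN0]
          linarith
      _ = ε := by ring

/-- **Convergence almost everywhere from the weak maximal inequality for bounded functions.** -/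
theorem ae_convB {p q : ℕ} {ν : Measure UnitAddCircle} [IsProbabilityMeasure ν]
    (hnp : MeasurePreserving (fun x : UnitAddCircle => p • x) ν ν)
    (hnq : MeasurePreserving (fun x : UnitAddCircle => q • x) ν ν)
    {F : ℕ → Finset (ℕ × ℕ)} (hF : Folner F) {C : ℝ} (hC : 0 < C)
    (hmax : ∀ f : UnitAddCircle → ℝ, Measurable f → (∀ x, 0 ≤ f x) → (∀ x, f x ≤ 1) →
      ∀ l : ℝ, 0 < l → l ≤ 1 →
        ν.real {x | ∃ n, l < ave p q (F n) f x} ≤ C / l ^ 2 * ∫ x, f x ∂ν)
    (g : C(UnitAddCircle, ℝ)) :
    ∀ᵐ x ∂ν, ∃ c : ℝ, Tendsto (fun k => ave p q (F k) g x) atTop (𝓝 c) := by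
  obtain ⟨W, hWm, hWb, hWp, hWq, hW⟩ := box_approx hnp hnq g
  obtain ⟨hF1, hF2, hF3⟩ := hF
  have hinv := ave_inv hnp hnq hWp hWq
  set M : ℝ := ‖g‖ with hM
  have hM0 : 0 ≤ M := norm_nonneg _
  set D : ℝ := 2 * (M + 1) with hD
  have hD2 : 2 ≤ D := by rw [hD]; linarith
  have hD0 : 0 < D := by linarith
  have hB : ∀ m : ℕ, ∀ᵐ x ∂ν, ∀ᶠ k in atTop,
      |ave p q (F k) g x - W x| ≤ 2 * (1 / ((m : ℝ) + 1)) := by
    intro m
    set l : ℝ := 1 / ((m : ℝ) + 1) with hl
    have hl0 : 0 < l := by positivity
    have hl1 : l ≤ 1 := by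
      rw [hl, div_le_one (by positivity)]
      have : (0 : ℝ) ≤ m := Nat.cast_nonneg m
      linarith
    set B : Set UnitAddCircle := {x | ¬ ((∀ G : Finset (ℕ × ℕ), G.Nonempty → ave p q G W x = W x) →
      ∀ᶠ k in atTop, |ave p q (F k) g x - W x| ≤ 2 * l)} with hBd
    have hB0 : ν B = 0 := by
      refine le_antisymm ?_ bot_le
      refine ENNReal.le_of_forall_pos_le_add ?_
      intro ε hε _
      rw [zero_add]
      have hε' : (0 : ℝ) < ε := by exact_mod_cast hε
      obtain ⟨N, hN, hint⟩ := hW (ε * (l / D) ^ 2 * D / C) (by positivity)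
      set h : UnitAddCircle → ℝ := ave p q (Sqr N) g with hh
      have hhc : Continuous h := Zk26.FS.ave_cont p q _ g
      have hhb : ∀ x, |h x| ≤ M := fun x => ave_bdd p q (Sqr N) hM0 (fun x => Zk26.FS.bdd g x) x
      set f : UnitAddCircle → ℝ := fun x => |h x - W x| / D with hf
      have hfm : Measurable f := by
        have : Measurable fun x => |h x - W x| := by
          have := (hhc.measurable.sub hWm).norm
          simpa using this
        exact this.div_const D
      have hf0 : ∀ x, 0 ≤ f x := fun x => by positivity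
      have hf1 : ∀ x, f x ≤ 1 := by
        intro x
        rw [hf, div_le_one hD0]
        have h1 := hhb x
        have h2 := hWb x
        calc |h x - W x| ≤ |h x| + |W x| := abs_sub _ _
          _ ≤ D := by rw [hD]; linarith
      have hlD : 0 < l / D := by positivity
      have hlD1 : l / D ≤ 1 := by
        rw [div_le_one hD0]
        linarith
      have h1 := hmax f hfm hf0 hf1 (l / D) hlD hlD1
      have hfi : ∫ x, f x ∂ν = (∫ x, |h x - W x| ∂ν) / D := by
        rw [hf, integral_div]
      have h2 : ν.real {x | ∃ n, l / D < ave p q (F n) f x} ≤ ε := by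
        refine h1.trans ?_
        rw [hfi]
        calc C / (l / D) ^ 2 * ((∫ x, |h x - W x| ∂ν) / D)
            ≤ C / (l / D) ^ 2 * (((ε : ℝ) * (l / D) ^ 2 * D / C) / D) := by
              gcongr
          _ = (ε : ℝ) := by field_simp
      have h3 : ν {x | ∃ n, l / D < ave p q (F n) f x} ≤ ε := by
        have h4 : ν {x | ∃ n, l / D < ave p q (F n) f x} =
            ENNReal.ofReal (ν.real {x | ∃ n, l / D < ave p q (F n) f x}) := by
          rw [ofReal_measureReal]
        rw [h4]
        calc ENNReal.ofReal _ ≤ ENNReal.ofReal (ε : ℝ) := ENNReal.ofReal_le_ofReal h2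
          _ = ε := ENNReal.ofReal_coe_nnreal
      refine (measure_mono ?_).trans h3
      intro x hx
      by_contra hx'
      apply hx
      intro hWx
      simp only [mem_ofPred_eq, not_exists, not_lt] at hx'
      have hlim : Tendsto (fun k => 2 * ‖g‖ * N * ((((F k).filter fun n => (n.1 + 1, n.2) ∉ F k).card : ℝ) /
          (F k).card + (((F k).filter fun n => (n.1, n.2 + 1) ∉ F k).card : ℝ) / (F k).card))
          atTop (𝓝 0) := by
        have := (hF2.add hF3).const_mul (2 * ‖g‖ * N)
        simpa using this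
      filter_upwards [hlim.eventually (gt_mem_nhds hl0)] with k hk
      have d1 := ave_box' p q (F k) g hN x
      have d2 := hWx (F k) (hF1 k)
      have d3 : ave p q (F k) h x = ave p q (F k) W x + ave p q (F k) (fun x => h x - W x) x := by
        rw [← ave_add]
        congr 1
        funext x
        ring
      have d4 : |ave p q (F k) (fun x => h x - W x) x| ≤ l := by
        refine (ave_abs p q (F k) _ x).trans ?_
        have e1 : ave p q (F k) (fun x => |h x - W x|) x = D * ave p q (F k) f x := by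
          unfold ave
          rw [mul_left_comm]
          congr 1
          rw [Finset.mul_sum]
          refine Finset.sum_congr rfl fun n _ => ?_
          simp only [hf]
          field_simp
        rw [e1]
        calc D * ave p q (F k) f x ≤ D * (l / D) := mul_le_mul_of_nonneg_left (hx' k) hD0.le
          _ = l := by field_simp
      have e2 : ave p q (F k) g x - W x =
          -(ave p q (F k) h x - ave p q (F k) g x) + ave p q (F k) (fun x => h x - W x) x := by
        rw [d3, d2]
        ring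
      rw [e2]
      refine (abs_add_le _ _).trans ?_
      rw [abs_neg]
      linarith
    have hBae : ∀ᵐ x ∂ν, ((∀ G : Finset (ℕ × ℕ), G.Nonempty → ave p q G W x = W x) →
      ∀ᶠ k in atTop, |ave p q (F k) g x - W x| ≤ 2 * l) := by
      rw [ae_iff]
      exact hB0
    filter_upwards [hBae, hinv] with x hx hx2
    exact hx hx2
  have hall := ae_all_iff.2 hB
  filter_upwards [hall] with x hx
  refine ⟨W x, ?_⟩
  rw [Metric.tendsto_atTop]
  intro ε hε
  obtain ⟨m, hm⟩ := exists_nat_one_div_lt (show (0 : ℝ) < ε / 2 by positivity)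
  obtain ⟨k₀, hk₀⟩ := eventually_atTop.1 (hx m)
  refine ⟨k₀, fun k hk => ?_⟩
  rw [Real.dist_eq]
  have := hk₀ k hk
  linarith

end Pool.Agent.Zk85.Tu
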