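import Pool.Agent.Zk32.Tw0

/-!
# Folner averages of parts of Rajchman measures (module for helper32)
-/

set_option autoImplicit false

open MeasureTheory Filter Topology Set

namespace Pool.Agent.Zk85.Tw

open Pool.Agent.Zk32

/-! ### the second moment -/

lemma fourier_smul (k : ℤ) (s : ℕ) (x : UnitAddCircle) :
    (fourier k (s • x) : ℂ) = fourier (k * s) x := by
  rw [fourier_apply, fourier_apply]
  congr 2
  rw [mul_zsmul]
  congr 1
  try simp

lemma s_inj {p q : ℕ} (hp : 2 ≤ p) (hq : 2 ≤ q) (hpq : Nat.Coprime p q) {a b : ℕ × ℕ}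
    (h : p ^ a.1 * q ^ a.2 = p ^ b.1 * q ^ b.2) : a = b := by
  have key : ∀ {a b : ℕ × ℕ}, p ^ a.1 * q ^ a.2 = p ^ b.1 * q ^ b.2 → a.1 ≤ b.1 ∧ a.2 ≤ b.2 := by
    intro a b h
    constructor
    · have h1 : p ^ a.1 ∣ p ^ b.1 * q ^ b.2 := ⟨q ^ a.2, h.symm⟩
      have h2 : Nat.Coprime (p ^ a.1) (q ^ b.2) := Nat.Coprime.pow _ _ hpq
      exact (Nat.pow_dvd_pow_iff_le_right (by omega)).mp (h2.dvd_of_dvd_mul_right h1)
    · have h1 : q ^ a.2 ∣ p ^ b.1 * q ^ b.2 := ⟨p ^ a.1, by rw [← h, mul_comm]⟩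
      have h2 : Nat.Coprime (q ^ a.2) (p ^ b.1) := Nat.Coprime.pow _ _ hpq.symm
      exact (Nat.pow_dvd_pow_iff_le_right (by omega)).mp (h2.dvd_of_dvd_mul_left h1)
  obtain ⟨h1, h2⟩ := key h
  obtain ⟨h3, h4⟩ := key h.symm
  exact Prod.ext (le_antisymm h1 h3) (le_antisymm h2 h4)

/-- the complex average -/
noncomputable def cav (p q : ℕ) (F : Finset (ℕ × ℕ)) (f : UnitAddCircle → ℂ) (x : UnitAddCircle) :
    ℂ := ((F.card : ℝ) : ℂ)⁻¹ * ∑ a ∈ F, f ((p ^ a.1 * q ^ a.2) • x)

lemma cav_cont (p q : ℕ) (F : Finset (ℕ × ℕ)) (f : C(UnitAddCircle, ℂ)) :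
    Continuous (cav p q F f) := by
  unfold cav
  refine continuous_const.mul (continuous_finsetSum _ fun a _ => ?_)
  exact f.continuous.comp (continuous_nsmul _)

lemma cint {μ : Measure UnitAddCircle} [IsFiniteMeasure μ] {E : Type} [NormedAddCommGroup E]
    {f : UnitAddCircle → E} (hf : Continuous f) : Integrable f μ := by
  obtain ⟨C, hC⟩ := isCompact_univ.exists_bound_of_continuousOn (f := f) hf.continuousOn
  exact Integrable.of_bound hf.aestronglyMeasurable C (Eventually.of_forall fun x => hC x (mem_univ x))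

lemma sq_le (p q : ℕ) {ω : Measure UnitAddCircle} [IsProbabilityMeasure ω] (F : Finset (ℕ × ℕ))
    (k : ℤ) : ∫ x, ‖cav p q F (fourier k) x‖ ^ 2 ∂ω ≤ ((F.card : ℝ)⁻¹) ^ 2 *
      ∑ a ∈ F, ∑ b ∈ F, ‖∫ x : UnitAddCircle, (fourier (k * (p ^ a.1 * q ^ a.2 : ℕ) -
        k * (p ^ b.1 * q ^ b.2 : ℕ)) x : ℂ) ∂ω‖ := by
  set c : ℂ := ((F.card : ℝ) : ℂ)⁻¹ with hc
  have e1 : ∀ x : UnitAddCircle, ((‖cav p q F (fourier k) x‖ ^ 2 : ℝ) : ℂ) =
      c ^ 2 * ∑ a ∈ F, ∑ b ∈ F, (fourier (k * (p ^ a.1 * q ^ a.2 : ℕ) -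
        k * (p ^ b.1 * q ^ b.2 : ℕ)) x : ℂ) := by
    intro x
    have h1 : ((‖cav p q F (fourier k) x‖ ^ 2 : ℝ) : ℂ) =
        cav p q F (fourier k) x * (starRingEnd ℂ) (cav p q F (fourier k) x) := by
      rw [Complex.mul_conj, Complex.normSq_eq_norm_sq]
    rw [h1]
    unfold cav
    rw [← hc]
    have hcc : (starRingEnd ℂ) c = c := by
      rw [hc, map_inv₀, Complex.conj_ofReal]
    rw [map_mul, map_sum, hcc]
    have h2 : ∀ a b : ℕ × ℕ, (fourier (k * (p ^ a.1 * q ^ a.2 : ℕ) -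
        k * (p ^ b.1 * q ^ b.2 : ℕ)) x : ℂ) = fourier k ((p ^ a.1 * q ^ a.2) • x) *
          (starRingEnd ℂ) (fourier k ((p ^ b.1 * q ^ b.2) • x)) := by
      intro a b
      rw [fourier_smul, fourier_smul, sub_eq_add_neg, fourier_add, fourier_neg]
    simp only [h2]
    rw [← Finset.sum_mul_sum]
    ring
  have e2 : ((∫ x, ‖cav p q F (fourier k) x‖ ^ 2 ∂ω : ℝ) : ℂ) =
      c ^ 2 * ∑ a ∈ F, ∑ b ∈ F, ∫ x : UnitAddCircle, (fourier (k * (p ^ a.1 * q ^ a.2 : ℕ) -
        k * (p ^ b.1 * q ^ b.2 : ℕ)) x : ℂ) ∂ω := by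
    rw [← integral_complex_ofReal]
    simp only [e1]
    rw [integral_const_mul, integral_finsetSum _ fun a _ => ?_]
    · congr 1
      refine Finset.sum_congr rfl fun a _ => ?_
      rw [integral_finsetSum _ fun b _ => ?_]
      exact cint (ContinuousMap.continuous _)
    · exact integrable_finsetSum _ fun b _ => cint (ContinuousMap.continuous _)
  have e3 : ∫ x, ‖cav p q F (fourier k) x‖ ^ 2 ∂ω ≤
      ‖((∫ x, ‖cav p q F (fourier k) x‖ ^ 2 ∂ω : ℝ) : ℂ)‖ := by
    rw [Complex.norm_real]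
    exact le_abs_self _
  refine e3.trans ?_
  rw [e2, norm_mul, norm_pow, hc, norm_inv, Complex.norm_real, Real.norm_eq_abs, Nat.abs_cast]
  refine mul_le_mul_of_nonneg_left ?_ (by positivity)
  refine (norm_sum_le _ _).trans (Finset.sum_le_sum fun a _ => norm_sum_le _ _)

lemma leave_ge (F : Finset (ℕ × ℕ)) (hF : F.Nonempty) :
    (1 : ℝ) ≤ ((F.filter fun n => (n.1 + 1, n.2) ∉ F).card : ℝ) := by
  obtain ⟨n, hn, hmax⟩ := F.exists_max_image Prod.fst hF
  have h1 : n ∈ F.filter fun n => (n.1 + 1, n.2) ∉ F := by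
    rw [Finset.mem_filter]
    refine ⟨hn, fun h => ?_⟩
    have := hmax _ h
    simp only at this
    omega
  exact_mod_cast Finset.card_pos.mpr ⟨n, h1⟩

/-- **the second moments tend to zero** -/
theorem int_sq {p q : ℕ} (hp : 2 ≤ p) (hq : 2 ≤ q) (hpq : Nat.Coprime p q)
    {F : ℕ → Finset (ℕ × ℕ)} (hF : Folner F) {ω : Measure UnitAddCircle} [IsProbabilityMeasure ω]
    (hω : Raj ω) {k : ℤ} (hk : k ≠ 0) :
    Tendsto (fun n => ∫ x, ‖cav p q (F n) (fourier k) x‖ ^ 2 ∂ω) atTop (𝓝 0) := by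
  rw [Metric.tendsto_atTop]
  intro ε hε
  obtain ⟨hF1, hF2, -⟩ := hF
  have hfin : {m : ℤ | ε / 2 ≤ ‖∫ x : UnitAddCircle, (fourier m x : ℂ) ∂ω‖}.Finite := by
    have h1 := (Metric.tendsto_nhds.1 hω) (ε / 2) (by positivity)
    rw [Filter.eventually_cofinite] at h1
    refine h1.subset fun m hm => ?_
    simp only [mem_ofPred_eq, dist_zero_right, not_lt] at hm ⊢
    exact hm
  set M : ℕ := hfin.toFinset.card with hM
  have hlim : Tendsto (fun n => (M : ℝ) * (((((F n).filter fun n' : ℕ × ℕ => (n'.1 + 1, n'.2) ∉ F n) ).card : ℝ) /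
      (F n).card)) atTop (𝓝 0) := by
    have := hF2.const_mul (M : ℝ)
    simpa using this
  obtain ⟨n₀, hn₀⟩ := eventually_atTop.1 (hlim.eventually (gt_mem_nhds (show (0 : ℝ) < ε / 2 by positivity)))
  refine ⟨n₀, fun n hn => ?_⟩
  have hn1 := hn₀ n hn
  have hcard : (0 : ℝ) < (F n).card := by exact_mod_cast (hF1 n).card_pos
  have hone : ∀ m : ℤ, ‖∫ x : UnitAddCircle, (fourier m x : ℂ) ∂ω‖ ≤ 1 := by
    intro m
    have h1 := norm_integral_le_of_norm_le_const (μ := ω) (C := 1)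
      (f := fun x : UnitAddCircle => (fourier m x : ℂ)) (Eventually.of_forall fun x => by
        rw [fourier_apply]
        exact (Circle.norm_coe _).le)
    simpa using h1
  have hin : ∀ a ∈ F n, ∑ b ∈ F n, ‖∫ x : UnitAddCircle, (fourier (k * (p ^ a.1 * q ^ a.2 : ℕ) -
        k * (p ^ b.1 * q ^ b.2 : ℕ)) x : ℂ) ∂ω‖ ≤ (F n).card * (ε / 2) + M := by
    intro a _
    classical
    have h1 : ∀ b ∈ F n, ‖∫ x : UnitAddCircle, (fourier (k * (p ^ a.1 * q ^ a.2 : ℕ) -
        k * (p ^ b.1 * q ^ b.2 : ℕ)) x : ℂ) ∂ω‖ ≤ ε / 2 +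
          (if (k * (p ^ a.1 * q ^ a.2 : ℕ) - k * (p ^ b.1 * q ^ b.2 : ℕ) : ℤ) ∈ hfin.toFinset then
            (1 : ℝ) else 0) := by
      intro b _
      split_ifs with h
      · have := hone (k * (p ^ a.1 * q ^ a.2 : ℕ) - k * (p ^ b.1 * q ^ b.2 : ℕ))
        linarith
      · rw [Set.Finite.mem_toFinset, mem_ofPred_eq, not_le] at h
        linarith
    refine (Finset.sum_le_sum h1).trans ?_
    rw [Finset.sum_add_distrib, Finset.sum_const, nsmul_eq_mul, ← Finset.sum_filter,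
      Finset.sum_const, nsmul_eq_mul, mul_one]
    refine add_le_add le_rfl ?_
    have h2 : ((F n).filter fun b => (k * (p ^ a.1 * q ^ a.2 : ℕ) -
        k * (p ^ b.1 * q ^ b.2 : ℕ) : ℤ) ∈ hfin.toFinset).card ≤ M := by
      rw [hM]
      refine Finset.card_le_card_of_injOn (fun b => (k * (p ^ a.1 * q ^ a.2 : ℕ) -
        k * (p ^ b.1 * q ^ b.2 : ℕ) : ℤ)) (fun b hb => (Finset.mem_filter.1 hb).2) ?_
      intro b _ b' _ hbb
      have h3 : k * ((p ^ b.1 * q ^ b.2 : ℕ) : ℤ) = k * ((p ^ b'.1 * q ^ b'.2 : ℕ) : ℤ) := by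
        simp only at hbb
        linarith
      have h4 := mul_left_cancel₀ hk h3
      exact s_inj hp hq hpq (by exact_mod_cast h4)
    exact_mod_cast h2
  have h5 := sq_le p q (ω := ω) (F n) k
  have h6 : ∑ a ∈ F n, ∑ b ∈ F n, ‖∫ x : UnitAddCircle, (fourier (k * (p ^ a.1 * q ^ a.2 : ℕ) -
        k * (p ^ b.1 * q ^ b.2 : ℕ)) x : ℂ) ∂ω‖ ≤ (F n).card * ((F n).card * (ε / 2) + M) := by
    refine (Finset.sum_le_sum hin).trans ?_
    rw [Finset.sum_const, nsmul_eq_mul]
  rw [Real.dist_eq, sub_zero, abs_of_nonneg (integral_nonneg fun x => by positivity)]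
  calc ∫ x, ‖cav p q (F n) (fourier k) x‖ ^ 2 ∂ω
      ≤ (((F n).card : ℝ)⁻¹) ^ 2 * ((F n).card * ((F n).card * (ε / 2) + M)) :=
        h5.trans (mul_le_mul_of_nonneg_left h6 (by positivity))
    _ = ε / 2 + M * (1 / (F n).card) := by field_simp
    _ ≤ ε / 2 + M * (((((F n).filter fun n' : ℕ × ℕ => (n'.1 + 1, n'.2) ∉ F n)).card : ℝ) / (F n).card) := by
        refine add_le_add le_rfl (mul_le_mul_of_nonneg_left ?_ (Nat.cast_nonneg _))
        exact div_le_div_of_nonneg_right (leave_ge (F n) (hF1 n)) hcard.le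
    _ < ε := by linarith

/-! ### restriction to a set -/

section restr

variable {p q : ℕ} {ω : Measure UnitAddCircle} [IsProbabilityMeasure ω] {B : Set UnitAddCircle}

lemma cond_le (hB0 : ω B ≠ 0) {f : UnitAddCircle → ℂ} (hf : Continuous f) :
    ‖∫ x, f x ∂(ProbabilityTheory.cond ω B)‖ ≤ ((ω B)⁻¹).toReal * ∫ x, ‖f x‖ ∂ω := by
  unfold ProbabilityTheory.cond
  rw [integral_smul_measure, norm_smul, Real.norm_eq_abs, abs_of_nonneg ENNReal.toReal_nonneg]
  refine mul_le_mul_of_nonneg_left ?_ ENNReal.toReal_nonneg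
  refine (norm_integral_le_integral_norm _).trans ?_
  exact setIntegral_le_integral (cint hf.norm) (Eventually.of_forall fun x => norm_nonneg _)

/-- the averages of a nontrivial character tend to zero on `B` -/
lemma char_lim (hp : 2 ≤ p) (hq : 2 ≤ q) (hpq : Nat.Coprime p q)
    {F : ℕ → Finset (ℕ × ℕ)} (hF : Folner F) (hω : Raj ω) (hB0 : ω B ≠ 0) {k : ℤ} (hk : k ≠ 0) :
    Tendsto (fun n => ∫ x, cav p q (F n) (fourier k) x ∂(ProbabilityTheory.cond ω B)) atTop (𝓝 0) := by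
  have h := int_sq hp hq hpq hF hω hk
  rw [Metric.tendsto_atTop]
  intro ε hε
  set c : ℝ := ((ω B)⁻¹).toReal with hc
  have hc0 : 0 ≤ c := ENNReal.toReal_nonneg
  set δ : ℝ := ε / (2 * (c + 1)) with hδ
  have hδ0 : 0 < δ := by positivity
  obtain ⟨n₀, hn₀⟩ := eventually_atTop.1 (h.eventually (gt_mem_nhds (show (0 : ℝ) < δ ^ 2 by positivity)))
  refine ⟨n₀, fun n hn => ?_⟩
  have h1 := hn₀ n hn
  rw [dist_zero_right]
  have hcc := cav_cont p q (F n) (fourier k)
  refine (cond_le hB0 hcc).trans_lt ?_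
  have h2 : ∫ x, ‖cav p q (F n) (fourier k) x‖ ∂ω ≤ δ + δ := by
    have h3 : ∀ x, ‖cav p q (F n) (fourier k) x‖ ≤ δ + ‖cav p q (F n) (fourier k) x‖ ^ 2 / δ := by
      intro x
      rcases le_total ‖cav p q (F n) (fourier k) x‖ δ with h4 | h4
      · have : 0 ≤ ‖cav p q (F n) (fourier k) x‖ ^ 2 / δ := by positivity
        linarith
      · have : ‖cav p q (F n) (fourier k) x‖ ≤ ‖cav p q (F n) (fourier k) x‖ ^ 2 / δ := by
          rw [le_div_iff₀ hδ0, pow_two]
          exact mul_le_mul_of_nonneg_left h4 (norm_nonneg _)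
        linarith
    have hi1 : Integrable (fun x => ‖cav p q (F n) (fourier k) x‖ ^ 2) ω :=
      cint (f := fun x => ‖cav p q (F n) (fourier k) x‖ ^ 2) (hcc.norm.pow 2)
    have hi2 : Integrable (fun x => ‖cav p q (F n) (fourier k) x‖ ^ 2 / δ) ω := hi1.div_const δ
    have hi3 : Integrable (fun _ : UnitAddCircle => δ) ω := integrable_const δ
    calc ∫ x, ‖cav p q (F n) (fourier k) x‖ ∂ω
        ≤ ∫ x, (δ + ‖cav p q (F n) (fourier k) x‖ ^ 2 / δ) ∂ω :=
          integral_mono (cint hcc.norm) (hi3.add hi2) h3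
      _ = δ + (∫ x, ‖cav p q (F n) (fourier k) x‖ ^ 2 ∂ω) / δ := by
          have e1 : ∫ _x : UnitAddCircle, δ ∂ω = δ := by
            rw [integral_const, probReal_univ, one_smul]
          have e2 : ∫ x, ‖cav p q (F n) (fourier k) x‖ ^ 2 / δ ∂ω =
            (∫ x, ‖cav p q (F n) (fourier k) x‖ ^ 2 ∂ω) / δ := integral_div _ _
          rw [integral_add hi3 hi2, e1, e2]
      _ ≤ δ + δ := by
          refine add_le_add le_rfl ?_
          rw [div_le_iff₀ hδ0, ← pow_two]
          exact h1.le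
  calc c * ∫ x, ‖cav p q (F n) (fourier k) x‖ ∂ω ≤ c * (δ + δ) := mul_le_mul_of_nonneg_left h2 hc0
    _ < (c + 1) * (δ + δ) := by nlinarith
    _ = ε := by
        rw [hδ]
        field_simp
        ring

lemma cav_bound (p q : ℕ) (F : Finset (ℕ × ℕ)) (f : C(UnitAddCircle, ℂ)) (x : UnitAddCircle) :
    ‖cav p q F f x‖ ≤ ‖f‖ := by
  unfold cav
  rw [norm_mul, norm_inv, Complex.norm_real, Real.norm_eq_abs, Nat.abs_cast]
  rcases F.eq_empty_or_nonempty with h | h
  · subst h
    simp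
  · have hF : (0 : ℝ) < F.card := by exact_mod_cast h.card_pos
    rw [inv_mul_le_iff₀ hF]
    calc ‖∑ a ∈ F, f ((p ^ a.1 * q ^ a.2) • x)‖ ≤ ∑ a ∈ F, ‖f ((p ^ a.1 * q ^ a.2) • x)‖ :=
          norm_sum_le _ _
      _ ≤ ∑ _a ∈ F, ‖f‖ := Finset.sum_le_sum fun a _ => f.norm_coe_le_norm _
      _ = F.card * ‖f‖ := by rw [Finset.sum_const, nsmul_eq_mul]

lemma cav_sub (p q : ℕ) (F : Finset (ℕ × ℕ)) (f g : C(UnitAddCircle, ℂ)) (x : UnitAddCircle) :
    cav p q F f x - cav p q F g x = cav p q F (f - g : C(UnitAddCircle, ℂ)) x := by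
  unfold cav
  rw [← mul_sub, ← Finset.sum_sub_distrib]
  rfl

/-- the property for complex functions -/
def Good (p q : ℕ) (F : ℕ → Finset (ℕ × ℕ)) (κ : Measure UnitAddCircle) (f : C(UnitAddCircle, ℂ)) :
    Prop := Tendsto (fun n => ∫ x, cav p q (F n) f x ∂κ) atTop (𝓝 (∫ x, f x ∂(volume : Measure UnitAddCircle)))

lemma good_closed (F : ℕ → Finset (ℕ × ℕ)) (κ : Measure UnitAddCircle) [IsProbabilityMeasure κ]
    {f : C(UnitAddCircle, ℂ)} (hf : ∀ ε > 0, ∃ g : C(UnitAddCircle, ℂ), Good p q F κ g ∧ ‖f - g‖ < ε) :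
    Good p q F κ f := by
  unfold Good
  rw [Metric.tendsto_atTop]
  intro ε hε
  obtain ⟨g, hg, hfg⟩ := hf (ε / 3) (by positivity)
  obtain ⟨n₀, hn₀⟩ := Metric.tendsto_atTop.1 hg (ε / 3) (by positivity)
  refine ⟨n₀, fun n hn => ?_⟩
  have h1 := hn₀ n hn
  have h2 : ‖∫ x, cav p q (F n) f x ∂κ - ∫ x, cav p q (F n) g x ∂κ‖ ≤ ‖f - g‖ := by
    rw [← integral_sub (cint (cav_cont _ _ _ _)) (cint (cav_cont _ _ _ _))]
    have h3 := norm_integral_le_of_norm_le_const (μ := κ) (C := ‖f - g‖)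
      (f := fun x => cav p q (F n) f x - cav p q (F n) g x) (Eventually.of_forall fun x => by
        rw [cav_sub]
        exact cav_bound _ _ _ _ _)
    simpa using h3
  have h4 : ‖∫ x, g x ∂(volume : Measure UnitAddCircle) - ∫ x, f x ∂(volume : Measure UnitAddCircle)‖ ≤
      ‖f - g‖ := by
    rw [← integral_sub (cint g.continuous) (cint f.continuous)]
    have h3 := norm_integral_le_of_norm_le_const (μ := (volume : Measure UnitAddCircle)) (C := ‖f - g‖)
      (f := fun x => g x - f x) (Eventually.of_forall fun x => by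
        rw [norm_sub_rev]
        exact (f - g).norm_coe_le_norm x)
    have h4 : (volume : Measure UnitAddCircle).real univ = 1 := by
      rw [measureReal_def, UnitAddCircle.measure_univ]
      simp
    rw [h4, mul_one] at h3
    exact h3
  rw [dist_eq_norm] at h1 ⊢
  have e : ∫ x, cav p q (F n) f x ∂κ - ∫ x, f x ∂(volume : Measure UnitAddCircle) =
      (∫ x, cav p q (F n) f x ∂κ - ∫ x, cav p q (F n) g x ∂κ) +
      (∫ x, cav p q (F n) g x ∂κ - ∫ x, g x ∂(volume : Measure UnitAddCircle)) +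
      (∫ x, g x ∂(volume : Measure UnitAddCircle) - ∫ x, f x ∂(volume : Measure UnitAddCircle)) := by ring
  rw [e]
  refine (norm_add_le _ _).trans_lt ?_
  have := norm_add_le (∫ x, cav p q (F n) f x ∂κ - ∫ x, cav p q (F n) g x ∂κ)
    (∫ x, cav p q (F n) g x ∂κ - ∫ x, g x ∂(volume : Measure UnitAddCircle))
  linarith

lemma good_all {F : ℕ → Finset (ℕ × ℕ)} {κ : Measure UnitAddCircle} [IsProbabilityMeasure κ]
    (h : ∀ k : ℤ, Good p q F κ (fourier k)) (f : C(UnitAddCircle, ℂ)) : Good p q F κ f := by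
  have hspan : ∀ g ∈ Submodule.span ℂ (range (fourier (T := 1))), Good p q F κ g := by
    intro g hg
    refine Submodule.span_induction (p := fun g _ => Good p q F κ g) ?_ ?_ ?_ ?_ hg
    · rintro _ ⟨k, rfl⟩
      exact h k
    · unfold Good cav
      simp
    · intro g g' _ _ h1 h2
      unfold Good at h1 h2 ⊢
      have e1 : ∀ n, ∫ x, cav p q (F n) (g + g' : C(UnitAddCircle, ℂ)) x ∂κ =
          ∫ x, cav p q (F n) g x ∂κ + ∫ x, cav p q (F n) g' x ∂κ := by
        intro n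
        rw [← integral_add (cint (cav_cont _ _ _ _)) (cint (cav_cont _ _ _ _))]
        congr 1
        funext x
        unfold cav
        rw [← mul_add, ← Finset.sum_add_distrib]
        rfl
      have e2 : ∫ x, (g + g' : C(UnitAddCircle, ℂ)) x ∂(volume : Measure UnitAddCircle) =
          ∫ x, g x ∂(volume : Measure UnitAddCircle) + ∫ x, g' x ∂(volume : Measure UnitAddCircle) := by
        rw [← integral_add (cint g.continuous) (cint g'.continuous)]
        rfl
      simp only [e1]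
      rw [e2]
      exact h1.add h2
    · intro c g _ h1
      unfold Good at h1 ⊢
      have e1 : ∀ n, ∫ x, cav p q (F n) (c • g : C(UnitAddCircle, ℂ)) x ∂κ =
          c * ∫ x, cav p q (F n) g x ∂κ := by
        intro n
        rw [← integral_const_mul]
        congr 1
        funext x
        unfold cav
        have e0 : ∑ a ∈ F n, (c • g : C(UnitAddCircle, ℂ)) ((p ^ a.1 * q ^ a.2) • x) =
            c * ∑ a ∈ F n, g ((p ^ a.1 * q ^ a.2) • x) := by
          rw [Finset.mul_sum]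
          rfl
        rw [e0]
        ring
      have e2 : ∫ x, (c • g : C(UnitAddCircle, ℂ)) x ∂(volume : Measure UnitAddCircle) =
          c * ∫ x, g x ∂(volume : Measure UnitAddCircle) := by
        rw [← integral_const_mul]
        rfl
      simp only [e1]
      rw [e2]
      exact h1.const_mul c
  refine good_closed F κ fun ε hε => ?_
  have h1 : f ∈ (Submodule.span ℂ (range (fourier (T := 1)))).topologicalClosure := by
    rw [span_fourier_closure_eq_top]
    trivial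
  obtain ⟨g, hg, hfg⟩ := Metric.mem_closure_iff.1 h1 ε hε
  exact ⟨g, hspan g hg, by rwa [dist_eq_norm] at hfg⟩

end restr

theorem raj_lim {p q : ℕ} (hp : 2 ≤ p) (hq : 2 ≤ q) (hpq : Nat.Coprime p q)
    {F : ℕ → Finset (ℕ × ℕ)} (hF : Folner F) {ω : Measure UnitAddCircle} [IsProbabilityMeasure ω]
    (hω : Raj ω) {B : Set UnitAddCircle} (hB : MeasurableSet B) (hB0 : ω B ≠ 0) :
    Lim p q F (ProbabilityTheory.cond ω B) volume := by
  haveI : IsProbabilityMeasure (ProbabilityTheory.cond ω B) :=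
    ProbabilityTheory.cond_isProbabilityMeasure hB0
  have hchar : ∀ k : ℤ, Good p q F (ProbabilityTheory.cond ω B) (fourier k) := by
    intro k
    by_cases hk : k = 0
    · subst hk
      unfold Good
      have e1 : ∀ n, ∫ x, cav p q (F n) (fourier (T := 1) 0) x ∂(ProbabilityTheory.cond ω B) = 1 := by
        intro n
        have hcard : ((F n).card : ℂ) ≠ 0 := by
          exact_mod_cast (hF.1 n).card_ne_zero
        have e2 : ∀ x, cav p q (F n) (fourier (T := 1) 0) x = 1 := by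
          intro x
          unfold cav
          simp only [fourier_zero, Finset.sum_const, nsmul_eq_mul, mul_one]
          push_cast
          exact inv_mul_cancel₀ hcard
        simp only [e2]
        simp
      have e3 : ∫ x, (fourier 0 x : ℂ) ∂(volume : Measure UnitAddCircle) = 1 := by
        have h4 : (volume : Measure UnitAddCircle).real univ = 1 := by
          rw [measureReal_def, UnitAddCircle.measure_univ]
          simp
        simp only [fourier_zero]
        rw [integral_const, h4, one_smul]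
      simp only [e1]
      rw [e3]
      exact tendsto_const_nhds
    · unfold Good
      have e3 : ∫ x, (fourier k x : ℂ) ∂(volume : Measure UnitAddCircle) = 0 := by
        exact integral_eq_zero_of_add_right_eq_neg (μ := (volume : Measure UnitAddCircle))
          (fourier_add_half_inv_index hk Real.zero_lt_one)
      rw [e3]
      exact char_lim hp hq hpq hF hω hB0 hk
  intro g
  let gc : C(UnitAddCircle, ℂ) := ⟨fun x => ((g x : ℝ) : ℂ), Complex.continuous_ofReal.comp g.continuous⟩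
  have h1 := good_all hchar gc
  unfold Good at h1
  have e1 : ∀ n, ∫ x, cav p q (F n) gc x ∂(ProbabilityTheory.cond ω B) =
      ((∫ x, ave p q (F n) g x ∂(ProbabilityTheory.cond ω B) : ℝ) : ℂ) := by
    intro n
    rw [← integral_complex_ofReal]
    congr 1
    funext x
    unfold cav ave
    push_cast
    rfl
  have e2 : ∫ x, gc x ∂(volume : Measure UnitAddCircle) =
      ((∫ x, g x ∂(volume : Measure UnitAddCircle) : ℝ) : ℂ) := by
    rw [← integral_complex_ofReal]
    rfl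
  simp only [e1] at h1
  rw [e2] at h1
  have h2 := (Complex.continuous_re.tendsto _).comp h1
  simpa [Function.comp_def] using h2

end Pool.Agent.Zk85.Tw
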