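import Pool.Agent.Zk11.LC.St
import Pool.Agent.Zk11.LC.Cnt

/-!
# Pairs of integers with product in a class (module for helper11)
-/

set_option autoImplicit false

namespace Pool.Agent.Zk85

open Finset Pool.Agent.Zk11.LC

namespace LCB

/-- the number of values in a progression -/
lemma card_prog {S : Finset ℕ} (hS : S.Nonempty) {L : ℕ} (hL : 1 ≤ L) {X : ℝ}
    (h : ∀ v ∈ S, ∀ w ∈ S, v ≤ w → L ∣ w - v ∧ ((w : ℝ) - v) ≤ X) :
    ∃ a : ℕ, ∀ v ∈ S, ∃ s : ℕ, s < ⌊X / L⌋₊ + 1 ∧ v = a + L * s := by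
  refine ⟨S.min' hS, fun v hv => ?_⟩
  have hle := S.min'_le v hv
  obtain ⟨⟨s, hs⟩, h2⟩ := h _ (S.min'_mem hS) v hv hle
  refine ⟨s, ?_, by omega⟩
  rw [Nat.lt_succ_iff]
  apply Nat.le_floor
  have hLr : (0 : ℝ) < L := by exact_mod_cast hL
  rw [le_div_iff₀ hLr]
  have h3 : v = S.min' hS + L * s := by omega
  have h4 : (v : ℝ) = (S.min' hS : ℕ) + L * s := by exact_mod_cast h3
  linarith

/-- the case of a long interval of second coordinates -/
lemma long {q : ℕ} [Fact q.Prime] {L : ℕ} {δ : ZMod q} {W : Finset (ℕ × ℕ)} {X Y : ℝ}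
    (hL : 1 ≤ L) (hqL : ¬ q ∣ L) (hδ : δ ≠ 0) (hX : 0 ≤ X) (hY : 0 ≤ Y)
    (hW : ∀ v ∈ W, (v.1 : ZMod q) * (v.2 : ZMod q) = δ)
    (h1 : ∀ v ∈ W, ∀ w ∈ W, v.1 ≤ w.1 → L ∣ w.1 - v.1 ∧ ((w.1 : ℝ) - v.1) ≤ X)
    (h2 : ∀ v ∈ W, ∀ w ∈ W, v.2 ≤ w.2 → L ∣ w.2 - v.2 ∧ ((w.2 : ℝ) - v.2) ≤ Y)
    (hq : (q : ℝ) ≤ 2 * (Y / L + 1)) :
    (W.card : ℝ) ≤ 4 * ((X / L + 1) * (Y / L + 1)) / q + 4 * Real.sqrt q := by
  have hqp : q.Prime := Fact.out
  have hq0 : (0 : ℝ) < q := by exact_mod_cast hqp.pos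
  have hLr : (0 : ℝ) < L := by exact_mod_cast hL
  -- the first coordinates
  have hf : ((W.image Prod.fst).card : ℝ) ≤ X / L + 1 := by
    refine cnt _ L hL X hX ?_
    intro a ha b hb hab
    obtain ⟨v, hv, rfl⟩ := mem_image.1 ha
    obtain ⟨w, hw, rfl⟩ := mem_image.1 hb
    exact h1 v hv w hw hab
  -- the fibres
  have hfib : ∀ m ∈ W.image Prod.fst, ((W.filter fun v => v.1 = m).card : ℝ) ≤
      3 * (Y / L + 1) / q := by
    intro m _
    have hinj : ((W.filter fun v => v.1 = m).image Prod.snd).card = (W.filter fun v => v.1 = m).card := by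
      refine card_image_of_injOn ?_
      intro v hv w hw hvw
      have hv' := (mem_filter.1 (mem_coe.1 hv)).2
      have hw' := (mem_filter.1 (mem_coe.1 hw)).2
      exact Prod.ext (hv'.trans hw'.symm) hvw
    have hc := cnt ((W.filter fun v => v.1 = m).image Prod.snd) (q * L)
      (Nat.mul_pos hqp.pos hL) Y hY (by
        intro a ha b hb hab
        obtain ⟨v, hv, rfl⟩ := mem_image.1 ha
        obtain ⟨w, hw, rfl⟩ := mem_image.1 hb
        rw [mem_filter] at hv hw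
        obtain ⟨h3, h4⟩ := h2 v hv.1 w hw.1 hab
        refine ⟨?_, h4⟩
        refine Nat.Coprime.mul_dvd_of_dvd_of_dvd ((Nat.Prime.coprime_iff_not_dvd hqp).2 hqL) ?_ h3
        have e1 := hW v hv.1
        have e2 := hW w hw.1
        rw [hv.2] at e1
        rw [hw.2] at e2
        have hm : (m : ZMod q) ≠ 0 := by
          intro h0
          rw [h0, zero_mul] at e1
          exact hδ e1.symm
        have e3 : (v.2 : ZMod q) = (w.2 : ZMod q) := mul_left_cancel₀ hm (e1.trans e2.symm)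
        exact (Nat.modEq_iff_dvd' hab).1 ((ZMod.natCast_eq_natCast_iff _ _ _).1 e3))
    rw [hinj] at hc
    refine hc.trans ?_
    push_cast
    have h5 : Y / ((q : ℝ) * L) = (Y / L) / q := by
      rw [div_div, mul_comm]
    rw [h5, le_div_iff₀ hq0, add_mul, div_mul_cancel₀ _ hq0.ne', one_mul]
    have : 0 ≤ Y / L := by positivity
    linarith
  have hcard : W.card = ∑ m ∈ W.image Prod.fst, (W.filter fun v => v.1 = m).card :=
    card_eq_sum_card_image _ _
  have h6 : (W.card : ℝ) ≤ (X / L + 1) * (3 * (Y / L + 1) / q) := by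
    rw [hcard]
    push_cast
    refine (sum_le_sum hfib).trans ?_
    rw [sum_const, nsmul_eq_mul]
    refine mul_le_mul_of_nonneg_right hf ?_
    positivity
  refine h6.trans ?_
  have h7 : (X / L + 1) * (3 * (Y / L + 1) / q) ≤ 4 * ((X / L + 1) * (Y / L + 1)) / q := by
    rw [← mul_div_assoc]
    refine div_le_div_of_nonneg_right ?_ hq0.le
    have : 0 ≤ (X / L + 1) * (Y / L + 1) := by positivity
    nlinarith
  have h8 : 0 ≤ 4 * Real.sqrt q := by positivity
  linarith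

end LCB

open LCB

theorem lc_box2 (h : Pool.Agent.Zk11.LC.Box1) : Pool.Agent.Zk11.LC.Box2 := by
  intro q _ L δ W X Y hL hqL hδ hX hY hW h1 h2
  have hqp : q.Prime := Fact.out
  have hq0 : (0 : ℝ) < q := by exact_mod_cast hqp.pos
  have hLr : (0 : ℝ) < L := by exact_mod_cast hL
  rcases W.eq_empty_or_nonempty with hW0 | hW0
  · subst hW0
    simp only [card_empty, Nat.cast_zero]
    positivity
  by_cases hK : q < 2 * (⌊Y / L⌋₊ + 1)
  · refine long hL hqL hδ hX hY hW h1 h2 ?_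
    have h3 : (⌊Y / L⌋₊ : ℝ) ≤ Y / L := Nat.floor_le (by positivity)
    have h4 : (q : ℝ) ≤ 2 * ((⌊Y / L⌋₊ : ℝ) + 1) := by exact_mod_cast hK.le
    linarith
  by_cases hH : q < 2 * (⌊X / L⌋₊ + 1)
  · have h3 : (⌊X / L⌋₊ : ℝ) ≤ X / L := Nat.floor_le (by positivity)
    have h4 : (q : ℝ) ≤ 2 * ((⌊X / L⌋₊ : ℝ) + 1) := by exact_mod_cast hH.le
    have h5 := long (W := W.image Prod.swap) (X := Y) (Y := X) hL hqL hδ hY hX
      (by
        intro v hv
        obtain ⟨w, hw, rfl⟩ := mem_image.1 hv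
        rw [Prod.fst_swap, Prod.snd_swap, mul_comm]
        exact hW w hw)
      (by
        intro v hv w hw
        obtain ⟨v', hv', rfl⟩ := mem_image.1 hv
        obtain ⟨w', hw', rfl⟩ := mem_image.1 hw
        exact h2 v' hv' w' hw')
      (by
        intro v hv w hw
        obtain ⟨v', hv', rfl⟩ := mem_image.1 hv
        obtain ⟨w', hw', rfl⟩ := mem_image.1 hw
        exact h1 v' hv' w' hw')
      (by linarith)
    rw [card_image_of_injective _ Prod.swap_injective] at h5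
    rw [mul_comm (X / L + 1)]
    exact h5
  push Not at hK hH
  obtain ⟨a, ha⟩ := card_prog (S := W.image Prod.fst) (hW0.image _) hL (X := X) (by
    intro v hv w hw
    obtain ⟨v', hv', rfl⟩ := mem_image.1 hv
    obtain ⟨w', hw', rfl⟩ := mem_image.1 hw
    exact h1 v' hv' w' hw')
  obtain ⟨b, hb⟩ := card_prog (S := W.image Prod.snd) (hW0.image _) hL (X := Y) (by
    intro v hv w hw
    obtain ⟨v', hv', rfl⟩ := mem_image.1 hv
    obtain ⟨w', hw', rfl⟩ := mem_image.1 hw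
    exact h2 v' hv' w' hw')
  have hB := h q L (⌊X / L⌋₊ + 1) (⌊Y / L⌋₊ + 1) (a : ZMod q) (b : ZMod q) δ hqL (by omega) (by omega) hH hK hδ
  have hsub : W ⊆ ((range (⌊X / L⌋₊ + 1) ×ˢ range (⌊Y / L⌋₊ + 1)).filter fun v : ℕ × ℕ =>
      ((a : ZMod q) + (L : ZMod q) * v.1) * ((b : ZMod q) + (L : ZMod q) * v.2) = δ).image
        (fun v : ℕ × ℕ => (a + L * v.1, b + L * v.2)) := by
    intro v hv
    obtain ⟨s, hs, es⟩ := ha v.1 (mem_image_of_mem _ hv)
    obtain ⟨t, ht, et⟩ := hb v.2 (mem_image_of_mem _ hv)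
    rw [mem_image]
    refine ⟨(s, t), ?_, Prod.ext es.symm et.symm⟩
    rw [mem_filter, mem_product, mem_range, mem_range]
    refine ⟨⟨hs, ht⟩, ?_⟩
    have e := hW v hv
    rw [es, et] at e
    push_cast at e
    exact e
  have hcard : (W.card : ℝ) ≤ _ := (Nat.cast_le.2 ((card_le_card hsub).trans card_image_le)).trans hB
  refine hcard.trans ?_
  push_cast
  have h3 : (⌊Y / L⌋₊ : ℝ) ≤ Y / L := Nat.floor_le (by positivity)
  have h4 : (⌊X / L⌋₊ : ℝ) ≤ X / L := Nat.floor_le (by positivity)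
  refine add_le_add (div_le_div_of_nonneg_right ?_ hq0.le) le_rfl
  rw [mul_assoc]
  refine mul_le_mul_of_nonneg_left ?_ (by norm_num)
  exact mul_le_mul (by linarith) (by linarith) (by positivity) (by positivity)

end Pool.Agent.Zk85
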