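import Pool.Agent.Zk23.AKDefs3
import Pool.Agent.Zk9.AKP5

/-!
# Progressions in graphs over finite fields: the upper bound (module M4 for helper23)
-/

set_option autoImplicit false

namespace Pool.Agent.Zk85.AKM4

open Finset Pool.Agent.Zk23.AKAP Pool.Agent.Zk9.AKP5

section main

variable {q d m : ℕ} [hq : Fact q.Prime]

theorem half (k : ℕ) (f : (Fin d → ZMod q) → (Fin m → ZMod q)) :
    ∃ A : Finset (ℤ × ℤ), (apSet q d m k (gr f)).ncard ≤ (A.image Prod.snd).card ∧
      ((Finset.range k).sup fun j => (A.image fun p => p.1 + (j : ℤ) * p.2).card) ≤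
        k ^ (d + m) * q ^ d := by
  classical
  have hq0 : (0 : ℤ) < q := by exact_mod_cast hq.1.pos
  have hfin : Finite (apSet q d m k (gr f)) := Set.toFinite _
  let _ : Fintype (apSet q d m k (gr f)) := Fintype.ofFinite _
  have hex : ∀ v : apSet q d m k (gr f), ∃ y : (Fin d → ZMod q) × (Fin m → ZMod q),
      ∀ j < k, y + (j : ZMod q) • (v : (Fin d → ZMod q) × (Fin m → ZMod q)) ∈ gr f := by
    rintro ⟨v, hv⟩
    exact hv
  choose y hy using hex
  obtain ⟨c, hc⟩ := enc (Fin d ⊕ Fin m) (2 * q)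
  obtain ⟨φ, hφ⟩ : ∃ φ : ((Fin d ⊕ Fin m) → ℤ) → ℤ, φ = fun X => ∑ i, X i * c i := ⟨_, rfl⟩
  have hφ' : ∀ X, φ X = ∑ i, X i * c i := fun X => by rw [hφ]
  refine ⟨univ.image fun v : apSet q d m k (gr f) => (φ (li (y v)), φ (li v.1)), ?_, ?_⟩
  · rw [image_image]
    rw [card_image_of_injective, card_univ, Set.ncard_eq_toFinset_card', Set.toFinset_card]
    intro v v' h
    have h1 : φ (li v.1) = φ (li v'.1) := h
    have h2 : ∑ i, (li v.1 i - li v'.1 i) * c i = 0 := by
      simp only [hφ'] at h1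
      simp only [sub_mul, sum_sub_distrib]
      linarith
    have h3 := hc _ (fun i => by
      have a1 := li_nonneg v.1 i
      have a3 := li_nonneg v'.1 i
      have b1 := li_lt v.1 i
      have b3 := li_lt v'.1 i
      rw [abs_lt]
      constructor <;> linarith) h2
    apply Subtype.ext
    refine co_inj fun i => ?_
    have h4 := h3 i
    have h5 : ((li v.1 i : ℤ) : ZMod q) = ((li v'.1 i : ℤ) : ZMod q) := by
      congr 1
      linarith
    rw [li_cast, li_cast] at h5
    exact h5
  · refine Finset.sup_le fun j hj => ?_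
    have hjk : j < k := mem_range.1 hj
    rw [image_image]
    refine (card_key univ _
      (fun v => ((y v + (j : ZMod q) • (v.1 : (Fin d → ZMod q) × (Fin m → ZMod q))).1,
        fun i => (li (y v) i + (j : ℤ) * li v.1 i) / (q : ℤ)))
      ((univ : Finset (Fin d → ZMod q)) ×ˢ Fintype.piFinset fun _ : Fin d ⊕ Fin m =>
        Finset.Icc (0 : ℤ) (k - 1))
      (fun v _ => ?_) fun v _ v' _ h => ?_).trans ?_
    · rw [mem_product]
      refine ⟨mem_univ _, ?_⟩
      rw [Fintype.mem_piFinset]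
      intro i
      have a1 := li_nonneg (y v) i
      have a2 := li_nonneg v.1 i
      have b1 := li_lt (y v) i
      have b2 := li_lt v.1 i
      have hj0 : (0 : ℤ) ≤ j := Int.natCast_nonneg _
      have hjk' : (j : ℤ) + 1 ≤ k := by exact_mod_cast hjk
      rw [mem_Icc]
      constructor
      · apply Int.ediv_nonneg
        · exact add_nonneg a1 (mul_nonneg hj0 a2)
        · exact hq0.le
      · have h1 : li (y v) i + (j : ℤ) * li v.1 i < k * q := by
          have h2 : (j : ℤ) * li v.1 i ≤ j * q := mul_le_mul_of_nonneg_left b2.le hj0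
          have h3 : ((j : ℤ) + 1) * q ≤ k * q := mul_le_mul_of_nonneg_right hjk' hq0.le
          linarith
        have h4 : (li (y v) i + (j : ℤ) * li v.1 i) / (q : ℤ) < k :=
          Int.ediv_lt_of_lt_mul hq0 h1
        exact Int.le_sub_one_of_lt h4
    · have h1 := (Prod.ext_iff.1 h).1
      have h2 := (Prod.ext_iff.1 h).2
      simp only at h1 h2
      have h3 : y v + (j : ZMod q) • (v.1 : (Fin d → ZMod q) × (Fin m → ZMod q)) =
          y v' + (j : ZMod q) • (v'.1 : (Fin d → ZMod q) × (Fin m → ZMod q)) := by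
        have a1 : (y v + (j : ZMod q) • (v.1 : (Fin d → ZMod q) × (Fin m → ZMod q))).2 =
            f (y v + (j : ZMod q) • (v.1 : (Fin d → ZMod q) × (Fin m → ZMod q))).1 := hy v j hjk
        have a2 : (y v' + (j : ZMod q) • (v'.1 : (Fin d → ZMod q) × (Fin m → ZMod q))).2 =
            f (y v' + (j : ZMod q) • (v'.1 : (Fin d → ZMod q) × (Fin m → ZMod q))).1 := hy v' j hjk
        exact Prod.ext h1 (by rw [a1, a2, h1])
      have h4 : ∀ i, li (y v) i + (j : ℤ) * li v.1 i = li (y v') i + (j : ℤ) * li v'.1 i := by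
        intro i
        have c1 : ∀ u : apSet q d m k (gr f),
            ((li (y u) i + (j : ℤ) * li u.1 i : ℤ) : ZMod q) =
              co (y u + (j : ZMod q) • (u.1 : (Fin d → ZMod q) × (Fin m → ZMod q))) i := by
          intro u
          push_cast
          rw [li_cast, li_cast, co_add_smul]
        have c2 : ((li (y v) i + (j : ℤ) * li v.1 i : ℤ) : ZMod q) =
            ((li (y v') i + (j : ℤ) * li v'.1 i : ℤ) : ZMod q) := by
          rw [c1, c1, h3]
        rw [ZMod.intCast_eq_intCast_iff] at c2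
        have c3 := congrFun h2 i
        have c4 : (li (y v) i + (j : ℤ) * li v.1 i) % (q : ℤ) =
            (li (y v') i + (j : ℤ) * li v'.1 i) % (q : ℤ) := c2
        rw [← Int.emod_add_mul_ediv (li (y v) i + (j : ℤ) * li v.1 i) q,
          ← Int.emod_add_mul_ediv (li (y v') i + (j : ℤ) * li v'.1 i) q, c3, c4]
      have c5 : ∀ u : apSet q d m k (gr f),
          φ (li (y u)) + (j : ℤ) * φ (li u.1) = ∑ i, (li (y u) i + (j : ℤ) * li u.1 i) * c i := by
        intro u
        simp only [hφ', mul_sum, ← sum_add_distrib]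
        exact sum_congr rfl fun i _ => by ring
      show φ (li (y v)) + (j : ℤ) * φ (li v.1) = φ (li (y v')) + (j : ℤ) * φ (li v'.1)
      rw [c5, c5]
      exact sum_congr rfl fun i _ => by rw [h4 i]
    · rw [card_product, card_univ, Fintype.card_fun, ZMod.card, Fintype.card_fin,
        Fintype.card_piFinset, prod_const, card_univ, Int.card_Icc, Fintype.card_sum,
        Fintype.card_fin, Fintype.card_fin, mul_comm]
      have h1 : ((k : ℤ) - 1 + 1 - 0).toNat = k := by omega
      rw [h1]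

end main

theorem upper_ap (k : ℕ) (κ : ℝ) (hκ : 0 ≤ κ) (h : APBound k κ) (d m : ℕ) :
    ∃ C : ℝ, ∀ (q : ℕ) [Fact q.Prime], ∀ f : (Fin d → ZMod q) → (Fin m → ZMod q),
      ((apSet q d m k (gr f)).ncard : ℝ) ≤ C * (q : ℝ) ^ (κ * d) := by
  refine ⟨((k ^ (d + m) : ℕ) : ℝ) ^ κ, fun q hq f => ?_⟩
  obtain ⟨A, h1, h2⟩ := half (q := q) (d := d) (m := m) k f
  calc ((apSet q d m k (gr f)).ncard : ℝ) ≤ ((A.image Prod.snd).card : ℝ) := by
        exact_mod_cast h1
    _ ≤ (((Finset.range k).sup fun j => (A.image fun p => p.1 + (j : ℤ) * p.2).card : ℕ) : ℝ) ^ κ :=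
        h A
    _ ≤ ((k ^ (d + m) * q ^ d : ℕ) : ℝ) ^ κ :=
        Real.rpow_le_rpow (Nat.cast_nonneg _) (by exact_mod_cast h2) hκ
    _ = _ := by
        rw [Nat.cast_mul, Real.mul_rpow (Nat.cast_nonneg _) (Nat.cast_nonneg _), Nat.cast_pow,
          Nat.cast_pow, ← Real.rpow_natCast (q : ℝ) d, ← Real.rpow_mul (Nat.cast_nonneg _),
          mul_comm (d : ℝ) κ]

end Pool.Agent.Zk85.AKM4
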