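import Pool.Agent.Zk50.G5

set_option autoImplicit false

/-! # Differences of positive measure give finite sets with all differences, general exponents -/

namespace Pool.Agent.Zk85.G5g

open Set Filter Topology Metric Module MeasureTheory
open scoped ContDiff ENNReal
open Pool.Agent.Zk50.G5

/-- H3: `finite_of_measure` with general exponents -/
theorem finite_of_measure_gen (n k : ℕ) (hn : 1 ≤ n) (hk : 1 ≤ k)
    (B : Set (EuclideanSpace ℝ (Fin n))) (C t t' : ℝ) (ht : 0 ≤ t) (htt' : t < t')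
    (hcov : ∀ δ : ℝ, 0 < δ → δ < 1 → ∃ S : Finset (EuclideanSpace ℝ (Fin n)),
      B ⊆ (⋃ x ∈ S, ball x δ) ∧ (S.card : ℝ) ≤ C * δ ^ (-t))
    (hv : volume {ρ : EuclideanSpace ℝ (Fin n) | ∃ a, ∀ j : ℕ, j < k → a + (j : ℝ) • ρ ∈ B} ≠ 0) :
    ∀ᶠ N : ℕ in atTop, ∃ A : Finset (Fin n → ℤ), (A.card : ℝ) ≤ (N : ℝ) ^ t' ∧
      ∀ v : Fin n → ℕ, (∀ i, v i < N) → ∃ α : Fin n → ℤ, ∀ j : ℕ, j < k →
        (fun i => α i + (j : ℤ) * (v i : ℤ)) ∈ A := by
  classical
  have _ := hn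
  have _ := hk
  have _ := ht
  set e : ℝ := (t' - t) / 2 with he
  have he0 : 0 < e := by rw [he]; linarith
  set R : Set (EuclideanSpace ℝ (Fin n)) :=
    {ρ | ∃ a, ∀ j : ℕ, j < k → a + (j : ℝ) • ρ ∈ B} with hR
  obtain ⟨M, hM1, hM⟩ := exists_cut hv
  have hfin : volume (cut R M) ≠ ⊤ :=
    ((vol_le R M (N := 1) le_rfl).trans_lt ENNReal.ofReal_lt_top).ne
  set m : ℝ := (volume (cut R M)).toReal with hm
  have hm0 : 0 < m := ENNReal.toReal_pos hM hfin
  have hM2 : (0 : ℝ) < (2 * (M : ℝ)) ^ n := by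
    have : (0 : ℝ) < (M : ℝ) := by exact_mod_cast hM1
    positivity
  set c : ℝ := m / (2 * (M : ℝ)) ^ n with hc
  have hc0 : 0 < c := div_pos hm0 hM2
  -- the constant
  set K0 : ℝ := k * ((2 * (M : ℝ) + 3) ^ n * (|C| * (2 * (k : ℝ) + 3) ^ n)) with hK0
  have hK00 : 0 ≤ K0 := by positivity
  have hevt : ∀ᶠ N : ℕ in atTop, K0 * (n * e⁻¹ / c + 2) ≤ (N : ℝ) ^ e :=
    ((tendsto_rpow_atTop he0).comp
      tendsto_natCast_atTop_atTop).eventually_ge_atTop _
  filter_upwards [hevt, eventually_ge_atTop 2] with N hNK hN2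
  have hN : 1 ≤ N := by omega
  have : NeZero N := ⟨by omega⟩
  have hN0 : (0 : ℝ) < (N : ℝ) := by exact_mod_cast hN
  have hN1 : (1 : ℝ) ≤ (N : ℝ) := by exact_mod_cast hN
  have hNn : (0 : ℝ) < (N : ℝ) ^ n := by positivity
  obtain ⟨S, hS, hScard⟩ := hcov (N : ℝ)⁻¹ (inv_pos.2 hN0)
    (inv_lt_one_of_one_lt₀ (by exact_mod_cast (by omega : 1 < N)))
  -- the residues
  set V : Finset (Fin n → ZMod N) := (WN R M N).image fun w i => ((w i : ℤ) : ZMod N) with hVdef
  have hV : c * (N : ℝ) ^ n ≤ V.card := by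
    have h1 : m ≤ (WN R M N).card * ((N : ℝ) ^ n)⁻¹ :=
      ENNReal.toReal_le_of_le_ofReal (by positivity) (vol_le R M hN)
    have h2 : m * (N : ℝ) ^ n ≤ (WN R M N).card := by
      rwa [← div_eq_mul_inv, le_div_iff₀ hNn] at h1
    have h3 : ((WN R M N).card : ℝ) ≤ V.card * (2 * (M : ℝ)) ^ n := by
      have := card_WN R M hN
      exact_mod_cast this
    rw [hc, div_mul_eq_mul_div, div_le_iff₀ hM2]
    exact h2.trans h3
  obtain ⟨T, hTcard, hT⟩ := exists_translates N n hN V c hc0 hV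
  set Zb : Finset (Fin n → ℤ) :=
    Fintype.piFinset fun _ => Finset.Icc (-((M : ℤ) + 1)) ((M : ℤ) + 1) with hZb
  have hZcard : Zb.card = (2 * M + 3) ^ n := by
    rw [hZb, Fintype.card_piFinset]
    simp only [Int.card_Icc, Finset.prod_const, Finset.card_univ, Fintype.card_fin]
    congr 1
    omega
  set Q : Finset (ℕ × (Fin n → ZMod N) × (Fin n → ℤ) × (Fin n → ℤ)) :=
    Finset.range k ×ˢ (T ×ˢ (Zb ×ˢ nbd S N k)) with hQ
  refine ⟨Q.image fun p i => p.2.2.2 i + (p.1 : ℤ) * (((p.2.1 i).val : ℤ) + N * p.2.2.1 i), ?_, ?_⟩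
  · have h1 : ((Q.image fun p i => p.2.2.2 i + (p.1 : ℤ) *
        (((p.2.1 i).val : ℤ) + N * p.2.2.1 i)).card : ℝ) ≤ Q.card := by
      exact_mod_cast Finset.card_image_le
    have h2 : (Q.card : ℝ) = k * (T.card * ((2 * (M : ℝ) + 3) ^ n * (nbd S N k).card)) := by
      rw [hQ, Finset.card_product, Finset.card_product, Finset.card_product, Finset.card_range,
        hZcard]
      push_cast
      ring
    have h3 : ((nbd S N k).card : ℝ) ≤ |C| * (N : ℝ) ^ t * (2 * (k : ℝ) + 3) ^ n := by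
      have h4 : ((nbd S N k).card : ℝ) ≤ S.card * (2 * (k : ℝ) + 3) ^ n := by
        exact_mod_cast card_nbd S N k
      refine h4.trans (mul_le_mul_of_nonneg_right (hScard.trans ?_) (by positivity))
      rw [Real.rpow_neg (by positivity), Real.inv_rpow hN0.le, inv_inv]
      exact mul_le_mul_of_nonneg_right (le_abs_self C) (by positivity)
    have h5 : (T.card : ℝ) ≤ (n * e⁻¹ / c + 2) * (N : ℝ) ^ e := by
      have h6 : Real.log N ≤ (N : ℝ) ^ e / e :=
        Real.log_le_rpow_div hN0.le he0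
      have h7 : (1 : ℝ) ≤ (N : ℝ) ^ e := Real.one_le_rpow hN1 he0.le
      have h8 : n * Real.log N / c ≤ n * e⁻¹ / c * (N : ℝ) ^ e := by
        rw [div_mul_eq_mul_div]
        refine div_le_div_of_nonneg_right ?_ hc0.le
        have h10 : n * Real.log N ≤ n * ((N : ℝ) ^ e / e) :=
          mul_le_mul_of_nonneg_left h6 (by positivity)
        refine h10.trans (le_of_eq ?_)
        rw [div_eq_mul_inv]
        ring
      linarith
    have h9 : (N : ℝ) ^ t' = (N : ℝ) ^ t *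
        ((N : ℝ) ^ e * (N : ℝ) ^ e) := by
      rw [← Real.rpow_add hN0, ← Real.rpow_add hN0]
      congr 1
      rw [he]
      ring
    have hP : (0 : ℝ) ≤ (N : ℝ) ^ t := by positivity
    have hP4 : (0 : ℝ) ≤ (N : ℝ) ^ e := by positivity
    have hc2 : 0 ≤ (n : ℝ) * e⁻¹ / c + 2 := by positivity
    rw [h9]
    refine h1.trans ?_
    rw [h2]
    calc (k : ℝ) * (T.card * ((2 * (M : ℝ) + 3) ^ n * (nbd S N k).card))
        ≤ k * (((n * e⁻¹ / c + 2) * (N : ℝ) ^ e) * ((2 * (M : ℝ) + 3) ^ n *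
          (|C| * (N : ℝ) ^ t * (2 * (k : ℝ) + 3) ^ n))) := by
          refine mul_le_mul_of_nonneg_left ?_ (by positivity)
          refine mul_le_mul h5 (mul_le_mul_of_nonneg_left h3 (by positivity)) (by positivity)
            (by positivity)
      _ = (N : ℝ) ^ t * ((N : ℝ) ^ e * (K0 * (n * e⁻¹ / c + 2))) := by
          rw [hK0]
          ring
      _ ≤ (N : ℝ) ^ t * ((N : ℝ) ^ e * (N : ℝ) ^ e) :=
          mul_le_mul_of_nonneg_left (mul_le_mul_of_nonneg_left hNK hP4) hP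
  · intro v hvN
    obtain ⟨τ, hτ, hτV⟩ := hT fun i => ((v i : ℤ) : ZMod N)
    obtain ⟨w, hw, hwe⟩ := Finset.mem_image.1 hτV
    obtain ⟨hw1, ρ, hρ, hfl⟩ := Finset.mem_filter.1 hw
    obtain ⟨a, ha⟩ := hρ.1
    -- the quotients
    have hdiv : ∀ i, ∃ z : ℤ, (v i : ℤ) = w i + ((τ i).val : ℤ) + N * z ∧
        -((M : ℤ) + 1) ≤ z ∧ z ≤ (M : ℤ) + 1 := by
      intro i
      have h1 : ((w i : ℤ) : ZMod N) = ((v i : ℤ) : ZMod N) - τ i := congrFun hwe i
      have h2 : (((w i + ((τ i).val : ℤ) : ℤ)) : ZMod N) = ((v i : ℤ) : ZMod N) := by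
        push_cast
        rw [h1, ZMod.natCast_zmod_val]
        push_cast
        ring
      rw [ZMod.intCast_eq_intCast_iff_dvd_sub] at h2
      obtain ⟨z, hz⟩ := h2
      have h3 := Finset.mem_Ico.1 ((Fintype.mem_piFinset.1 hw1) i)
      have h4 : ((τ i).val : ℤ) < N := by exact_mod_cast ZMod.val_lt (τ i)
      have h5 : (0 : ℤ) ≤ ((τ i).val : ℤ) := by positivity
      have h6 : (v i : ℤ) < N := by exact_mod_cast hvN i
      have h7 : (0 : ℤ) ≤ (v i : ℤ) := by positivity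
      have hNz : (0 : ℤ) < (N : ℤ) := by exact_mod_cast hN
      refine ⟨z, by linarith, ?_, ?_⟩
      · by_contra hcon
        have h8 : z ≤ -((M : ℤ) + 2) := by omega
        have h9 : (N : ℤ) * z ≤ N * (-((M : ℤ) + 2)) := mul_le_mul_of_nonneg_left h8 hNz.le
        have h10 := h3.2
        nlinarith
      · by_contra hcon
        have h8 : (M : ℤ) + 2 ≤ z := by omega
        have h9 : (N : ℤ) * ((M : ℤ) + 2) ≤ N * z := mul_le_mul_of_nonneg_left h8 hNz.le
        have h10 := h3.1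
        nlinarith
    choose z hz hz1 hz2 using hdiv
    refine ⟨fl N a, fun j hj => Finset.mem_image.2
      ⟨(j, τ, z, fun i => fl N a i + (j : ℤ) * w i), ?_, ?_⟩⟩
    · refine Finset.mem_product.2 ⟨Finset.mem_range.2 hj, Finset.mem_product.2 ⟨hτ,
        Finset.mem_product.2 ⟨Fintype.mem_piFinset.2 fun i => Finset.mem_Icc.2
          ⟨hz1 i, hz2 i⟩, ?_⟩⟩⟩
      refine mem_nbd hN hS (ha j hj) _ fun i => ?_
      have h1 := Int.floor_le ((N : ℝ) * a i)
      have h2 := Int.lt_floor_add_one ((N : ℝ) * a i)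
      have h3 := Int.floor_le ((N : ℝ) * ρ i)
      have h4 := Int.lt_floor_add_one ((N : ℝ) * ρ i)
      have h5 : w i = ⌊(N : ℝ) * ρ i⌋ := (congrFun hfl i).symm
      have h6 : (fl N a i : ℝ) = ((⌊(N : ℝ) * a i⌋ : ℤ) : ℝ) := rfl
      have hj0 : (0 : ℝ) ≤ (j : ℝ) := by positivity
      have hjk : (j : ℝ) + 1 ≤ k := by exact_mod_cast hj
      have h7 : (a + (j : ℝ) • ρ) i = a i + j * ρ i := rfl
      rw [h7]
      push_cast
      rw [h5, h6]
      have h8 : (j : ℝ) * ((⌊(N : ℝ) * ρ i⌋ : ℤ) : ℝ) ≤ j * ((N : ℝ) * ρ i) :=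
        mul_le_mul_of_nonneg_left h3 hj0
      have h9 : (j : ℝ) * ((N : ℝ) * ρ i) ≤ j * (((⌊(N : ℝ) * ρ i⌋ : ℤ) : ℝ) + 1) :=
        mul_le_mul_of_nonneg_left h4.le hj0
      rw [abs_le]
      constructor
      · nlinarith
      · nlinarith
    · funext i
      simp only
      rw [hz i]
      ring

end Pool.Agent.Zk85.G5g
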