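import Mathlib

/-!
# A shear of a finite set all of whose fibres are small
-/

set_option autoImplicit false

open Module

namespace Pool.Agent.Zk85.Shear

section
variable {p : ℕ} [Fact p.Prime] {V W : Type} [AddCommGroup V] [Module (ZMod p) V] [Finite V]
  [AddCommGroup W] [Module (ZMod p) W] [Finite W]

/-- prescribed values at linearly independent vectors -/
theorem exists_ext {h : ℕ} {v : Fin h → V} (hv : LinearIndependent (ZMod p) v) (w : Fin h → W) :
    ∃ L : V →ₗ[ZMod p] W, ∀ i, L (v i) = w i := by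
  obtain ⟨L, hL⟩ := LinearMap.exists_extend ((Basis.span hv).constr (ZMod p) w)
  refine ⟨L, fun i => ?_⟩
  have h1 : L ((Basis.span hv i : Submodule.span (ZMod p) (Set.range v)) : V) = w i := by
    have h2 := LinearMap.congr_fun hL (Basis.span hv i)
    rw [Basis.constr_basis] at h2
    exact h2
  rwa [Basis.span_apply] at h1

/-- the number of linear maps with prescribed values -/
theorem card_sol {h : ℕ} {v : Fin h → V} (hv : LinearIndependent (ZMod p) v) (w : Fin h → W) :
    Nat.card {L : V →ₗ[ZMod p] W // ∀ i, L (v i) = w i} * (Nat.card W) ^ h =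
      Nat.card (V →ₗ[ZMod p] W) := by
  haveI : Finite (V →ₗ[ZMod p] W) := DFunLike.finite _
  set ev : (V →ₗ[ZMod p] W) →ₗ[ZMod p] (Fin h → W) :=
    LinearMap.pi fun i => LinearMap.applyₗ (v i) with hev
  have hev1 : ∀ L i, ev L i = L (v i) := fun L i => rfl
  have hsurj : Function.Surjective ev := fun w => by
    obtain ⟨L, hL⟩ := exists_ext hv w
    exact ⟨L, funext hL⟩
  obtain ⟨L₀, hL₀⟩ := exists_ext hv w
  have e1 : Nat.card {L : V →ₗ[ZMod p] W // ∀ i, L (v i) = w i} = Nat.card (LinearMap.ker ev) := by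
    refine Nat.card_congr ⟨fun L => ⟨L.1 - L₀, ?_⟩, fun L => ⟨L.1 + L₀, fun i => ?_⟩,
      fun L => ?_, fun L => ?_⟩
    · rw [LinearMap.mem_ker]
      funext i
      rw [hev1, LinearMap.sub_apply, L.2 i, hL₀ i, sub_self]
      rfl
    · have h1 := congrFun (LinearMap.mem_ker.1 L.2) i
      rw [hev1] at h1
      rw [LinearMap.add_apply, hL₀ i, h1]
      exact zero_add _
    · apply Subtype.ext
      exact sub_add_cancel _ _
    · apply Subtype.ext
      exact add_sub_cancel_right _ _
  have e2 := LinearMap.finrank_range_add_finrank_ker ev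
  rw [LinearMap.range_eq_top.2 hsurj, finrank_top] at e2
  have e3 : (Nat.card W) ^ h = Nat.card (Fin h → W) := by
    rw [Nat.card_fun, Nat.card_eq_fintype_card (α := Fin h), Fintype.card_fin]
  rw [e1, e3, Module.natCard_eq_pow_finrank (K := ZMod p) (V := LinearMap.ker ev),
    Module.natCard_eq_pow_finrank (K := ZMod p) (V := Fin h → W),
    Module.natCard_eq_pow_finrank (K := ZMod p) (V := V →ₗ[ZMod p] W), ← pow_add, ← e2,
    add_comm]

/-- many vectors contain linearly independent differences -/
theorem exists_indep {α : Type} (F : Finset α) (g : α → V) (hg : Set.InjOn g F) {h : ℕ}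
    (hF : p ^ (h - 1) < F.card) (hh : 1 ≤ h) :
    ∃ x₀ ∈ F, ∃ x : Fin h → α, (∀ i, x i ∈ F) ∧
      LinearIndependent (ZMod p) (fun i => g (x i) - g x₀) := by
  classical
  obtain ⟨x₀, hx₀⟩ : F.Nonempty := Finset.card_pos.1 (by omega)
  set T : Set V := (fun a => g a - g x₀) '' F with hT
  obtain ⟨b, hb1, hb2, hb3⟩ := exists_linearIndependent (ZMod p) T
  have hbf : b.Finite := Set.toFinite b
  haveI := hbf.fintype
  have h1 : finrank (ZMod p) (Submodule.span (ZMod p) b) = Fintype.card b := by
    have := finrank_span_set_eq_card hb3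
    rw [this, Set.toFinset_card]
  have h2 : F.card ≤ Nat.card (Submodule.span (ZMod p) b) := by
    rw [hb2]
    have h3 : F.card = (F.image (fun a => g a - g x₀)).card := by
      rw [Finset.card_image_of_injOn]
      intro a ha a' ha' haa
      exact hg ha ha' (sub_left_injective haa)
    rw [h3, ← Set.ncard_coe_finset]
    have h4 : (↑(F.image (fun a => g a - g x₀)) : Set V) ⊆
        (Submodule.span (ZMod p) T : Set V) := by
      rw [Finset.coe_image]
      exact Submodule.subset_span
    have h5 := Set.ncard_le_ncard h4 (Set.toFinite _)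
    rwa [← Nat.card_coe_set_eq (Submodule.span (ZMod p) T : Set V)] at h5
  have h3 : h ≤ Fintype.card b := by
    by_contra hcon
    push Not at hcon
    have h4 : Nat.card (Submodule.span (ZMod p) b) ≤ p ^ (h - 1) := by
      rw [Module.natCard_eq_pow_finrank (K := ZMod p), h1, Nat.card_zmod]
      exact Nat.pow_le_pow_right (Fact.out : p.Prime).pos (by omega)
    omega
  obtain ⟨ι⟩ : Nonempty (Fin h ↪ b) := by
    rw [Function.Embedding.nonempty_iff_card_le, Fintype.card_fin]
    exact h3
  have h5 : ∀ i, ∃ a ∈ F, g a - g x₀ = (ι i : V) := fun i => by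
    obtain ⟨a, ha, hab⟩ := hb1 (ι i).2
    exact ⟨a, ha, hab⟩
  choose x hx hxι using h5
  refine ⟨x₀, hx₀, x, hx, ?_⟩
  have h6 : (fun i => g (x i) - g x₀) = (Subtype.val : b → V) ∘ ι := funext hxι
  rw [h6]
  exact hb3.comp ι ι.injective

end

/-- **D1**: a shear all of whose fibres on `A` are small -/
theorem exists_shear (p : ℕ) [Fact p.Prime] (d M h : ℕ) (hh : 1 ≤ h)
    (A : Finset ((Fin d → ZMod p) × (Fin M → ZMod p))) (hA : A.card ^ (h + 1) < p ^ (d * h)) :
    ∃ L : (Fin M → ZMod p) →ₗ[ZMod p] (Fin d → ZMod p), ∀ c : Fin d → ZMod p,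
      (A.filter (fun x => x.1 + L x.2 = c)).card ≤ p ^ (h - 1) := by
  classical
  by_contra hcon
  push Not at hcon
  set Hm := (Fin M → ZMod p) →ₗ[ZMod p] (Fin d → ZMod p) with hHm
  haveI : Finite Hm := DFunLike.finite _
  haveI := Fintype.ofFinite Hm
  -- the tuples
  let Tp := (Fin (h + 1) → A)
  let v : Tp → Fin h → (Fin M → ZMod p) := fun t i => (t i.succ).1.2 - (t 0).1.2
  let w : Tp → Fin h → (Fin d → ZMod p) := fun t i => (t 0).1.1 - (t i.succ).1.1
  let S : Tp → Finset Hm := fun t => Finset.univ.filter fun L => ∀ i, L (v t i) = w t i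
  let Gd : Finset Tp := Finset.univ.filter fun t => LinearIndependent (ZMod p) (v t)
  have hS : ∀ t ∈ Gd, (S t).card * p ^ (d * h) = Fintype.card Hm := by
    intro t ht
    have h1 : LinearIndependent (ZMod p) (v t) := (Finset.mem_filter.1 ht).2
    have h2 := card_sol h1 (w t)
    rw [Nat.card_eq_fintype_card (α := Hm), Nat.card_fun, Nat.card_zmod,
      Nat.card_eq_fintype_card (α := Fin d), Fintype.card_fin, ← pow_mul] at h2
    rw [← h2]
    congr 1
    rw [Nat.card_eq_fintype_card, Fintype.card_subtype]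
  have hcov : (Finset.univ : Finset Hm) ⊆ Gd.biUnion S := by
    intro L _
    obtain ⟨c, hc⟩ := hcon L
    obtain ⟨x₀, hx₀, x, hx, hli⟩ := exists_indep (p := p) (V := Fin M → ZMod p)
      (A.filter (fun x => x.1 + L x.2 = c)) (fun x => x.2) (by
        intro a ha a' ha' haa
        have g1 := (Finset.mem_filter.1 (Finset.mem_coe.1 ha)).2
        have g2 := (Finset.mem_filter.1 (Finset.mem_coe.1 ha')).2
        simp only at haa
        rw [haa] at g1
        have g3 : a.1 = a'.1 := by
          have := g1.trans g2.symm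
          exact add_right_cancel this
        exact Prod.ext g3 haa) hc hh
    rw [Finset.mem_biUnion]
    have m0 := Finset.mem_filter.1 hx₀
    have mi := fun i => Finset.mem_filter.1 (hx i)
    refine ⟨Fin.cons ⟨x₀, m0.1⟩ (fun i => ⟨x i, (mi i).1⟩), ?_, ?_⟩
    · rw [Finset.mem_filter]
      exact ⟨Finset.mem_univ _, hli⟩
    · rw [Finset.mem_filter]
      refine ⟨Finset.mem_univ _, fun i => ?_⟩
      show L ((x i).2 - x₀.2) = x₀.1 - (x i).1
      have g1 := m0.2
      have g2 := (mi i).2
      rw [map_sub]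
      have e1 : L (x i).2 = c - (x i).1 := by rw [← g2]; abel
      have e2 : L x₀.2 = c - x₀.1 := by rw [← g1]; abel
      rw [e1, e2]
      abel
  have h1 : Fintype.card Hm ≤ ∑ t ∈ Gd, (S t).card := by
    have := (Finset.card_le_card hcov).trans Finset.card_biUnion_le
    rwa [Finset.card_univ] at this
  have h2 : Fintype.card Hm * p ^ (d * h) ≤ A.card ^ (h + 1) * Fintype.card Hm := by
    calc Fintype.card Hm * p ^ (d * h) ≤ (∑ t ∈ Gd, (S t).card) * p ^ (d * h) :=
          Nat.mul_le_mul_right _ h1
      _ = ∑ t ∈ Gd, Fintype.card Hm := by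
          rw [Finset.sum_mul]
          exact Finset.sum_congr rfl hS
      _ = Gd.card * Fintype.card Hm := by rw [Finset.sum_const, smul_eq_mul]
      _ ≤ A.card ^ (h + 1) * Fintype.card Hm := by
          apply Nat.mul_le_mul_right
          refine (Finset.card_filter_le _ _).trans ?_
          rw [Finset.card_univ, Fintype.card_fun, Fintype.card_fin, Fintype.card_coe]
  have h3 : 0 < Fintype.card Hm := Fintype.card_pos
  have h4 : A.card ^ (h + 1) * Fintype.card Hm < Fintype.card Hm * p ^ (d * h) := by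
    rw [mul_comm]
    exact Nat.mul_lt_mul_of_pos_left hA h3
  omega

end Pool.Agent.Zk85.Shear
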