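import Mathlib

open Set Filter Topology Metric Module
open scoped ContDiff

namespace Pool.Agent.Zk85.Interp

/-- Weights picking out the linear coefficient of a polynomial of degree less than `s`. -/
theorem weights (s : ℕ) (hs : 2 ≤ s) : ∃ c : Fin s → ℝ, ∀ k < s,
    ∑ l : Fin s, c l * ((l : ℕ) : ℝ) ^ k = if k = 1 then 1 else 0 := by
  set V : Matrix (Fin s) (Fin s) ℝ := Matrix.vandermonde (fun l : Fin s => ((l : ℕ) : ℝ)) with hV
  have hdet : V.det ≠ 0 := by
    rw [hV, Matrix.det_vandermonde_ne_zero_iff]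
    intro a b hab
    have hab' : ((a : ℕ) : ℝ) = ((b : ℕ) : ℝ) := hab
    exact Fin.ext (by exact_mod_cast hab')
  have hunit : IsUnit V.det := isUnit_iff_ne_zero.mpr hdet
  let e : Fin s → ℝ := Pi.single ⟨1, by omega⟩ 1
  refine ⟨Matrix.vecMul e V⁻¹, fun k hk => ?_⟩
  have h : Matrix.vecMul (Matrix.vecMul e V⁻¹) V = e := by
    rw [Matrix.vecMul_vecMul, Matrix.nonsing_inv_mul V hunit, Matrix.vecMul_one]
  have h2 := congrFun h ⟨k, hk⟩
  have h3 : e ⟨k, hk⟩ = if k = 1 then 1 else 0 := by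
    simp only [e, Pi.single_apply, Fin.mk.injEq]
  rw [h3] at h2
  rw [← h2]
  rfl

theorem landau (s : ℕ) (hs : 2 ≤ s) : ∃ Λ : ℝ, 0 < Λ ∧ ∀ {E : Type} [NormedAddCommGroup E]
    [NormedSpace ℝ E] (g : ℝ → E), ContDiff ℝ ∞ g → ∀ M K τ : ℝ, 0 < τ → 0 ≤ K →
    (∀ t ∈ Icc (0 : ℝ) τ, ‖g t‖ ≤ M) → (∀ t ∈ Icc (0 : ℝ) τ, ‖iteratedDeriv s g t‖ ≤ K) →
    τ * ‖deriv g 0‖ ≤ Λ * (M + K * τ ^ s) := by
  obtain ⟨c, hc⟩ := weights s hs
  have hs0 : (0 : ℝ) < s := by exact_mod_cast (by omega : 0 < s)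
  refine ⟨s * ∑ l, |c l| + 1, by positivity, ?_⟩
  intro E _ _ g hg M K τ hτ hK hM hKs
  obtain ⟨n, rfl⟩ : ∃ n, s = n + 1 := ⟨s - 1, by omega⟩
  set P : ℝ → E := fun t => taylorWithinEval g n (Icc 0 τ) 0 t with hP
  have hM0 : 0 ≤ M := le_trans (norm_nonneg _) (hM 0 ⟨le_rfl, hτ.le⟩)
  have hud : UniqueDiffOn ℝ (Icc (0 : ℝ) τ) := uniqueDiffOn_Icc hτ
  have hder : ∀ k : ℕ, ∀ y ∈ Icc (0 : ℝ) τ, iteratedDerivWithin k g (Icc 0 τ) y = iteratedDeriv k g y := by
    intro k y hy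
    refine iteratedDerivWithin_eq_iteratedDeriv hud ?_ hy
    exact (hg.of_le (by exact_mod_cast le_top)).contDiffAt
  have hPb : ∀ t ∈ Icc (0 : ℝ) τ, ‖P t‖ ≤ M + K * τ ^ (n + 1) := by
    intro t ht
    have h1 := taylor_mean_remainder_bound (f := g) (a := 0) (b := τ) (C := K) (x := t) (n := n)
      hτ.le ((hg.of_le (by exact_mod_cast le_top)).contDiffOn) ht
      (fun y hy => by rw [hder _ y hy]; exact hKs y hy)
    have h2 : K * (t - 0) ^ (n + 1) / (n.factorial : ℝ) ≤ K * τ ^ (n + 1) := by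
      have hf : (1 : ℝ) ≤ (n.factorial : ℝ) := by exact_mod_cast Nat.succ_le_of_lt n.factorial_pos
      have h3 : (t - 0) ^ (n + 1) ≤ τ ^ (n + 1) := by
        refine pow_le_pow_left₀ ?_ ?_ _
        · simpa using ht.1
        · simpa using ht.2
      have h4 : 0 ≤ K * (t - 0) ^ (n + 1) := mul_nonneg hK (pow_nonneg (by simpa using ht.1) _)
      calc K * (t - 0) ^ (n + 1) / (n.factorial : ℝ) ≤ K * (t - 0) ^ (n + 1) := div_le_self h4 hf
        _ ≤ K * τ ^ (n + 1) := mul_le_mul_of_nonneg_left h3 hK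
    have h5 : P t = g t - (g t - P t) := by abel
    rw [h5]
    calc ‖g t - (g t - P t)‖ ≤ ‖g t‖ + ‖g t - P t‖ := norm_sub_le _ _
      _ ≤ M + K * τ ^ (n + 1) := add_le_add (hM t ht) (h1.trans h2)
  have hPe : ∀ t, P t = ∑ k ∈ Finset.range (n + 1), ((k.factorial : ℝ)⁻¹ * t ^ k) •
      iteratedDeriv k g 0 := by
    intro t
    simp only [hP]
    rw [taylor_within_apply]
    refine Finset.sum_congr rfl fun k _ => ?_
    rw [hder k 0 ⟨le_rfl, hτ.le⟩, sub_zero]
  have hkey : ∑ l : Fin (n + 1), c l • P (((l : ℕ) : ℝ) * (τ / (n + 1 : ℕ))) =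
      (τ / (n + 1 : ℕ)) • deriv g 0 := by
    simp only [hPe, Finset.smul_sum]
    rw [Finset.sum_comm]
    have h1 : ∀ k ∈ Finset.range (n + 1), ∑ l : Fin (n + 1), c l •
        ((k.factorial : ℝ)⁻¹ * (((l : ℕ) : ℝ) * (τ / (n + 1 : ℕ))) ^ k) • iteratedDeriv k g 0 =
        (if k = 1 then (τ / (n + 1 : ℕ)) • iteratedDeriv 1 g 0 else 0) := by
      intro k hk
      have hk' := Finset.mem_range.mp hk
      have h2 : ∑ l : Fin (n + 1), c l •
        ((k.factorial : ℝ)⁻¹ * (((l : ℕ) : ℝ) * (τ / (n + 1 : ℕ))) ^ k) • iteratedDeriv k g 0 =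
        ((k.factorial : ℝ)⁻¹ * (τ / (n + 1 : ℕ)) ^ k * ∑ l : Fin (n + 1), c l * ((l : ℕ) : ℝ) ^ k) •
          iteratedDeriv k g 0 := by
        rw [Finset.mul_sum, Finset.sum_smul]
        refine Finset.sum_congr rfl fun l _ => ?_
        rw [smul_smul]
        congr 1
        rw [mul_pow]; ring
      rw [h2, hc k hk']
      by_cases h : k = 1
      · subst h; simp
      · simp [h]
    rw [Finset.sum_congr rfl h1, Finset.sum_ite_eq' (Finset.range (n + 1)) 1, if_pos (Finset.mem_range.mpr (by omega))]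
    rw [iteratedDeriv_one]
  have hn0 : (0 : ℝ) < ((n + 1 : ℕ) : ℝ) := hs0
  have hnorm : ‖(τ / (n + 1 : ℕ)) • deriv g 0‖ ≤ (∑ l, |c l|) * (M + K * τ ^ (n + 1)) := by
    rw [← hkey]
    refine (norm_sum_le _ _).trans ?_
    rw [Finset.sum_mul]
    refine Finset.sum_le_sum fun l _ => ?_
    rw [norm_smul, Real.norm_eq_abs]
    refine mul_le_mul_of_nonneg_left (hPb _ ⟨by positivity, ?_⟩) (abs_nonneg _)
    have hl : ((l : ℕ) : ℝ) ≤ ((n + 1 : ℕ) : ℝ) := by exact_mod_cast l.2.le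
    calc ((l : ℕ) : ℝ) * (τ / (n + 1 : ℕ)) ≤ ((n + 1 : ℕ) : ℝ) * (τ / (n + 1 : ℕ)) :=
          mul_le_mul_of_nonneg_right hl (by positivity)
      _ = τ := by field_simp
  rw [norm_smul, Real.norm_eq_abs, abs_of_pos (by positivity)] at hnorm
  have h6 : τ * ‖deriv g 0‖ = ((n + 1 : ℕ) : ℝ) * (τ / ((n + 1 : ℕ) : ℝ) * ‖deriv g 0‖) := by
    field_simp
  rw [h6]
  calc ((n + 1 : ℕ) : ℝ) * (τ / ((n + 1 : ℕ) : ℝ) * ‖deriv g 0‖)
      ≤ ((n + 1 : ℕ) : ℝ) * ((∑ l, |c l|) * (M + K * τ ^ (n + 1))) :=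
        mul_le_mul_of_nonneg_left hnorm hn0.le
    _ ≤ (((n + 1 : ℕ) : ℝ) * ∑ l, |c l| + 1) * (M + K * τ ^ (n + 1)) := by
        have : 0 ≤ M + K * τ ^ (n + 1) := by positivity
        nlinarith

theorem step {Y : Type} [NormedAddCommGroup Y] [NormedSpace ℝ Y] (s : ℕ) (hs : 1 ≤ s)
    (C K R R' : ℝ) (hC : 0 ≤ C) (hK : 0 ≤ K) (hRR : R' < R) :
    ∃ C' : ℝ, 0 ≤ C' ∧ ∀ {F : Type} [NormedAddCommGroup F] [NormedSpace ℝ F] (G : Y → F) (p : Y),
      ContDiff ℝ ∞ G →
      (∀ i ≤ s, ∀ z ∈ Metric.closedBall p R, ‖iteratedFDeriv ℝ i G z‖ ≤ K) →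
      ∀ (a : ℝ) (y₁ y₂ : Y), 0 ≤ a →
        (∀ z ∈ Metric.closedBall p R, ‖G z‖ ≤ C * (a + ‖z - y₁‖ + ‖z - y₂‖) ^ s) →
        ∀ z ∈ Metric.closedBall p R',
          ‖fderiv ℝ G z‖ ≤ C' * (a + ‖z - y₁‖ + ‖z - y₂‖) ^ (s - 1) := by
  rcases Nat.lt_or_ge s 2 with h2 | h2
  · obtain rfl : s = 1 := by omega
    refine ⟨K, hK, ?_⟩
    intro F _ _ G p hG hd a y₁ y₂ ha hb z hz
    have h := hd 1 le_rfl z (closedBall_subset_closedBall hRR.le hz)
    rw [norm_iteratedFDeriv_one] at h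
    simpa using h
  · obtain ⟨Λ, hΛ, hL⟩ := landau s h2
    have hδ : 0 < R - R' := by linarith
    set δ := R - R' with hδd
    set B := Λ * (C * 3 ^ s + K) with hB
    have hB0 : 0 ≤ B := by positivity
    refine ⟨B + K / δ ^ (s - 1), by positivity, ?_⟩
    intro F _ _ G p hG hd a y₁ y₂ ha hb z hz
    set ρ := a + ‖z - y₁‖ + ‖z - y₂‖ with hρ
    have hρ0 : 0 ≤ ρ := by positivity
    have hzd : dist z p ≤ R' := hz
    -- main estimate
    have main : ∀ τ : ℝ, 0 < τ → ρ ≤ τ → τ ≤ δ → ‖fderiv ℝ G z‖ ≤ B * τ ^ (s - 1) := by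
      intro τ hτ hρτ hτδ
      refine ContinuousLinearMap.opNorm_le_of_unit_norm (by positivity) fun v hv => ?_
      set L : ℝ →L[ℝ] Y := ContinuousLinearMap.toSpanSingleton ℝ v with hLd
      have hLn : ‖L‖ ≤ 1 := by
        rw [hLd, ContinuousLinearMap.norm_toSpanSingleton, hv]
      have hLt : ∀ t, L t = t • v := fun t => by
        simp [hLd, ContinuousLinearMap.toSpanSingleton_apply]
      set g : ℝ → F := (fun w => G (z + w)) ∘ L with hg
      have hGz : ContDiff ℝ ∞ (fun w => G (z + w)) := hG.comp (contDiff_const.add contDiff_id)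
      have hgC : ContDiff ℝ ∞ g := hGz.comp L.contDiff
      have hmem : ∀ t ∈ Icc (0 : ℝ) τ, z + L t ∈ closedBall p R := by
        intro t ht
        rw [mem_closedBall, hLt]
        have h1 : dist (z + t • v) z ≤ δ := by
          rw [dist_eq_norm, add_sub_cancel_left, norm_smul, hv, mul_one, Real.norm_eq_abs,
            abs_of_nonneg ht.1]
          exact ht.2.trans hτδ
        have h3 := dist_triangle (z + t • v) z p
        linarith
      have hgd : ∀ t ∈ Icc (0 : ℝ) τ, ‖iteratedDeriv s g t‖ ≤ K := by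
        intro t ht
        rw [← norm_iteratedFDeriv_eq_norm_iteratedDeriv, hg,
          ContinuousLinearMap.iteratedFDeriv_comp_right (n := ∞) L hGz t (by exact_mod_cast le_top),
          iteratedFDeriv_comp_add_left]
        refine (ContinuousMultilinearMap.norm_compContinuousLinearMap_le _ _).trans ?_
        have h4 : ∏ _i : Fin s, ‖L‖ ≤ 1 := Finset.prod_le_one (fun _ _ => norm_nonneg _) (fun _ _ => hLn)
        have h5 := hd s le_rfl _ (hmem t ht)
        calc ‖iteratedFDeriv ℝ s G (z + L t)‖ * ∏ _i : Fin s, ‖L‖ ≤ K * 1 :=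
              mul_le_mul h5 h4 (Finset.prod_nonneg fun _ _ => norm_nonneg _) hK
          _ = K := mul_one K
      have hgb : ∀ t ∈ Icc (0 : ℝ) τ, ‖g t‖ ≤ C * (3 * τ) ^ s := by
        intro t ht
        have h6 := hb _ (hmem t ht)
        have h7 : a + ‖z + L t - y₁‖ + ‖z + L t - y₂‖ ≤ 3 * τ := by
          have h8 : ‖L t‖ ≤ τ := by
            rw [hLt, norm_smul, hv, mul_one, Real.norm_eq_abs, abs_of_nonneg ht.1]
            exact ht.2
          have h9 : ‖z + L t - y₁‖ ≤ ‖z - y₁‖ + ‖L t‖ := by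
            have : z + L t - y₁ = (z - y₁) + L t := by abel
            rw [this]; exact norm_add_le _ _
          have h10 : ‖z + L t - y₂‖ ≤ ‖z - y₂‖ + ‖L t‖ := by
            have : z + L t - y₂ = (z - y₂) + L t := by abel
            rw [this]; exact norm_add_le _ _
          linarith
        calc ‖g t‖ = ‖G (z + L t)‖ := rfl
          _ ≤ C * (a + ‖z + L t - y₁‖ + ‖z + L t - y₂‖) ^ s := h6
          _ ≤ C * (3 * τ) ^ s :=
            mul_le_mul_of_nonneg_left (pow_le_pow_left₀ (by positivity) h7 _) hC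
      have h11 := hL g hgC _ K τ hτ hK hgb hgd
      have h12 : deriv g 0 = fderiv ℝ G z v := by
        have h13 : HasDerivAt g (fderiv ℝ G z v) 0 := by
          have h14 : HasFDerivAt G (fderiv ℝ G z) (z + L 0) := by
            rw [map_zero, add_zero]
            exact (hG.differentiable (by simp)).differentiableAt.hasFDerivAt
          have h15 : HasDerivAt (fun t : ℝ => z + L t) v 0 := by
            have h16 : HasDerivAt (fun t : ℝ => t • v) ((1 : ℝ) • v) 0 :=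
              (hasDerivAt_id (0 : ℝ)).smul_const v
            rw [one_smul] at h16
            have h17 := h16.const_add z
            refine h17.congr_of_eventuallyEq (Eventually.of_forall fun t => ?_)
            simp only [hLt]
          have h19 : HasDerivAt (G ∘ fun t : ℝ => z + L t) (fderiv ℝ G z v) 0 :=
            HasFDerivAt.comp_hasDerivAt (0 : ℝ) (f := fun t : ℝ => z + L t) h14 h15
          exact h19
        exact h13.deriv
      rw [h12] at h11
      have h18 : Λ * (C * (3 * τ) ^ s + K * τ ^ s) = τ * (B * τ ^ (s - 1)) := by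
        have : τ ^ s = τ * τ ^ (s - 1) := by
          rw [← pow_succ']; congr 1; omega
        rw [hB, mul_pow, this]; ring
      rw [h18] at h11
      exact le_of_mul_le_mul_left h11 hτ
    rcases lt_or_ge ρ δ with hlt | hge
    · have hmain2 : ‖fderiv ℝ G z‖ ≤ B * ρ ^ (s - 1) := by
        have ht : Tendsto (fun τ : ℝ => B * τ ^ (s - 1)) (𝓝[>] ρ) (𝓝 (B * ρ ^ (s - 1))) :=
          ((continuous_const.mul (continuous_pow (s - 1))).tendsto ρ).mono_left nhdsWithin_le_nhds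
        refine ge_of_tendsto ht ?_
        filter_upwards [Ioc_mem_nhdsGT hlt] with τ hτ
        exact main τ (lt_of_le_of_lt hρ0 hτ.1) hτ.1.le hτ.2
      refine hmain2.trans ?_
      refine mul_le_mul_of_nonneg_right ?_ (by positivity)
      have : 0 ≤ K / δ ^ (s - 1) := by positivity
      linarith
    · have h := hd 1 (by omega) z (closedBall_subset_closedBall hRR.le hz)
      rw [norm_iteratedFDeriv_one] at h
      have hp : δ ^ (s - 1) ≤ ρ ^ (s - 1) := pow_le_pow_left₀ hδ.le hge _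
      have hdp : 0 < δ ^ (s - 1) := by positivity
      calc ‖fderiv ℝ G z‖ ≤ K := h
        _ = K / δ ^ (s - 1) * δ ^ (s - 1) := by field_simp
        _ ≤ K / δ ^ (s - 1) * ρ ^ (s - 1) := mul_le_mul_of_nonneg_left hp (by positivity)
        _ ≤ (B + K / δ ^ (s - 1)) * ρ ^ (s - 1) :=
            mul_le_mul_of_nonneg_right (by linarith) (by positivity)

/-- **C2.** Interpolation of derivatives for a function that is small near two points. -/
theorem interpolation {Y : Type} [NormedAddCommGroup Y] [NormedSpace ℝ Y] (r j : ℕ) (hj : j ≤ r)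
    (C K R R' : ℝ) (hC : 0 ≤ C) (hK : 0 ≤ K) (hR' : 0 < R') (hRR : R' < R) :
    ∃ C' : ℝ, 0 ≤ C' ∧ ∀ {F : Type} [NormedAddCommGroup F] [NormedSpace ℝ F] (G : Y → F) (p : Y),
      ContDiff ℝ ∞ G →
      (∀ i ≤ r, ∀ z ∈ Metric.closedBall p R, ‖iteratedFDeriv ℝ i G z‖ ≤ K) →
      ∀ (a : ℝ) (y₁ y₂ : Y), 0 ≤ a →
        (∀ z ∈ Metric.closedBall p R, ‖G z‖ ≤ C * (a + ‖z - y₁‖ + ‖z - y₂‖) ^ r) →
        ∀ z ∈ Metric.closedBall p R',
          ‖iteratedFDeriv ℝ j G z‖ ≤ C' * (a + ‖z - y₁‖ + ‖z - y₂‖) ^ (r - j) := by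
  induction j generalizing r C K R R' with
  | zero =>
    refine ⟨C, hC, ?_⟩
    intro F _ _ G p hG hd a y₁ y₂ ha hb z hz
    rw [norm_iteratedFDeriv_zero, Nat.sub_zero]
    exact hb z (closedBall_subset_closedBall hRR.le hz)
  | succ j ih =>
    obtain ⟨C₁, hC₁, hstep⟩ := step (Y := Y) r (by omega) C K R ((R + R') / 2) hC hK (by linarith)
    obtain ⟨C₂, hC₂, hih⟩ := ih (r - 1) (by omega) C₁ K ((R + R') / 2) R' hC₁ hK hR' (by linarith)
    refine ⟨C₂, hC₂, ?_⟩
    intro F _ _ G p hG hd a y₁ y₂ ha hb z hz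
    have h1 : ContDiff ℝ ∞ (fderiv ℝ G) := hG.fderiv_right (by simp)
    have h2 := hih (fderiv ℝ G) p h1 (fun i hi w hw => by
      rw [norm_iteratedFDeriv_fderiv]
      exact hd (i + 1) (by omega) w (closedBall_subset_closedBall (by linarith) hw)) a y₁ y₂ ha
      (hstep G p hG hd a y₁ y₂ ha hb) z hz
    rw [norm_iteratedFDeriv_fderiv] at h2
    have h3 : r - 1 - j = r - (j + 1) := by omega
    rw [h3] at h2
    exact h2

end Pool.Agent.Zk85.Interp
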