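import Pool.Agent.W656.VA9

/-!
Extensions of `ℤ` by a group `N`: windows of slices, comparison of the von Neumann dimension over
the big group with the dimensions over `N` of window spaces.
-/

set_option autoImplicit false
set_option linter.unusedSectionVars false

open scoped InnerProductSpace ENNReal
open Filter Topology

namespace Pool.Agent.Zk85.AW

open Pool.Agent.H80R2
open Pool.Agent.H80R2.BC (L2 GMat vdim IsTr LInv Equi act kerA dk pt vals TorDiv Coef AtR)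
open Pool.Agent.H812R3
open Pool.Agent.W656.VA

/-- an extension of `ℤ` by `N` -/
structure Ext (N Γ : Type) [Group N] [Group Γ] where
  inc : N →* Γ
  deg : Γ →* Multiplicative ℤ
  t : Γ
  inj : Function.Injective inc
  degt : deg t = Multiplicative.ofAdd 1
  ex : ∀ g, deg g = 1 → ∃ h, inc h = g
  deg_inc : ∀ h, deg (inc h) = 1
  σ : N ≃* N
  hσ : ∀ h, inc (σ h) = t * inc h * t⁻¹

variable {ι κ N Γ : Type} [Group N] [Group Γ]

namespace Ext
variable (E : Ext N Γ)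

/-- the degree as an integer -/
def dg (g : Γ) : ℤ := Multiplicative.toAdd (E.deg g)

theorem dg_mul (g h : Γ) : E.dg (g * h) = E.dg g + E.dg h := by
  unfold dg
  rw [map_mul, toAdd_mul]

theorem dg_inv (g : Γ) : E.dg g⁻¹ = - E.dg g := by
  unfold dg
  rw [map_inv, toAdd_inv]

theorem dg_inc (h : N) : E.dg (E.inc h) = 0 := by
  unfold dg
  rw [E.deg_inc, toAdd_one]

theorem dg_t : E.dg E.t = 1 := by
  unfold dg
  rw [E.degt, toAdd_ofAdd]

theorem dg_tpow (m : ℤ) : E.dg (E.t ^ m) = m := by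
  unfold dg
  rw [map_zpow, E.degt, toAdd_zpow, toAdd_ofAdd, smul_eq_mul, mul_one]

theorem dg_rep (h : N) (m : ℤ) : E.dg (E.inc h * E.t ^ m) = m := by
  rw [E.dg_mul, E.dg_inc, E.dg_tpow, zero_add]

theorem exists_rep (g : Γ) : ∃ h, g = E.inc h * E.t ^ (E.dg g) := by
  have h1 : E.deg (g * E.t ^ (-(E.dg g))) = 1 := by
    have : E.dg (g * E.t ^ (-(E.dg g))) = 0 := by
      rw [E.dg_mul, E.dg_tpow]
      ring
    unfold dg at this
    exact toAdd_eq_zero.1 this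
  obtain ⟨h, hh⟩ := E.ex _ h1
  refine ⟨h, ?_⟩
  rw [hh, zpow_neg, inv_mul_cancel_right]

theorem rep_inj {h h' : N} {m m' : ℤ} (e : E.inc h * E.t ^ m = E.inc h' * E.t ^ m') :
    h = h' ∧ m = m' := by
  have h1 : m = m' := by
    rw [← E.dg_rep h m, e, E.dg_rep]
  subst h1
  exact ⟨E.inj (mul_right_cancel e), rfl⟩

/-- the window of the slices `a, …, a+n-1` -/
def wi (ι : Type) (a : ℤ) (n : ℕ) : (ι × Fin n) × N → ι × Γ :=
  fun p => (p.1.1, E.inc p.2 * E.t ^ (a + (p.1.2 : ℤ)))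

theorem wi_inj (a : ℤ) (n : ℕ) : Function.Injective (E.wi ι a n) := by
  rintro ⟨⟨i, j⟩, h⟩ ⟨⟨i', j'⟩, h'⟩ e
  unfold wi at e
  simp only [Prod.mk.injEq] at e
  obtain ⟨rfl, e⟩ := e
  obtain ⟨rfl, e2⟩ := E.rep_inj e
  have : j = j' := Fin.ext (by omega)
  rw [this]

/-- extension by zero from a window -/
noncomputable def J (ι : Type) (a : ℤ) (n : ℕ) : L2 ((ι × Fin n) × N) →L[ℂ] L2 (ι × Γ) :=
  KP.push (E.wi ι a n) (E.wi_inj a n)

/-- restriction to a window -/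
noncomputable def R (ι : Type) (a : ℤ) (n : ℕ) : L2 (ι × Γ) →L[ℂ] L2 ((ι × Fin n) × N) :=
  KP.pull (E.wi ι a n) (E.wi_inj a n)

theorem R_apply (a : ℤ) (n : ℕ) (x : L2 (ι × Γ)) (i : ι) (j : Fin n) (h : N) :
    E.R ι a n x ((i, j), h) = x (i, E.inc h * E.t ^ (a + (j : ℤ))) := rfl

theorem J_apply (a : ℤ) (n : ℕ) (y : L2 ((ι × Fin n) × N)) (i : ι) (j : Fin n) (h : N) :
    E.J ι a n y (i, E.inc h * E.t ^ (a + (j : ℤ))) = y ((i, j), h) :=
  pushL_apply _ _ y ((i, j), h)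

theorem J_apply_ne (a : ℤ) (n : ℕ) (y : L2 ((ι × Fin n) × N)) (i : ι) (g : Γ)
    (hg : ¬ (a ≤ E.dg g ∧ E.dg g < a + n)) : E.J ι a n y (i, g) = 0 := by
  apply pushL_apply_ne
  rintro ⟨⟨i', j⟩, h⟩ e
  unfold wi at e
  simp only [Prod.mk.injEq] at e
  apply hg
  rw [← e.2, E.dg_rep]
  have := j.2
  constructor <;> omega

theorem RJ (a : ℤ) (n : ℕ) (y : L2 ((ι × Fin n) × N)) : E.R ι a n (E.J ι a n y) = y := by
  ext ⟨⟨i, j⟩, h⟩
  rw [R_apply, J_apply]

/-- every group element whose degree is in the window -/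
theorem exists_win (a : ℤ) (n : ℕ) (g : Γ) (hg : a ≤ E.dg g ∧ E.dg g < a + n) :
    ∃ (h : N) (j : Fin n), g = E.inc h * E.t ^ (a + (j : ℤ)) := by
  obtain ⟨h, hh⟩ := E.exists_rep g
  refine ⟨h, ⟨(E.dg g - a).toNat, by omega⟩, ?_⟩
  have : a + (((E.dg g - a).toNat : ℕ) : ℤ) = E.dg g := by
    rw [Int.toNat_of_nonneg (by omega)]
    ring
  simp only [this]
  exact hh

theorem JR_apply (a : ℤ) (n : ℕ) (x : L2 (ι × Γ)) (i : ι) (g : Γ)
    (hg : a ≤ E.dg g ∧ E.dg g < a + n) : E.J ι a n (E.R ι a n x) (i, g) = x (i, g) := by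
  obtain ⟨h, j, rfl⟩ := E.exists_win a n g hg
  rw [J_apply, R_apply]

theorem R_lt (a : ℤ) (n : ℕ) (g : N) (x : L2 (ι × Γ)) :
    E.R ι a n (lt ι (E.inc g) x) = lt (ι × Fin n) g (E.R ι a n x) := by
  ext ⟨⟨i, j⟩, h⟩
  rw [R_apply, lt_apply, lt_apply, R_apply, map_mul, mul_assoc]

theorem J_eq_adj (a : ℤ) (n : ℕ) :
    E.J ι a n = ContinuousLinearMap.adjoint (E.R ι a n) := rfl

theorem R_eq_adj (a : ℤ) (n : ℕ) :
    ContinuousLinearMap.adjoint (E.J ι a n) = E.R ι a n := by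
  rw [J_eq_adj, ContinuousLinearMap.adjoint_adjoint]

theorem inner_J_left (a : ℤ) (n : ℕ) (y : L2 ((ι × Fin n) × N)) (x : L2 (ι × Γ)) :
    ⟪E.J ι a n y, x⟫_ℂ = ⟪y, E.R ι a n x⟫_ℂ := by
  rw [J_eq_adj, ContinuousLinearMap.adjoint_inner_left]

theorem J_lt (a : ℤ) (n : ℕ) (g : N) (y : L2 ((ι × Fin n) × N)) :
    E.J ι a n (lt (ι × Fin n) g y) = lt ι (E.inc g) (E.J ι a n y) := by
  refine ext_inner_right ℂ fun x => ?_
  rw [inner_J_left, inner_lt_left, ← E.R_lt, ← inner_J_left, inner_lt_left, map_inv]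

theorem norm_J (a : ℤ) (n : ℕ) (y : L2 ((ι × Fin n) × N)) : ‖E.J ι a n y‖ = ‖y‖ := by
  have h1 : ⟪E.J ι a n y, E.J ι a n y⟫_ℂ = ⟪y, y⟫_ℂ := by
    rw [inner_J_left, RJ]
  rw [inner_self_eq_norm_sq_to_K, inner_self_eq_norm_sq_to_K] at h1
  have h2 : ‖E.J ι a n y‖ ^ 2 = ‖y‖ ^ 2 := by exact_mod_cast h1
  exact (sq_eq_sq₀ (norm_nonneg _) (norm_nonneg _)).1 h2

theorem J_de (a : ℤ) (n : ℕ) (i : ι) (j : Fin n) (h : N) :
    E.J ι a n (de ((i, j), h)) = de (i, E.inc h * E.t ^ (a + (j : ℤ))) := by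
  unfold J
  rw [KP.push_dl]
  rfl

end Ext

variable [Fintype ι] [Fintype κ]

theorem norm_lt (g : Γ) (x : L2 (ι × Γ)) : ‖lt ι g x‖ = ‖x‖ := by
  have h1 := inner_lt_lt g x x
  rw [inner_self_eq_norm_sq_to_K, inner_self_eq_norm_sq_to_K] at h1
  have h2 : ‖lt ι g x‖ ^ 2 = ‖x‖ ^ 2 := by exact_mod_cast h1
  exact (sq_eq_sq₀ (norm_nonneg _) (norm_nonneg _)).1 h2

theorem norm_proj_de {K : Submodule ℂ (L2 (ι × Γ))} [K.HasOrthogonalProjection] (hK : LInv K)
    (i : ι) (g : Γ) : ‖K.starProjection (de (i, g))‖ = ‖K.starProjection (de (i, (1 : Γ)))‖ := by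
  rw [de_eq_lt i g, equi_lt (equi_proj hK), norm_lt]

/-- window spaces inside a closed invariant subspace are small -/
theorem vdim_win_le (E : Ext N Γ) {K : Submodule ℂ (L2 (ι × Γ))}
    (hK : IsClosed (K : Set (L2 (ι × Γ)))) (hKi : LInv K) (a : ℤ) (n : ℕ)
    {K' : Submodule ℂ (L2 ((ι × Fin n) × N))} (hK' : IsClosed (K' : Set (L2 ((ι × Fin n) × N))))
    (h : ∀ y ∈ K', E.J ι a n y ∈ K) : vdim K' ≤ n * vdim K := by
  have iK := hasProj hK
  have iK' := hasProj hK'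
  rw [vdim_eq, vdim_eq, Fintype.sum_prod_type, Finset.mul_sum]
  refine Finset.sum_le_sum fun i _ => ?_
  have h1 : ∀ j : Fin n, ‖K'.starProjection (de ((i, j), (1 : N)))‖ ^ 2 ≤
      ‖K.starProjection (de (i, (1 : Γ)))‖ ^ 2 := by
    intro j
    rw [← norm_proj_de hKi i (E.inc 1 * E.t ^ (a + (j : ℤ))), ← E.J_de]
    set e : L2 ((ι × Fin n) × N) := de ((i, j), (1 : N))
    set y := K'.starProjection e with hy
    have hyK : y ∈ K' := Submodule.starProjection_apply_mem _ _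
    have h2 : ⟪y, e⟫_ℂ = ⟪y, y⟫_ℂ := by
      calc ⟪y, e⟫_ℂ = ⟪K'.starProjection y, e⟫_ℂ := by
            rw [Submodule.starProjection_eq_self_iff.2 hyK]
        _ = ⟪y, y⟫_ℂ := Submodule.inner_starProjection_left_eq_right _ _ _
    have h3 : ⟪y, e⟫_ℂ = ⟪E.J ι a n y, K.starProjection (E.J ι a n e)⟫_ℂ := by
      rw [← Submodule.inner_starProjection_left_eq_right,
        Submodule.starProjection_eq_self_iff.2 (h y hyK), Ext.inner_J_left, E.RJ]
    have h4 : ‖y‖ ^ 2 ≤ ‖y‖ * ‖K.starProjection (E.J ι a n e)‖ := by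
      have h5 : (‖y‖ ^ 2 : ℝ) = ‖⟪y, y⟫_ℂ‖ := by
        rw [inner_self_eq_norm_sq_to_K]
        simp
      rw [h5, ← h2, h3]
      refine (norm_inner_le_norm _ _).trans ?_
      rw [E.norm_J]
    have h6 : ‖y‖ ≤ ‖K.starProjection (E.J ι a n e)‖ := by
      rcases eq_or_lt_of_le (norm_nonneg y) with h0 | h0
      · rw [← h0]
        exact norm_nonneg _
      · rw [sq] at h4
        exact le_of_mul_le_mul_left h4 h0
    exact pow_le_pow_left₀ (norm_nonneg _) h6 2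
  calc ∑ j : Fin n, ‖K'.starProjection (de ((i, j), (1 : N)))‖ ^ 2
      ≤ ∑ _j : Fin n, ‖K.starProjection (de (i, (1 : Γ)))‖ ^ 2 :=
        Finset.sum_le_sum fun j _ => h1 j
    _ = n * ‖K.starProjection (de (i, (1 : Γ)))‖ ^ 2 := by
        rw [Finset.sum_const, Finset.card_univ, Fintype.card_fin, nsmul_eq_mul]

/-- restrictions of a closed invariant subspace to windows are large -/
theorem le_vdim_win (E : Ext N Γ) {K : Submodule ℂ (L2 (ι × Γ))}
    (hK : IsClosed (K : Set (L2 (ι × Γ)))) (hKi : LInv K) (a : ℤ) (n : ℕ)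
    {K' : Submodule ℂ (L2 ((ι × Fin n) × N))} (hK' : IsClosed (K' : Set (L2 ((ι × Fin n) × N))))
    (h : ∀ x ∈ K, E.R ι a n x ∈ K') : n * vdim K ≤ vdim K' := by
  have iK := hasProj hK
  have iK' := hasProj hK'
  rw [vdim_eq, vdim_eq, Fintype.sum_prod_type, Finset.mul_sum]
  refine Finset.sum_le_sum fun i _ => ?_
  have h1 : ∀ j : Fin n, ‖K.starProjection (de (i, (1 : Γ)))‖ ^ 2 ≤
      ‖K'.starProjection (de ((i, j), (1 : N)))‖ ^ 2 := by
    intro j
    rw [← norm_proj_de hKi i (E.inc 1 * E.t ^ (a + (j : ℤ))), ← E.J_de]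
    set e : L2 ((ι × Fin n) × N) := de ((i, j), (1 : N))
    set y := K'.starProjection e with hy
    have h2 : K.starProjection (E.J ι a n (e - y)) = 0 := by
      set w := K.starProjection (E.J ι a n (e - y)) with hw
      have hwK : w ∈ K := Submodule.starProjection_apply_mem _ _
      have h3 : ⟪w, w⟫_ℂ = 0 := by
        have h4 : ⟪w, w⟫_ℂ = ⟪K.starProjection w, E.J ι a n (e - y)⟫_ℂ :=
          (Submodule.inner_starProjection_left_eq_right _ _ _).symm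
        rw [h4, Submodule.starProjection_eq_self_iff.2 hwK, ← inner_conj_symm, Ext.inner_J_left,
          Submodule.starProjection_inner_eq_zero e _ (h w hwK), map_zero]
      exact inner_self_eq_zero.1 h3
    have h5 : K.starProjection (E.J ι a n e) = K.starProjection (E.J ι a n y) := by
      rw [map_sub, map_sub, sub_eq_zero] at h2
      exact h2
    rw [h5]
    refine pow_le_pow_left₀ (norm_nonneg _) ?_ 2
    calc ‖K.starProjection (E.J ι a n y)‖ ≤ ‖E.J ι a n y‖ :=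
          Submodule.norm_starProjection_apply_le _ _
      _ = ‖y‖ := E.norm_J _ _ _
  calc (n : ℝ) * ‖K.starProjection (de (i, (1 : Γ)))‖ ^ 2
      = ∑ _j : Fin n, ‖K.starProjection (de (i, (1 : Γ)))‖ ^ 2 := by
        rw [Finset.sum_const, Finset.card_univ, Fintype.card_fin, nsmul_eq_mul]
    _ ≤ ∑ j : Fin n, ‖K'.starProjection (de ((i, j), (1 : N)))‖ ^ 2 :=
        Finset.sum_le_sum fun j _ => h1 j

end Pool.Agent.Zk85.AW
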