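import Pool.Agent.Zk85.AW1

/-!
Band operators over an extension of `ℤ`: window operators, two-sided bounds for the dimension of
their kernels.
-/

set_option autoImplicit false
set_option linter.unusedSectionVars false

open scoped InnerProductSpace ENNReal
open Filter Topology

namespace Pool.Agent.Zk85.AW

open Pool.Agent.H80R2
open Pool.Agent.H80R2.BC (L2 GMat vdim IsTr LInv Equi act kerA dk pt vals TorDiv Coef AtR)
open Pool.Agent.H812R3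
open Pool.Agent.W656.VA

variable {ι κ N Γ : Type} [Group N] [Group Γ] [Fintype ι] [Fintype κ]

/-- `S x` at the slice `s` depends only on `x` at the slices `s + a, …, s + a + d` -/
def Band (E : Ext N Γ) (S : L2 (ι × Γ) →L[ℂ] L2 (κ × Γ)) (a : ℤ) (d : ℕ) : Prop :=
  ∀ (x : L2 (ι × Γ)) (k : κ) (g : Γ),
    (∀ i g', E.dg g + a ≤ E.dg g' → E.dg g' ≤ E.dg g + a + d → x (i, g') = 0) → S x (k, g) = 0

/-- the window operator -/
noncomputable def Tn (E : Ext N Γ) (S : L2 (ι × Γ) →L[ℂ] L2 (κ × Γ)) (a : ℤ) (n : ℕ) (a' : ℤ)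
    (n' : ℕ) : L2 ((ι × Fin n) × N) →L[ℂ] L2 ((κ × Fin n') × N) :=
  (E.R κ a' n').comp (S.comp (E.J ι a n))

theorem Tn_apply (E : Ext N Γ) (S : L2 (ι × Γ) →L[ℂ] L2 (κ × Γ)) (a : ℤ) (n : ℕ) (a' : ℤ)
    (n' : ℕ) (y : L2 ((ι × Fin n) × N)) : Tn E S a n a' n' y = E.R κ a' n' (S (E.J ι a n y)) := rfl

theorem equi_Tn (E : Ext N Γ) {S : L2 (ι × Γ) →L[ℂ] L2 (κ × Γ)} (hS : Equi S) (a : ℤ) (n : ℕ)
    (a' : ℤ) (n' : ℕ) : Equi (Tn E S a n a' n') := by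
  apply equi_of
  intro g x
  rw [Tn_apply, Tn_apply, E.J_lt, equi_lt hS, E.R_lt]

theorem equi_adj' {S : L2 (ι × Γ) →L[ℂ] L2 (κ × Γ)} (hS : Equi S) :
    Equi (ContinuousLinearMap.adjoint S) := equi_adj hS

theorem band_win (E : Ext N Γ) {S : L2 (ι × Γ) →L[ℂ] L2 (κ × Γ)} {a : ℤ} {d : ℕ}
    (hB : Band E S a d) (n' : ℕ) (x : L2 (ι × Γ)) :
    E.R κ (-a) n' (S x) = Tn E S 0 (n' + d) (-a) n' (E.R ι 0 (n' + d) x) := by
  rw [Tn_apply, ← sub_eq_zero, ← map_sub, ← map_sub]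
  ext ⟨⟨k, j⟩, h⟩
  rw [E.R_apply]
  show _ = (0 : ℂ)
  apply hB
  intro i g' h1 h2
  rw [E.dg_rep] at h1 h2
  have hj := j.2
  rw [lp.coeFn_sub, Pi.sub_apply, E.JR_apply, sub_self]
  constructor
  · omega
  · push_cast
    omega

/-- the lower bound -/
theorem le_vdim_Tn (E : Ext N Γ) {S : L2 (ι × Γ) →L[ℂ] L2 (κ × Γ)} (hS : Equi S) {a : ℤ} {d : ℕ}
    (hB : Band E S a d) (n' : ℕ) :
    ((n' + d : ℕ) : ℝ) * vdim (kr S) ≤ vdim (kr (Tn E S 0 (n' + d) (-a) n')) := by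
  refine le_vdim_win E (isClosed_kr S) (linv_kr hS) 0 (n' + d) (isClosed_kr _) ?_
  intro x hx
  rw [mem_kr] at hx ⊢
  rw [← band_win E hB, hx, map_zero]

theorem adj_Tn (E : Ext N Γ) (S : L2 (ι × Γ) →L[ℂ] L2 (κ × Γ)) (a : ℤ) (n : ℕ) (a' : ℤ)
    (n' : ℕ) : ContinuousLinearMap.adjoint (Tn E S a n a' n') =
      (E.R ι a n).comp ((ContinuousLinearMap.adjoint S).comp (E.J κ a' n')) := by
  unfold Tn
  rw [ContinuousLinearMap.adjoint_comp, ContinuousLinearMap.adjoint_comp, E.R_eq_adj,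
    ← E.J_eq_adj]
  rfl

/-- finitely supported kernel vectors of the adjoint -/
theorem adj_win (E : Ext N Γ) {S : L2 (ι × Γ) →L[ℂ] L2 (κ × Γ)} {a : ℤ} {d : ℕ}
    (hB : Band E S a d) (n' : ℕ) (z : L2 ((κ × Fin n') × N)) :
    ContinuousLinearMap.adjoint S (E.J κ (-a) n' z) =
      E.J ι 0 (n' + d) (ContinuousLinearMap.adjoint (Tn E S 0 (n' + d) (-a) n') z) := by
  refine ext_inner_right ℂ fun x => ?_
  rw [ContinuousLinearMap.adjoint_inner_left, Ext.inner_J_left, band_win E hB, Ext.inner_J_left,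
    ContinuousLinearMap.adjoint_inner_left]

theorem mem_kr_adj (E : Ext N Γ) {S : L2 (ι × Γ) →L[ℂ] L2 (κ × Γ)} {a : ℤ} {d : ℕ}
    (hB : Band E S a d) (n' : ℕ) (z : L2 ((κ × Fin n') × N)) :
    z ∈ kr (ContinuousLinearMap.adjoint (Tn E S 0 (n' + d) (-a) n')) ↔
      E.J κ (-a) n' z ∈ kr (ContinuousLinearMap.adjoint S) := by
  rw [mem_kr, mem_kr, adj_win E hB]
  constructor
  · intro h
    rw [h, map_zero]
  · intro h
    rw [← E.RJ 0 (n' + d) (ContinuousLinearMap.adjoint (Tn E S 0 (n' + d) (-a) n') z), h, map_zero]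

theorem vdim_adj_le (E : Ext N Γ) {S : L2 (ι × Γ) →L[ℂ] L2 (κ × Γ)} (hS : Equi S) {a : ℤ}
    {d : ℕ} (hB : Band E S a d) (n' : ℕ) :
    vdim (kr (ContinuousLinearMap.adjoint (Tn E S 0 (n' + d) (-a) n'))) ≤
      n' * vdim (kr (ContinuousLinearMap.adjoint S)) := by
  refine vdim_win_le E (isClosed_kr _) (linv_kr (equi_adj' hS)) (-a) n' (isClosed_kr _) ?_
  intro z hz
  exact (mem_kr_adj E hB n' z).1 hz

theorem vdim_Tn_eq (E : Ext N Γ) {S : L2 (ι × Γ) →L[ℂ] L2 (κ × Γ)} (hS : Equi S) (a : ℤ)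
    (d n' : ℕ) :
    vdim (kr (Tn E S 0 (n' + d) (-a) n')) =
      vdim (kr (ContinuousLinearMap.adjoint (Tn E S 0 (n' + d) (-a) n'))) +
        Fintype.card ι * (n' + d) - Fintype.card κ * n' := by
  have h := vdim_ker_adjoint (Tn E S 0 (n' + d) (-a) n') (equi_Tn E hS 0 (n' + d) (-a) n')
  rw [Fintype.card_prod, Fintype.card_prod, Fintype.card_fin, Fintype.card_fin] at h
  push_cast at h
  linarith

/-- the upper bound -/
theorem vdim_Tn_le (E : Ext N Γ) {S : L2 (ι × Γ) →L[ℂ] L2 (κ × Γ)} (hS : Equi S) {a : ℤ} {d : ℕ}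
    (hB : Band E S a d) (n' : ℕ) :
    vdim (kr (Tn E S 0 (n' + d) (-a) n')) ≤ n' * vdim (kr S) + Fintype.card ι * d := by
  rw [vdim_Tn_eq E hS]
  have h1 := vdim_adj_le E hS hB n'
  have h2 := vdim_ker_adjoint S hS
  nlinarith

end Pool.Agent.Zk85.AW
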