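import Pool.Agent.Zk85.AW2

/-!
Direct products with `ℤ`: specialisation of matrices over `ℂ[N × ℤ]` at complex numbers.
-/

set_option autoImplicit false
set_option linter.unusedSectionVars false

open scoped InnerProductSpace ENNReal
open Filter Topology

namespace Pool.Agent.Zk85.AW

open Pool.Agent.H80R2
open Pool.Agent.H80R2.BC (L2 GMat vdim IsTr LInv Equi act kerA dk pt vals TorDiv Coef AtR)
open Pool.Agent.H812R3
open Pool.Agent.W656.VA

variable {ι κ N : Type} [Group N] [Fintype ι] [Fintype κ]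

/-- the product with `ℤ` -/
def prodExt (N : Type) [Group N] : Ext N (N × Multiplicative ℤ) where
  inc := MonoidHom.inl N (Multiplicative ℤ)
  deg := MonoidHom.snd N (Multiplicative ℤ)
  t := (1, Multiplicative.ofAdd 1)
  inj := fun a b h => by simpa using h
  degt := rfl
  ex := by
    rintro ⟨a, b⟩ h
    refine ⟨a, ?_⟩
    simp only [MonoidHom.coe_snd] at h
    subst h
    rfl
  deg_inc := fun h => rfl
  σ := MulEquiv.refl N
  hσ := fun h => by simp

theorem prod_dg (g : N × Multiplicative ℤ) : (prodExt N).dg g = Multiplicative.toAdd g.2 := rfl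

theorem prod_rep (h : N) (m : ℤ) :
    (prodExt N).inc h * (prodExt N).t ^ m = (h, Multiplicative.ofAdd m) := by
  show ((h, 1) : N × Multiplicative ℤ) * (1, Multiplicative.ofAdd 1) ^ m = _
  rw [Prod.pow_mk, Prod.mk_mul_mk, one_zpow, mul_one, one_mul, ← ofAdd_zsmul, smul_eq_mul, mul_one]

theorem mul_of (h g1 : N) (m e : ℤ) (g2 : Multiplicative ℤ) (he : m + Multiplicative.toAdd g2 = e) :
    ((h, Multiplicative.ofAdd m) : N × Multiplicative ℤ) * (g1, g2) =
      (h * g1, Multiplicative.ofAdd e) := by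
  subst he
  rw [Prod.mk_mul_mk, ofAdd_add, ofAdd_toAdd]

/-- the degrees of the entries lie in `[a, a + d]` -/
def DegIn (A : GMat κ ι (N × Multiplicative ℤ)) (a : ℤ) (d : ℕ) : Prop :=
  ∀ k i g, A k i g ≠ 0 → a ≤ Multiplicative.toAdd g.2 ∧ Multiplicative.toAdd g.2 ≤ a + d

theorem band_op {A : GMat κ ι (N × Multiplicative ℤ)} {a : ℤ} {d : ℕ} (hA : DegIn A a d) :
    Band (prodExt N) (op A) a d := by
  intro x k g hx
  rw [op_apply]
  unfold act
  refine Finset.sum_eq_zero fun i _ => ?_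
  unfold Finsupp.sum
  refine Finset.sum_eq_zero fun h hh => ?_
  have h1 := hA k i h (Finsupp.mem_support_iff.1 hh)
  have h2 : x (i, g * h) = 0 := by
    apply hx
    · rw [Ext.dg_mul, prod_dg h]
      linarith [h1.1]
    · rw [Ext.dg_mul, prod_dg h]
      linarith [h1.2]
  show A k i h * x (i, g * h) = 0
  rw [h2, mul_zero]

/-- the specialisation -/
noncomputable def spec (A : GMat κ ι (N × Multiplicative ℤ)) (ζ : ℂ) : GMat κ ι N :=
  fun k i => (A k i).sum fun g c => Finsupp.single g.1 (c * ζ ^ (Multiplicative.toAdd g.2))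

theorem act_spec (A : GMat κ ι (N × Multiplicative ℤ)) (ζ : ℂ) (v : ι × N → ℂ) (k : κ) (h : N) :
    act (spec A ζ) v k h = ∑ i, (A k i).sum fun g c =>
      c * ζ ^ (Multiplicative.toAdd g.2) * v (i, h * g.1) := by
  unfold act spec
  refine Finset.sum_congr rfl fun i _ => ?_
  rw [Finsupp.sum_sum_index]
  · refine Finsupp.sum_congr fun g _ => ?_
    rw [Finsupp.sum_single_index]
    rw [zero_mul]
  · intro g
    rw [zero_mul]
  · intro g b c
    ring

/-- exponential sequences -/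
noncomputable def X (ι N : Type) [Group N] (n : ℕ) (ζ : ℂ) :
    L2 (ι × N) →L[ℂ] L2 ((ι × Fin n) × N) :=
  ∑ j : Fin n, (ζ ^ (j : ℕ)) • KP.push (fun p : ι × N => ((p.1, j), p.2)) (by
    rintro ⟨a, b⟩ ⟨c, e⟩ h
    simpa using h)

theorem X_apply (n : ℕ) (ζ : ℂ) (v : L2 (ι × N)) (i : ι) (j : Fin n) (h : N) :
    X ι N n ζ v ((i, j), h) = ζ ^ (j : ℕ) * v (i, h) := by
  have hinj : ∀ j : Fin n, Function.Injective (fun p : ι × N => ((p.1, j), p.2)) := by
    rintro j ⟨a, b⟩ ⟨c, e⟩ h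
    simpa using h
  have h1 : X ι N n ζ v ((i, j), h) = ∑ j' : Fin n, ζ ^ (j' : ℕ) *
      (KP.push (fun p : ι × N => ((p.1, j'), p.2)) (hinj j') v) ((i, j), h) := by
    unfold X
    rw [sum_apply, lp.coeFn_sum, Finset.sum_apply]
    rfl
  rw [h1, Finset.sum_eq_single j]
  · have := pushL_apply (fun p : ι × N => ((p.1, j), p.2)) (hinj j) v (i, h)
    simp only at this
    rw [this]
  · intro j' _ hj
    rw [pushL_apply_ne, mul_zero]
    rintro ⟨a, b⟩ e
    simp only [Prod.mk.injEq] at e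
    exact hj e.1.2
  · intro hh
    exact absurd (Finset.mem_univ _) hh

theorem equi_X (n : ℕ) (ζ : ℂ) : Equi (X ι N n ζ) := by
  apply equi_of
  intro g x
  ext ⟨⟨i, j⟩, h⟩
  rw [X_apply, lt_apply, lt_apply, X_apply]

/-- drop the first slice -/
noncomputable def sh (ι N : Type) [Group N] {n m : ℕ} (hm : m = n + 1) :
    L2 ((ι × Fin m) × N) →L[ℂ] L2 ((ι × Fin n) × N) :=
  KP.pull (fun p => ((p.1.1, Fin.cast hm.symm p.1.2.succ), p.2)) (by
    rintro ⟨⟨a, b⟩, c⟩ ⟨⟨a', b'⟩, c'⟩ h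
    simpa using h)

/-- drop the last slice -/
noncomputable def ini (ι N : Type) [Group N] {n m : ℕ} (hm : m = n + 1) :
    L2 ((ι × Fin m) × N) →L[ℂ] L2 ((ι × Fin n) × N) :=
  KP.pull (fun p => ((p.1.1, Fin.cast hm.symm p.1.2.castSucc), p.2)) (by
    rintro ⟨⟨a, b⟩, c⟩ ⟨⟨a', b'⟩, c'⟩ h
    simpa using h)

/-- `y ↦ (y_{j+1} - ζ y_j)_j` -/
noncomputable def D (ι N : Type) [Group N] {n m : ℕ} (hm : m = n + 1) (ζ : ℂ) :
    L2 ((ι × Fin m) × N) →L[ℂ] L2 ((ι × Fin n) × N) := sh ι N hm - ζ • ini ι N hm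

theorem D_apply {n m : ℕ} (hm : m = n + 1) (ζ : ℂ) (y : L2 ((ι × Fin m) × N)) (i : ι) (j : Fin n)
    (h : N) : D ι N hm ζ y ((i, j), h) = y ((i, Fin.cast hm.symm j.succ), h) -
      ζ * y ((i, Fin.cast hm.symm j.castSucc), h) := rfl

theorem equi_D {n m : ℕ} (hm : m = n + 1) (ζ : ℂ) : Equi (D ι N hm ζ) := by
  apply equi_of
  intro g x
  ext ⟨⟨i, j⟩, h⟩
  rw [D_apply, lt_apply, lt_apply, lt_apply, D_apply]

theorem D_X {n m : ℕ} (hm : m = n + 1) (ζ ξ : ℂ) (v : L2 (ι × N)) :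
    D ι N hm ζ (X ι N m ξ v) = (ξ - ζ) • X ι N n ξ v := by
  ext ⟨⟨i, j⟩, h⟩
  rw [D_apply, X_apply, X_apply]
  show _ = (ξ - ζ) * X ι N n ξ v ((i, j), h)
  rw [X_apply, Fin.val_cast, Fin.val_cast, Fin.val_succ, Fin.val_castSucc]
  ring

/-- the slice at `0` -/
noncomputable def s0 (ι N : Type) [Group N] {m : ℕ} (hm : 0 < m) :
    L2 ((ι × Fin m) × N) →L[ℂ] L2 (ι × N) :=
  KP.pull (fun p => ((p.1, ⟨0, hm⟩), p.2)) (by
    rintro ⟨a, b⟩ ⟨a', b'⟩ h
    simpa using h)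

theorem s0_apply {m : ℕ} (hm : 0 < m) (y : L2 ((ι × Fin m) × N)) (i : ι) (h : N) :
    s0 ι N hm y (i, h) = y ((i, ⟨0, hm⟩), h) := rfl

theorem equi_s0 {m : ℕ} (hm : 0 < m) : Equi (s0 ι N hm) := by
  apply equi_of
  intro g x
  ext ⟨i, h⟩
  rw [s0_apply, lt_apply, lt_apply, s0_apply]

/-- the kernel of `D` consists of the exponential sequences -/
theorem eq_X {n m : ℕ} (hm : m = n + 1) {ζ : ℂ} {y : L2 ((ι × Fin m) × N)}
    (hy : D ι N hm ζ y = 0) : y = X ι N m ζ (s0 ι N (by omega) y) := by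
  have key : ∀ (c : ℕ) (hc : c < m) (i : ι) (h : N),
      y ((i, ⟨c, hc⟩), h) = ζ ^ c * y ((i, ⟨0, by omega⟩), h) := by
    intro c
    induction c with
    | zero =>
      intro hc i h
      rw [pow_zero, one_mul]
    | succ c ih =>
      intro hc i h
      have h1 : D ι N hm ζ y ((i, ⟨c, by omega⟩), h) = 0 := by
        rw [hy]
        rfl
      rw [D_apply] at h1
      have h2 := ih (by omega) i h
      have h3 : Fin.cast hm.symm (Fin.succ (⟨c, by omega⟩ : Fin n)) = ⟨c + 1, hc⟩ := rfl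
      have h4 : Fin.cast hm.symm (Fin.castSucc (⟨c, by omega⟩ : Fin n)) = ⟨c, by omega⟩ := rfl
      rw [h3, h4, h2, sub_eq_zero] at h1
      rw [h1, pow_succ]
      ring
  ext ⟨⟨i, j⟩, h⟩
  rw [X_apply, s0_apply]
  exact key j j.2 i h

/-- the window space of a matrix -/
noncomputable def W (A : GMat κ ι (N × Multiplicative ℤ)) (a : ℤ) (d n' : ℕ) :
    Submodule ℂ (L2 ((ι × Fin (n' + d)) × N)) :=
  kr (Tn (prodExt N) (op A) 0 (n' + d) (-a) n')

theorem mem_W (A : GMat κ ι (N × Multiplicative ℤ)) (a : ℤ) (d n' : ℕ)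
    (y : L2 ((ι × Fin (n' + d)) × N)) :
    y ∈ W A a d n' ↔ ∀ (k : κ) (j : Fin n') (h : N),
      act A ((prodExt N).J ι 0 (n' + d) y) k (h, Multiplicative.ofAdd (-a + (j : ℤ))) = 0 := by
  unfold W
  rw [mem_kr, Tn_apply]
  constructor
  · intro hy k j h
    have h1 : (prodExt N).R κ (-a) n' (op A ((prodExt N).J ι 0 (n' + d) y)) ((k, j), h) = 0 := by
      rw [hy]
      rfl
    rw [Ext.R_apply, prod_rep, op_apply] at h1
    exact h1
  · intro hy
    ext ⟨⟨k, j⟩, h⟩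
    rw [Ext.R_apply, prod_rep, op_apply]
    exact hy k j h

theorem J_val (n : ℕ) (y : L2 ((ι × Fin n) × N)) (i : ι) (j : Fin n) (h : N) :
    (prodExt N).J ι 0 n y (i, (h, Multiplicative.ofAdd (j : ℤ))) = y ((i, j), h) := by
  have := (prodExt N).J_apply 0 n y i j h
  rw [prod_rep, zero_add] at this
  exact this

/-- the matrix on exponential sequences -/
theorem act_X {A : GMat κ ι (N × Multiplicative ℤ)} {a : ℤ} {d : ℕ} (hA : DegIn A a d) {ζ : ℂ}
    (hζ : ζ ≠ 0) (n' : ℕ) (v : L2 (ι × N)) (k : κ) (j : Fin n') (h : N) :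
    act A ((prodExt N).J ι 0 (n' + d) (X ι N (n' + d) ζ v)) k
      (h, Multiplicative.ofAdd (-a + (j : ℤ))) = ζ ^ (-a + (j : ℤ)) * act (spec A ζ) v k h := by
  rw [act_spec]
  unfold act
  rw [Finset.mul_sum]
  refine Finset.sum_congr rfl fun i _ => ?_
  unfold Finsupp.sum
  rw [Finset.mul_sum]
  refine Finset.sum_congr rfl fun g hg => ?_
  have h3 := hA k i g (Finsupp.mem_support_iff.1 hg)
  obtain ⟨g1, g2⟩ := g
  have hj := j.2
  have h4 : ((h, Multiplicative.ofAdd (-a + (j : ℤ))) : N × Multiplicative ℤ) * (g1, g2) =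
      (h * g1, Multiplicative.ofAdd (((⟨(-a + j + Multiplicative.toAdd g2).toNat, by
        simp only at h3
        omega⟩ : Fin (n' + d)) : ℕ) : ℤ)) := by
    apply mul_of
    simp only at h3 ⊢
    omega
  beta_reduce
  rw [h4, J_val, X_apply]
  simp only
  have h5 : ζ ^ (-a + (j : ℤ) + Multiplicative.toAdd g2).toNat =
      ζ ^ (-a + (j : ℤ)) * ζ ^ (Multiplicative.toAdd g2) := by
    rw [← zpow_natCast, Int.toNat_of_nonneg (by simp only at h3; omega), zpow_add₀ hζ]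
  rw [h5]
  ring

/-- exponentials over the kernel of the specialisation -/
theorem X_mem_W {A : GMat κ ι (N × Multiplicative ℤ)} {a : ℤ} {d : ℕ} (hA : DegIn A a d) {ζ : ℂ}
    (hζ : ζ ≠ 0) (n' : ℕ) {v : L2 (ι × N)} (hv : v ∈ kerA (spec A ζ)) :
    X ι N (n' + d) ζ v ∈ W A a d n' := by
  rw [mem_W]
  intro k j h
  rw [act_X hA hζ, hv k h, mul_zero]

theorem mem_of_X_mem_W {A : GMat κ ι (N × Multiplicative ℤ)} {a : ℤ} {d : ℕ} (hA : DegIn A a d)
    {ζ : ℂ} (hζ : ζ ≠ 0) {n' : ℕ} (hn : 0 < n') {v : L2 (ι × N)}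
    (hv : X ι N (n' + d) ζ v ∈ W A a d n') : v ∈ kerA (spec A ζ) := by
  rw [mem_W] at hv
  intro k h
  have h1 := hv k ⟨0, hn⟩ h
  rw [act_X hA hζ] at h1
  exact (mul_eq_zero.1 h1).resolve_left (zpow_ne_zero _ hζ)

/-- the shift maps window spaces to window spaces -/
theorem shift_mem_W {A : GMat κ ι (N × Multiplicative ℤ)} {a : ℤ} {d : ℕ} (hA : DegIn A a d)
    (n' : ℕ) {y : L2 ((ι × Fin (n' + 1 + d)) × N)} (hy : y ∈ W A a d (n' + 1))
    {z : L2 ((ι × Fin (n' + d)) × N)}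
    (hz : ∀ i (j : Fin (n' + d)) (j' : Fin (n' + 1 + d)) h, (j' : ℕ) = j + 1 →
      z ((i, j), h) = y ((i, j'), h)) : z ∈ W A a d n' := by
  rw [mem_W] at hy ⊢
  intro k j h
  have hj := j.2
  have h1 := hy k ⟨j + 1, by omega⟩ h
  rw [← h1]
  unfold act
  refine Finset.sum_congr rfl fun i _ => ?_
  unfold Finsupp.sum
  refine Finset.sum_congr rfl fun g hg => ?_
  have h3 := hA k i g (Finsupp.mem_support_iff.1 hg)
  obtain ⟨g1, g2⟩ := g
  simp only at h3
  have h4 : ((h, Multiplicative.ofAdd (-a + (j : ℤ))) : N × Multiplicative ℤ) * (g1, g2) =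
      (h * g1, Multiplicative.ofAdd (((⟨(-a + j + Multiplicative.toAdd g2).toNat, by
        omega⟩ : Fin (n' + d)) : ℕ) : ℤ)) := by
    apply mul_of
    simp only
    omega
  have h5 : ((h, Multiplicative.ofAdd (-a + (((⟨j + 1, by omega⟩ : Fin (n' + 1)) : ℕ) : ℤ))) :
      N × Multiplicative ℤ) * (g1, g2) =
      (h * g1, Multiplicative.ofAdd (((⟨(-a + j + Multiplicative.toAdd g2).toNat + 1, by
        omega⟩ : Fin (n' + 1 + d)) : ℕ) : ℤ)) := by
    apply mul_of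
    simp only
    push_cast
    omega
  have h6 : (prodExt N).J ι 0 (n' + d) z
      (i, ((h, Multiplicative.ofAdd (-a + (j : ℤ))) : N × Multiplicative ℤ) * (g1, g2)) =
      (prodExt N).J ι 0 (n' + 1 + d) y
      (i, ((h, Multiplicative.ofAdd (-a + (((⟨j + 1, by omega⟩ : Fin (n' + 1)) : ℕ) : ℤ))) :
      N × Multiplicative ℤ) * (g1, g2)) := by
    refine (congrArg (fun q => (prodExt N).J ι 0 (n' + d) z (i, q)) h4).trans ?_
    refine Eq.trans ?_ (congrArg (fun q => (prodExt N).J ι 0 (n' + 1 + d) y (i, q)) h5).symm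
    refine (J_val _ z i _ (h * g1)).trans (Eq.trans ?_ (J_val _ y i _ (h * g1)).symm)
    exact hz i _ _ (h * g1) rfl
  show A k i (g1, g2) * _ = A k i (g1, g2) * _
  rw [h6]

/-- restriction to the first slices maps window spaces to window spaces -/
theorem init_mem_W {A : GMat κ ι (N × Multiplicative ℤ)} {a : ℤ} {d : ℕ} (hA : DegIn A a d)
    (n' : ℕ) {y : L2 ((ι × Fin (n' + 1 + d)) × N)} (hy : y ∈ W A a d (n' + 1))
    {z : L2 ((ι × Fin (n' + d)) × N)}
    (hz : ∀ i (j : Fin (n' + d)) (j' : Fin (n' + 1 + d)) h, (j' : ℕ) = j →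
      z ((i, j), h) = y ((i, j'), h)) : z ∈ W A a d n' := by
  rw [mem_W] at hy ⊢
  intro k j h
  have hj := j.2
  have h1 := hy k ⟨j, by omega⟩ h
  rw [← h1]
  unfold act
  refine Finset.sum_congr rfl fun i _ => ?_
  unfold Finsupp.sum
  refine Finset.sum_congr rfl fun g hg => ?_
  have h3 := hA k i g (Finsupp.mem_support_iff.1 hg)
  obtain ⟨g1, g2⟩ := g
  simp only at h3
  have h4 : ((h, Multiplicative.ofAdd (-a + (j : ℤ))) : N × Multiplicative ℤ) * (g1, g2) =
      (h * g1, Multiplicative.ofAdd (((⟨(-a + j + Multiplicative.toAdd g2).toNat, by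
        omega⟩ : Fin (n' + d)) : ℕ) : ℤ)) := by
    apply mul_of
    simp only
    omega
  have h5 : ((h, Multiplicative.ofAdd (-a + (((⟨j, by omega⟩ : Fin (n' + 1)) : ℕ) : ℤ))) :
      N × Multiplicative ℤ) * (g1, g2) =
      (h * g1, Multiplicative.ofAdd (((⟨(-a + j + Multiplicative.toAdd g2).toNat, by
        omega⟩ : Fin (n' + 1 + d)) : ℕ) : ℤ)) := by
    apply mul_of
    simp only
    omega
  have h6 : (prodExt N).J ι 0 (n' + d) z
      (i, ((h, Multiplicative.ofAdd (-a + (j : ℤ))) : N × Multiplicative ℤ) * (g1, g2)) =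
      (prodExt N).J ι 0 (n' + 1 + d) y
      (i, ((h, Multiplicative.ofAdd (-a + (((⟨j, by omega⟩ : Fin (n' + 1)) : ℕ) : ℤ))) :
      N × Multiplicative ℤ) * (g1, g2)) := by
    refine (congrArg (fun q => (prodExt N).J ι 0 (n' + d) z (i, q)) h4).trans ?_
    refine Eq.trans ?_ (congrArg (fun q => (prodExt N).J ι 0 (n' + 1 + d) y (i, q)) h5).symm
    refine (J_val _ z i _ (h * g1)).trans (Eq.trans ?_ (J_val _ y i _ (h * g1)).symm)
    exact hz i _ _ (h * g1) rfl
  show A k i (g1, g2) * _ = A k i (g1, g2) * _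
  rw [h6]

end Pool.Agent.Zk85.AW
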