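import Pool.Agent.Zk85.AW3

/-!
The specialisation theorem: kernel dimensions of the specialisations of a matrix over `ℂ[N × ℤ]`.
-/

set_option autoImplicit false
set_option linter.unusedSectionVars false

open scoped InnerProductSpace ENNReal
open Filter Topology

namespace Pool.Agent.Zk85.AW

open Pool.Agent.H80R2
open Pool.Agent.H80R2.BC (L2 GMat vdim IsTr LInv Equi act kerA dk pt vals TorDiv Coef AtR)
open Pool.Agent.H812R3
open Pool.Agent.W656.VA

variable {ι κ N : Type} [Group N] [Fintype ι] [Fintype κ]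

theorem isClosed_W (A : GMat κ ι (N × Multiplicative ℤ)) (a : ℤ) (d n' : ℕ) :
    IsClosed (W A a d n' : Set (L2 ((ι × Fin (n' + d)) × N))) := isClosed_kr _

theorem linv_W (A : GMat κ ι (N × Multiplicative ℤ)) (a : ℤ) (d n' : ℕ) : LInv (W A a d n') :=
  linv_kr (equi_Tn _ (equi_op A) _ _ _ _)

theorem kr_op (A : GMat κ ι (N × Multiplicative ℤ)) : kr (op A) = kerA A := (kerA_eq A).symm

theorem le_W {A : GMat κ ι (N × Multiplicative ℤ)} {a : ℤ} {d : ℕ} (hA : DegIn A a d) (n' : ℕ) :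
    ((n' + d : ℕ) : ℝ) * vdim (kerA A) ≤ vdim (W A a d n') := by
  rw [← kr_op]
  exact le_vdim_Tn (prodExt N) (equi_op A) (band_op hA) n'

theorem W_le {A : GMat κ ι (N × Multiplicative ℤ)} {a : ℤ} {d : ℕ} (hA : DegIn A a d) (n' : ℕ) :
    vdim (W A a d n') ≤ n' * vdim (kerA A) + Fintype.card ι * d := by
  rw [← kr_op]
  exact vdim_Tn_le (prodExt N) (equi_op A) (band_op hA) n'

theorem D_mem_W {A : GMat κ ι (N × Multiplicative ℤ)} {a : ℤ} {d : ℕ} (hA : DegIn A a d)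
    (n' : ℕ) (hm : n' + 1 + d = n' + d + 1) (ζ : ℂ) {y : L2 ((ι × Fin (n' + 1 + d)) × N)}
    (hy : y ∈ W A a d (n' + 1)) : D ι N hm ζ y ∈ W A a d n' := by
  have h1 : sh ι N hm y ∈ W A a d n' := by
    refine shift_mem_W hA n' hy ?_
    intro i j j' h hj
    show y ((i, Fin.cast hm.symm j.succ), h) = _
    have : Fin.cast hm.symm j.succ = j' := Fin.ext (by simp [hj])
    rw [this]
  have h2 : ini ι N hm y ∈ W A a d n' := by
    refine init_mem_W hA n' hy ?_
    intro i j j' h hj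
    show y ((i, Fin.cast hm.symm j.castSucc), h) = _
    have : Fin.cast hm.symm j.castSucc = j' := Fin.ext (by simp [hj])
    rw [this]
  exact (W A a d n').sub_mem h1 ((W A a d n').smul_mem ζ h2)

theorem W_step {A : GMat κ ι (N × Multiplicative ℤ)} {a : ℤ} {d : ℕ} (hA : DegIn A a d)
    (n' : ℕ) {ζ : ℂ} (hζ : ζ ≠ 0) :
    vdim (W A a d (n' + 1)) ≤ vdim (kerA (spec A ζ)) + vdim (W A a d n') := by
  have hm : n' + 1 + d = n' + d + 1 := by omega
  have h1 := vdim_rank_le (isClosed_W A a d (n' + 1)) (linv_W A a d (n' + 1)) (D ι N hm ζ)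
    (equi_D hm ζ) (isClosed_W A a d n') (fun y hy => D_mem_W hA n' hm ζ hy)
  have h2 : vdim (W A a d (n' + 1) ⊓ kr (D ι N hm ζ)) ≤ vdim (kerA (spec A ζ)) := by
    refine vdim_inj_le (isClosed_inf (isClosed_W _ _ _ _) (isClosed_kr _))
      (linv_inf (linv_W _ _ _ _) (linv_kr (equi_D hm ζ))) (s0 ι N (by omega)) (equi_s0 _)
      (isClosed_kerA _) ?_ ?_
    · rintro y ⟨hy1, hy2⟩
      rw [SetLike.mem_coe, mem_kr] at hy2
      have h3 := eq_X hm hy2
      rw [SetLike.mem_coe, h3] at hy1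
      exact mem_of_X_mem_W hA hζ (by omega) hy1
    · rintro y ⟨hy1, hy2⟩ h0
      rw [SetLike.mem_coe, mem_kr] at hy2
      have h3 := eq_X hm hy2
      rw [h3, h0, map_zero]
  linarith

theorem W_lin {A : GMat κ ι (N × Multiplicative ℤ)} {a : ℤ} {d : ℕ} (hA : DegIn A a d)
    (n' : ℕ) {ζ : ℂ} (hζ : ζ ≠ 0) :
    vdim (W A a d n') ≤ n' * vdim (kerA (spec A ζ)) + Fintype.card ι * d := by
  induction n' with
  | zero =>
    have := W_le hA 0
    simpa using this
  | succ n ih =>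
    have := W_step hA n hζ
    push_cast
    linarith

theorem lim_aux {x y c e : ℝ} (h : ∀ n : ℕ, ((n : ℝ) + c) * x ≤ n * y + e) : x ≤ y := by
  by_contra hcon
  push Not at hcon
  obtain ⟨n, hn⟩ := exists_nat_gt ((e - c * x) / (x - y))
  rw [div_lt_iff₀ (by linarith)] at hn
  have := h n
  nlinarith

/-- Specialisation does not decrease the kernel dimension. -/
theorem spec_ge {A : GMat κ ι (N × Multiplicative ℤ)} {a : ℤ} {d : ℕ} (hA : DegIn A a d)
    {ζ : ℂ} (hζ : ζ ≠ 0) : vdim (kerA A) ≤ vdim (kerA (spec A ζ)) := by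
  apply lim_aux (c := d) (e := Fintype.card ι * d)
  intro n
  have h1 := le_W hA n
  have h2 := W_lin hA n hζ
  push_cast at h1
  linarith

/-- the closed span of the exponentials -/
noncomputable def Es (A : GMat κ ι (N × Multiplicative ℤ)) (s : Finset ℂ) (n : ℕ) :
    Submodule ℂ (L2 ((ι × Fin n) × N)) :=
  (⨆ ζ ∈ s, (kerA (spec A ζ)).map
    (X ι N n ζ : L2 (ι × N) →ₗ[ℂ] L2 ((ι × Fin n) × N))).topologicalClosure

theorem isClosed_Es (A : GMat κ ι (N × Multiplicative ℤ)) (s : Finset ℂ) (n : ℕ) :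
    IsClosed (Es A s n : Set (L2 ((ι × Fin n) × N))) := Submodule.isClosed_topologicalClosure _

theorem X_mem_Es (A : GMat κ ι (N × Multiplicative ℤ)) {s : Finset ℂ} (n : ℕ) {ζ : ℂ}
    (hζ : ζ ∈ s) {v : L2 (ι × N)} (hv : v ∈ kerA (spec A ζ)) : X ι N n ζ v ∈ Es A s n := by
  apply Submodule.le_topologicalClosure
  refine Submodule.mem_iSup_of_mem ζ (Submodule.mem_iSup_of_mem hζ ?_)
  exact ⟨v, hv, rfl⟩

theorem Es_le (A : GMat κ ι (N × Multiplicative ℤ)) {s : Finset ℂ} {n : ℕ}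
    {K : Submodule ℂ (L2 ((ι × Fin n) × N))} (hK : IsClosed (K : Set (L2 ((ι × Fin n) × N))))
    (h : ∀ ζ ∈ s, ∀ v ∈ kerA (spec A ζ), X ι N n ζ v ∈ K) : Es A s n ≤ K := by
  apply Submodule.topologicalClosure_minimal _ _ hK
  refine iSup_le fun ζ => iSup_le fun hζ => ?_
  rintro _ ⟨v, hv, rfl⟩
  exact h ζ hζ v hv

theorem linv_Es (A : GMat κ ι (N × Multiplicative ℤ)) (s : Finset ℂ) (n : ℕ) :
    LInv (Es A s n) := by
  apply linv_of
  intro g x hx
  have h1 : Es A s n ≤ (Es A s n).comap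
      (lt (ι × Fin n) g : L2 ((ι × Fin n) × N) →ₗ[ℂ] L2 ((ι × Fin n) × N)) := by
    apply Es_le
    · exact (isClosed_Es A s n).preimage (lt (ι × Fin n) g).continuous
    · intro ζ hζ v hv
      show lt (ι × Fin n) g (X ι N n ζ v) ∈ Es A s n
      rw [← equi_lt (equi_X n ζ)]
      exact X_mem_Es A n hζ (linv_lt (linv_kerA _) _ hv)
  exact h1 hx

theorem sum_le_Es (A : GMat κ ι (N × Multiplicative ℤ)) (s : Finset ℂ) :
    ∀ n : ℕ, s.card ≤ n → ∑ ζ ∈ s, vdim (kerA (spec A ζ)) ≤ vdim (Es A s n) := by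
  classical
  induction s using Finset.induction_on with
  | empty =>
    intro n _
    rw [Finset.sum_empty]
    exact vdim_nonneg _
  | insert ζ0 s h0 ih =>
    intro m hm
    rw [Finset.card_insert_of_notMem h0] at hm
    obtain ⟨n, rfl⟩ : ∃ n, m = n + 1 := ⟨m - 1, by omega⟩
    have hmm : n + 1 = n + 1 := rfl
    rw [Finset.sum_insert h0]
    have h1 := vdim_rank (isClosed_Es A (insert ζ0 s) (n + 1)) (linv_Es A (insert ζ0 s) (n + 1))
      (D ι N hmm ζ0) (equi_D hmm ζ0)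
    have h2 : vdim (kerA (spec A ζ0)) ≤
        vdim (Es A (insert ζ0 s) (n + 1) ⊓ kr (D ι N hmm ζ0)) := by
      refine vdim_inj_le (isClosed_kerA _) (linv_kerA _) (X ι N (n + 1) ζ0) (equi_X _ _)
        (isClosed_inf (isClosed_Es _ _ _) (isClosed_kr _)) ?_ ?_
      · intro v hv
        refine ⟨X_mem_Es A _ (Finset.mem_insert_self _ _) hv, ?_⟩
        rw [SetLike.mem_coe, mem_kr, D_X, sub_self, zero_smul]
      · intro v _ hv
        ext ⟨i, h⟩
        have h3 : X ι N (n + 1) ζ0 v ((i, 0), h) = 0 := by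
          rw [hv]
          rfl
        rw [X_apply] at h3
        simpa using h3
    have h3 : vdim (Es A s n) ≤ vdim ((Es A (insert ζ0 s) (n + 1)).map
        (D ι N hmm ζ0 : L2 ((ι × Fin (n + 1)) × N) →ₗ[ℂ] L2 ((ι × Fin n) × N))).topologicalClosure
        := by
      apply vdim_mono
      apply Es_le _ (Submodule.isClosed_topologicalClosure _)
      intro ζ hζ v hv
      apply Submodule.le_topologicalClosure
      have hne : ζ - ζ0 ≠ 0 := by
        intro h
        rw [sub_eq_zero] at h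
        exact h0 (h ▸ hζ)
      refine ⟨(ζ - ζ0)⁻¹ • X ι N (n + 1) ζ v, Submodule.smul_mem _ _
        (X_mem_Es A _ (Finset.mem_insert_of_mem hζ) hv), ?_⟩
      show D ι N hmm ζ0 ((ζ - ζ0)⁻¹ • X ι N (n + 1) ζ v) = X ι N n ζ v
      rw [map_smul, D_X, smul_smul, inv_mul_cancel₀ hne, one_smul]
    have h4 := ih n (by omega)
    linarith

/-- The total excess of the specialisations is bounded. -/
theorem spec_sum {A : GMat κ ι (N × Multiplicative ℤ)} {a : ℤ} {d : ℕ} (hA : DegIn A a d)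
    (s : Finset ℂ) (hs : (0 : ℂ) ∉ s) :
    ∑ ζ ∈ s, (vdim (kerA (spec A ζ)) - vdim (kerA A)) ≤
      d * (Fintype.card ι - vdim (kerA A)) := by
  have hδ := vdim_le_card (kerA A)
  rw [Finset.sum_sub_distrib, Finset.sum_const, nsmul_eq_mul]
  by_cases hc : s.card ≤ d
  · have h1 : ∑ ζ ∈ s, vdim (kerA (spec A ζ)) ≤ s.card * Fintype.card ι := by
      rw [← nsmul_eq_mul, ← Finset.sum_const]
      exact Finset.sum_le_sum fun ζ _ => vdim_le_card _
    have h2 : (s.card : ℝ) ≤ d := by exact_mod_cast hc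
    nlinarith
  · push Not at hc
    obtain ⟨n', hn'⟩ : ∃ n', n' + d = s.card := ⟨s.card - d, by omega⟩
    have h1 := sum_le_Es A s (n' + d) (by omega)
    have h2 : vdim (Es A s (n' + d)) ≤ vdim (W A a d n') := by
      apply vdim_mono
      apply Es_le _ (isClosed_W _ _ _ _)
      intro ζ hζ v hv
      exact X_mem_W hA (fun h => hs (h ▸ hζ)) n' hv
    have h3 := W_le hA n'
    have h4 : (s.card : ℝ) = n' + d := by exact_mod_cast hn'.symm
    rw [h4]
    linarith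

/-- The exceptional set of a matrix is countable. -/
theorem spec_countable {A : GMat κ ι (N × Multiplicative ℤ)} {a : ℤ} {d : ℕ} (hA : DegIn A a d) :
    {ζ : ℂ | ζ ≠ 0 ∧ vdim (kerA (spec A ζ)) ≠ vdim (kerA A)}.Countable := by
  have hsub : {ζ : ℂ | ζ ≠ 0 ∧ vdim (kerA (spec A ζ)) ≠ vdim (kerA A)} ⊆
      ⋃ k : ℕ, {ζ : ℂ | ζ ≠ 0 ∧ 1 / ((k : ℝ) + 1) ≤ vdim (kerA (spec A ζ)) - vdim (kerA A)} := by
    rintro ζ ⟨h1, h2⟩
    have h3 := spec_ge hA h1
    have h4 : 0 < vdim (kerA (spec A ζ)) - vdim (kerA A) := by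
      rcases lt_or_eq_of_le h3 with h | h
      · linarith
      · exact absurd h.symm h2
    obtain ⟨k, hk⟩ := exists_nat_one_div_lt h4
    rw [Set.mem_iUnion]
    exact ⟨k, h1, hk.le⟩
  refine Set.Countable.mono hsub (Set.countable_iUnion fun k => ?_)
  apply Set.Finite.countable
  by_contra hinf
  have hinf' : Set.Infinite {ζ : ℂ | ζ ≠ 0 ∧
    1 / ((k : ℝ) + 1) ≤ vdim (kerA (spec A ζ)) - vdim (kerA A)} := hinf
  obtain ⟨M, hM⟩ := exists_nat_gt (((k : ℝ) + 1) * (d * (Fintype.card ι - vdim (kerA A))))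
  obtain ⟨s, hs1, hs2⟩ := hinf'.exists_subset_card_eq M
  have h1 := spec_sum hA s (fun h0 => (hs1 h0).1 rfl)
  have h2 : (M : ℝ) * (1 / ((k : ℝ) + 1)) ≤
      ∑ ζ ∈ s, (vdim (kerA (spec A ζ)) - vdim (kerA A)) := by
    rw [← hs2, ← nsmul_eq_mul, ← Finset.sum_const]
    exact Finset.sum_le_sum fun ζ hζ => (hs1 hζ).2
  have hk : (0 : ℝ) < (k : ℝ) + 1 := by positivity
  have h3 : (M : ℝ) * (1 / ((k : ℝ) + 1)) ≤ d * (Fintype.card ι - vdim (kerA A)) := h2.trans h1
  rw [mul_one_div, div_le_iff₀ hk] at h3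
  linarith

/-- Some specialisation has the same kernel dimension. -/
theorem exists_spec {A : GMat κ ι (N × Multiplicative ℤ)} {a : ℤ} {d : ℕ} (hA : DegIn A a d) :
    ∃ ζ : ℂ, ζ ≠ 0 ∧ vdim (kerA (spec A ζ)) = vdim (kerA A) := by
  by_contra hcon
  push Not at hcon
  have h1 : (Set.univ : Set ℂ) ⊆ {0} ∪
      {ζ : ℂ | ζ ≠ 0 ∧ vdim (kerA (spec A ζ)) ≠ vdim (kerA A)} := by
    intro ζ _
    by_cases h : ζ = 0
    · exact Or.inl h
    · exact Or.inr ⟨h, hcon ζ h⟩
  have h2 : (Set.univ : Set ℂ).Countable :=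
    ((Set.countable_singleton 0).union (spec_countable hA)).mono h1
  exact (not_countable_complex) h2

theorem exists_degIn (A : GMat κ ι (N × Multiplicative ℤ)) : ∃ (a : ℤ) (d : ℕ), DegIn A a d := by
  classical
  have hf : (⋃ k, ⋃ i, ((A k i).support : Set (N × Multiplicative ℤ))).Finite :=
    Set.finite_iUnion fun k => Set.finite_iUnion fun i => Finset.finite_toSet _
  obtain ⟨B, hB⟩ : ∃ B : ℕ, ∀ g ∈ (⋃ k, ⋃ i, ((A k i).support : Set (N × Multiplicative ℤ))),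
      (Multiplicative.toAdd g.2).natAbs ≤ B := by
    obtain ⟨B, hB⟩ := (hf.image fun g => (Multiplicative.toAdd g.2).natAbs).bddAbove
    exact ⟨B, fun g hg => hB ⟨g, hg, rfl⟩⟩
  refine ⟨-B, 2 * B, fun k i g hg => ?_⟩
  have h1 := hB g (Set.mem_iUnion.2 ⟨k, Set.mem_iUnion.2 ⟨i, by simpa using hg⟩⟩)
  constructor
  · omega
  · push_cast
    omega

/-- kernel dimensions over `ℂ[N × ℤ]` are kernel dimensions over `ℂ[N]` -/
theorem val_prod {v : ℝ} (hv : Val ⊤ (N × Multiplicative ℤ) v) : Val ⊤ N v := by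
  obtain ⟨m, n, A, -, rfl⟩ := hv
  obtain ⟨a, d, hA⟩ := exists_degIn A
  obtain ⟨ζ, -, h⟩ := exists_spec hA
  rw [← h]
  exact val_of _ fun _ _ _ => Subring.mem_top _

end Pool.Agent.Zk85.AW
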