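import Pool.Agent.Zk85.AW4

/-!
Extensions of `ℤ`: window matrices over the kernel, finitely supported kernel vectors, convexity.
-/

set_option autoImplicit false
set_option linter.unusedSectionVars false

open scoped InnerProductSpace ENNReal
open Filter Topology

namespace Pool.Agent.Zk85.AW

open Pool.Agent.H80R2
open Pool.Agent.H80R2.BC (L2 GMat vdim IsTr LInv Equi act kerA dk pt vals TorDiv Coef AtR)
open Pool.Agent.H812R3
open Pool.Agent.W656.VA

variable {ι κ N Γ : Type} [Group N] [Group Γ] [Fintype ι] [Fintype κ]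

/-- the degrees of the entries lie in `[a, a + d]` -/
def DegInE (E : Ext N Γ) (A : GMat κ ι Γ) (a : ℤ) (d : ℕ) : Prop :=
  ∀ k i g, A k i g ≠ 0 → a ≤ E.dg g ∧ E.dg g ≤ a + d

theorem band_opE (E : Ext N Γ) {A : GMat κ ι Γ} {a : ℤ} {d : ℕ} (hA : DegInE E A a d) :
    Band E (op A) a d := by
  intro x k g hx
  rw [op_apply]
  unfold act
  refine Finset.sum_eq_zero fun i _ => ?_
  unfold Finsupp.sum
  refine Finset.sum_eq_zero fun h hh => ?_
  have h1 := hA k i h (Finsupp.mem_support_iff.1 hh)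
  have h2 : x (i, g * h) = 0 := by
    apply hx
    · rw [Ext.dg_mul]
      linarith [h1.1]
    · rw [Ext.dg_mul]
      linarith [h1.2]
  show A k i h * x (i, g * h) = 0
  rw [h2, mul_zero]

theorem exists_degInE (E : Ext N Γ) (A : GMat κ ι Γ) : ∃ (a : ℤ) (d : ℕ), DegInE E A a d := by
  classical
  have hf : (⋃ k, ⋃ i, ((A k i).support : Set Γ)).Finite :=
    Set.finite_iUnion fun k => Set.finite_iUnion fun i => Finset.finite_toSet _
  obtain ⟨B, hB⟩ : ∃ B : ℕ, ∀ g ∈ (⋃ k, ⋃ i, ((A k i).support : Set Γ)),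
      (E.dg g).natAbs ≤ B := by
    obtain ⟨B, hB⟩ := (hf.image fun g => (E.dg g).natAbs).bddAbove
    exact ⟨B, fun g hg => hB ⟨g, hg, rfl⟩⟩
  refine ⟨-B, 2 * B, fun k i g hg => ?_⟩
  have h1 := hB g (Set.mem_iUnion.2 ⟨k, Set.mem_iUnion.2 ⟨i, by simpa using hg⟩⟩)
  constructor
  · omega
  · push_cast
    omega

/-- the index map of the window matrix -/
def ph (E : Ext N Γ) (b : ℤ) (j : ℤ) (h : N) : Γ := (E.t ^ b)⁻¹ * E.inc h * E.t ^ j

theorem ph_inj (E : Ext N Γ) (b j : ℤ) : Function.Injective (ph E b j) := by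
  intro h h' e
  unfold ph at e
  exact E.inj (mul_left_cancel (mul_right_cancel e))

/-- the window matrix over the kernel -/
noncomputable def wm (E : Ext N Γ) (A : GMat κ ι Γ) (n : ℕ) (a' : ℤ) (n' : ℕ) :
    GMat (κ × Fin n') (ι × Fin n) N :=
  fun p q => (A p.1 q.1).comapDomain (ph E (a' + (p.2 : ℤ)) (q.2 : ℤ)) (ph_inj E _ _).injOn

theorem dg_ph (E : Ext N Γ) (b j : ℤ) (h : N) : E.dg (ph E b j h) = j - b := by
  unfold ph
  rw [E.dg_mul, E.dg_mul, E.dg_inv, E.dg_tpow, E.dg_inc, E.dg_tpow]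
  ring

theorem mul_ph (E : Ext N Γ) (b j : ℤ) (h h' : N) :
    E.inc h * E.t ^ b * ph E b j h' = E.inc (h * h') * E.t ^ j := by
  unfold ph
  rw [map_mul]
  group

theorem act_wm (E : Ext N Γ) (A : GMat κ ι Γ) (n : ℕ) (a' : ℤ) (n' : ℕ)
    (y : L2 ((ι × Fin n) × N)) (k : κ) (m : Fin n') (h : N) :
    act (wm E A n a' n') y (k, m) h =
      act A (E.J ι 0 n y) k (E.inc h * E.t ^ (a' + (m : ℤ))) := by
  classical
  unfold act
  rw [Fintype.sum_prod_type]
  refine Finset.sum_congr rfl fun i _ => ?_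
  set b : ℤ := a' + (m : ℤ) with hb
  set F : Γ → ℂ := fun c => A k i c * E.J ι 0 n y (i, E.inc h * E.t ^ b * c) with hF
  have h1 : ∀ j : Fin n, ((wm E A n a' n' (k, m) (i, j)).sum fun h' c => c * y ((i, j), h * h')) =
      ∑ h' ∈ (A k i).support.preimage (ph E b (j : ℤ)) (ph_inj E _ _).injOn, F (ph E b j h') := by
    intro j
    unfold Finsupp.sum wm
    refine Finset.sum_congr rfl fun h' _ => ?_
    have h2 : E.J ι 0 n y (i, E.inc h * E.t ^ b * ph E b j h') = y ((i, j), h * h') := by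
      rw [mul_ph]
      have := E.J_apply 0 n y i j (h * h')
      rw [zero_add] at this
      exact this
    show _ = A k i (ph E b j h') * E.J ι 0 n y (i, E.inc h * E.t ^ b * ph E b j h')
    rw [h2]
    rfl
  rw [Finset.sum_congr rfl fun j _ => h1 j]
  unfold Finsupp.sum
  rw [Finset.sum_sigma']
  apply Finset.sum_of_injOn (fun p : (_ : Fin n) × N => ph E b (p.1 : ℤ) p.2)
  · rintro ⟨j, h'⟩ _ ⟨j', h''⟩ _ e
    simp only at e
    have e1 : ((j : ℕ) : ℤ) = ((j' : ℕ) : ℤ) := by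
      have := congrArg E.dg e
      rw [dg_ph, dg_ph] at this
      omega
    have e2 : j = j' := Fin.ext (by exact_mod_cast e1)
    subst e2
    rw [ph_inj E _ _ e]
  · rintro ⟨j, h'⟩ hp
    simp only [Finset.coe_sigma, Set.mem_sigma_iff, Finset.coe_preimage, Set.mem_preimage] at hp
    exact hp.2
  · intro c hc hne
    show F c = 0
    rw [hF]
    simp only
    rw [E.J_apply_ne, mul_zero]
    intro hdg
    apply hne
    obtain ⟨h', j, e⟩ := E.exists_win 0 n _ hdg
    rw [zero_add] at e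
    have e2 : c = ph E b j (h⁻¹ * h') := by
      unfold ph
      rw [map_mul, map_inv]
      have : c = (E.t ^ b)⁻¹ * (E.inc h)⁻¹ * (E.inc h * E.t ^ b * c) := by group
      rw [this, e]
      group
    refine ⟨⟨j, h⁻¹ * h'⟩, ?_, e2.symm⟩
    simp only [Finset.coe_sigma, Set.mem_sigma_iff, Finset.coe_preimage, Set.mem_preimage]
    refine ⟨Finset.mem_coe.2 (Finset.mem_univ _), ?_⟩
    rw [← e2]
    exact hc
  · rintro ⟨j, h'⟩ _
    rfl

theorem kerA_wm (E : Ext N Γ) (A : GMat κ ι Γ) (n : ℕ) (a' : ℤ) (n' : ℕ) :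
    kerA (wm E A n a' n') = kr (Tn E (op A) 0 n a' n') := by
  ext y
  rw [mem_kerA, mem_kr, Tn_apply]
  constructor
  · intro hy
    ext ⟨⟨k, j⟩, h⟩
    rw [E.R_apply, op_apply, ← act_wm]
    exact hy (k, j) h
  · rintro hy ⟨k, j⟩ h
    have h1 : E.R κ a' n' (op A (E.J ι 0 n y)) ((k, j), h) = 0 := by
      rw [hy]
      rfl
    rw [E.R_apply, op_apply, ← act_wm] at h1
    exact h1

/-! ### finitely supported kernel vectors -/

/-- kernel vectors supported in a window -/
noncomputable def Kt (E : Ext N Γ) (S : L2 (κ × Γ) →L[ℂ] L2 (ι × Γ)) (a : ℤ) (n : ℕ) :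
    Submodule ℂ (L2 ((κ × Fin n) × N)) :=
  (kr S).comap (E.J κ a n : L2 ((κ × Fin n) × N) →ₗ[ℂ] L2 (κ × Γ))

theorem mem_Kt (E : Ext N Γ) (S : L2 (κ × Γ) →L[ℂ] L2 (ι × Γ)) (a : ℤ) (n : ℕ)
    (z : L2 ((κ × Fin n) × N)) : z ∈ Kt E S a n ↔ S (E.J κ a n z) = 0 := Iff.rfl

theorem isClosed_Kt (E : Ext N Γ) (S : L2 (κ × Γ) →L[ℂ] L2 (ι × Γ)) (a : ℤ) (n : ℕ) :
    IsClosed (Kt E S a n : Set (L2 ((κ × Fin n) × N))) :=
  (isClosed_kr S).preimage (E.J κ a n).continuous

theorem linv_Kt (E : Ext N Γ) {S : L2 (κ × Γ) →L[ℂ] L2 (ι × Γ)} (hS : Equi S) (a : ℤ) (n : ℕ) :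
    LInv (Kt E S a n) := by
  apply linv_of
  intro g x hx
  rw [mem_Kt] at hx ⊢
  rw [E.J_lt, equi_lt hS, hx, map_zero]

/-- the relabelling of a window space by the automorphism -/
theorem inj_sig (E : Ext N Γ) (κ : Type) (n : ℕ) :
    Function.Injective (fun p : (κ × Fin n) × N => (p.1, E.σ p.2)) := by
  rintro ⟨a, b⟩ ⟨c, e⟩ h
  simpa using h

/-- push by the automorphism -/
noncomputable def ps (E : Ext N Γ) (κ : Type) (n : ℕ) :
    L2 ((κ × Fin n) × N) →L[ℂ] L2 ((κ × Fin n) × N) :=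
  KP.push (fun p => (p.1, E.σ p.2)) (inj_sig E κ n)

/-- pull by the automorphism -/
noncomputable def pl (E : Ext N Γ) (κ : Type) (n : ℕ) :
    L2 ((κ × Fin n) × N) →L[ℂ] L2 ((κ × Fin n) × N) :=
  KP.pull (fun p => (p.1, E.σ p.2)) (inj_sig E κ n)

theorem pl_apply (E : Ext N Γ) (n : ℕ) (z : L2 ((κ × Fin n) × N)) (p : κ × Fin n) (h : N) :
    pl E κ n z (p, h) = z (p, E.σ h) := rfl

theorem ps_apply (E : Ext N Γ) (n : ℕ) (z : L2 ((κ × Fin n) × N)) (p : κ × Fin n) (h : N) :
    ps E κ n z (p, E.σ h) = z (p, h) :=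
  pushL_apply (fun p : (κ × Fin n) × N => (p.1, E.σ p.2)) (inj_sig E κ n) z (p, h)

theorem J_pl (E : Ext N Γ) (a : ℤ) (n : ℕ) (z : L2 ((κ × Fin n) × N)) :
    E.J κ a n (pl E κ n z) = lt κ E.t (E.J κ (a + 1) n z) := by
  ext ⟨i, g⟩
  rw [lt_apply]
  by_cases hg : a ≤ E.dg g ∧ E.dg g < a + n
  · obtain ⟨h, j, rfl⟩ := E.exists_win a n g hg
    have h1 : E.t * (E.inc h * E.t ^ (a + (j : ℤ))) =
        E.inc (E.σ h) * E.t ^ (a + 1 + (j : ℤ)) := by
      have h2 : E.t ^ (a + 1 + (j : ℤ)) = E.t * E.t ^ (a + (j : ℤ)) := by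
        rw [← zpow_one_add]
        congr 1
        ring
      rw [E.hσ, h2]
      simp only [mul_assoc, inv_mul_cancel_left]
    rw [E.J_apply, h1, E.J_apply, pl_apply]
  · rw [E.J_apply_ne _ _ _ _ _ hg, E.J_apply_ne]
    rw [E.dg_mul, E.dg_t]
    omega

theorem pl_ps (E : Ext N Γ) (n : ℕ) (z : L2 ((κ × Fin n) × N)) : pl E κ n (ps E κ n z) = z := by
  ext ⟨p, h⟩
  rw [pl_apply, ps_apply]

theorem vdim_shift (E : Ext N Γ) {S : L2 (κ × Γ) →L[ℂ] L2 (ι × Γ)} (hS : Equi S) (a : ℤ)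
    (n : ℕ) : vdim (Kt E S (a + 1) n) = vdim (Kt E S a n) := by
  obtain ⟨u, hu, hu2, hu3⟩ := exists_vec (isClosed_Kt E S a n)
  have key : ∀ z, z ∈ Kt E S (a + 1) n ↔ pl E κ n z ∈ Kt E S a n := by
    intro z
    rw [mem_Kt, mem_Kt, J_pl, equi_lt hS]
    constructor
    · intro h
      rw [h, map_zero]
    · intro h
      have := congrArg (lt ι E.t⁻¹) h
      rw [lt_lt, map_zero, mul_inv_cancel, lt_one] at this
      exact this
  rw [hu3]
  rw [vdim_of_vec (isClosed_Kt E S (a + 1) n) fun p => ps E κ n (u p)]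
  · refine Finset.sum_congr rfl fun p _ => ?_
    have h1 : ps E κ n (u p) (p, E.σ 1) = u p (p, 1) := ps_apply E n (u p) p 1
    rw [map_one] at h1
    rw [h1]
  · intro p
    rw [key, pl_ps]
    exact hu p
  · intro p x hx
    have h1 : ⟪ps E κ n (u p), x⟫_ℂ = ⟪u p, pl E κ n x⟫_ℂ := by
      unfold ps pl KP.push
      rw [ContinuousLinearMap.adjoint_inner_left]
    rw [h1, hu2 p _ ((key x).1 hx), pl_apply, map_one]

/-! ### convexity -/

/-- embeddings of windows -/
noncomputable def em (κ N : Type) {n m : ℕ} (e : Fin n → Fin m)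
    (he : Function.Injective e) : L2 ((κ × Fin n) × N) →L[ℂ] L2 ((κ × Fin m) × N) :=
  KP.push (fun p => ((p.1.1, e p.1.2), p.2)) (by
    rintro ⟨⟨a, b⟩, c⟩ ⟨⟨a', b'⟩, c'⟩ h
    simp only [Prod.mk.injEq, he.eq_iff] at h
    obtain ⟨⟨rfl, rfl⟩, rfl⟩ := h
    rfl)

/-- restrictions of windows -/
noncomputable def re (κ N : Type) {n m : ℕ} (e : Fin n → Fin m)
    (he : Function.Injective e) : L2 ((κ × Fin m) × N) →L[ℂ] L2 ((κ × Fin n) × N) :=
  KP.pull (fun p => ((p.1.1, e p.1.2), p.2)) (by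
    rintro ⟨⟨a, b⟩, c⟩ ⟨⟨a', b'⟩, c'⟩ h
    simp only [Prod.mk.injEq, he.eq_iff] at h
    obtain ⟨⟨rfl, rfl⟩, rfl⟩ := h
    rfl)

theorem re_apply {n m : ℕ} (e : Fin n → Fin m) (he : Function.Injective e)
    (x : L2 ((κ × Fin m) × N)) (k : κ) (j : Fin n) (h : N) :
    re κ N e he x ((k, j), h) = x ((k, e j), h) := rfl

theorem em_apply {n m : ℕ} (e : Fin n → Fin m) (he : Function.Injective e)
    (x : L2 ((κ × Fin n) × N)) (k : κ) (j : Fin n) (h : N) :
    em κ N e he x ((k, e j), h) = x ((k, j), h) :=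
  pushL_apply (fun p : (κ × Fin n) × N => ((p.1.1, e p.1.2), p.2)) _ x ((k, j), h)

theorem em_apply_ne {n m : ℕ} (e : Fin n → Fin m) (he : Function.Injective e)
    (x : L2 ((κ × Fin n) × N)) (k : κ) (j : Fin m) (h : N) (hj : ∀ j', e j' ≠ j) :
    em κ N e he x ((k, j), h) = 0 := by
  apply pushL_apply_ne
  rintro ⟨⟨a, b⟩, c⟩ e'
  simp only [Prod.mk.injEq] at e'
  exact hj _ e'.1.2

theorem equi_re {n m : ℕ} (e : Fin n → Fin m) (he : Function.Injective e) :
    Equi (re κ N e he) := by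
  apply equi_of
  intro g x
  ext ⟨⟨k, j⟩, h⟩
  rw [re_apply, lt_apply, lt_apply, re_apply]

theorem equi_em {n m : ℕ} (e : Fin n → Fin m) (he : Function.Injective e) :
    Equi (em κ N e he) := by
  apply equi_of
  intro g x
  ext ⟨⟨k, j⟩, h⟩
  rw [lt_apply]
  by_cases hj : ∃ j', e j' = j
  · obtain ⟨j', rfl⟩ := hj
    rw [em_apply, em_apply, lt_apply]
  · push Not at hj
    rw [em_apply_ne _ _ _ _ _ _ hj, em_apply_ne _ _ _ _ _ _ hj]

/-- embeddings compatible with the windows -/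
theorem J_em (E : Ext N Γ) {n m : ℕ} (e : Fin n → Fin m) (he : Function.Injective e) (a b : ℤ)
    (hab : ∀ j : Fin n, a + ((e j : ℕ) : ℤ) = b + (j : ℤ)) (x : L2 ((κ × Fin n) × N)) :
    E.J κ a m (em κ N e he x) = E.J κ b n x := by
  ext ⟨i, g⟩
  by_cases hg : a ≤ E.dg g ∧ E.dg g < a + m
  · obtain ⟨h, j, rfl⟩ := E.exists_win a m g hg
    rw [E.J_apply]
    by_cases hj : ∃ j', e j' = j
    · obtain ⟨j', rfl⟩ := hj
      rw [em_apply, hab, E.J_apply]
    · push Not at hj
      rw [em_apply_ne _ _ _ _ _ _ hj, E.J_apply_ne]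
      rw [E.dg_rep]
      intro hc
      apply hj ⟨(a + (j : ℤ) - b).toNat, by omega⟩
      apply Fin.ext
      have := hab ⟨(a + (j : ℤ) - b).toNat, by omega⟩
      simp only at this
      omega
  · rw [E.J_apply_ne _ _ _ _ _ hg, E.J_apply_ne]
    intro hc
    apply hg
    have h1 : ∀ j : Fin n, a ≤ b + (j : ℤ) ∧ b + (j : ℤ) < a + m := by
      intro j
      rw [← hab]
      have := (e j).2
      omega
    have := h1 ⟨(E.dg g - b).toNat, by omega⟩
    simp only at this
    omega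

theorem J_inj (E : Ext N Γ) {n : ℕ} {a : ℤ} {x : L2 ((κ × Fin n) × N)} (h : E.J κ a n x = 0) :
    x = 0 := by
  rw [← E.RJ a n x, h, map_zero]

theorem Kt_convex (E : Ext N Γ) {S : L2 (κ × Γ) →L[ℂ] L2 (ι × Γ)} (hS : Equi S) (a : ℤ)
    (n : ℕ) : 2 * vdim (Kt E S a (n + 1)) ≤ vdim (Kt E S a n) + vdim (Kt E S a (n + 2)) := by
  set M := Kt E S a (n + 2) with hM
  set ek : Fin 1 → Fin (n + 2) := fun _ => Fin.last (n + 1) with hek
  set ef : Fin 1 → Fin (n + 2) := fun _ => 0 with hef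
  have hek' : Function.Injective ek := fun a b _ => Subsingleton.elim _ _
  have hef' : Function.Injective ef := fun a b _ => Subsingleton.elim _ _
  set K := M ⊓ kr (re κ N ek hek') with hK
  set L := M ⊓ kr (re κ N ef hef') with hL
  have cM : IsClosed (M : Set (L2 ((κ × Fin (n + 2)) × N))) := isClosed_Kt _ _ _ _
  have cK : IsClosed (K : Set (L2 ((κ × Fin (n + 2)) × N))) := isClosed_inf cM (isClosed_kr _)
  have cL : IsClosed (L : Set (L2 ((κ × Fin (n + 2)) × N))) := isClosed_inf cM (isClosed_kr _)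
  have iM : LInv M := linv_Kt E hS _ _
  have iK : LInv K := linv_inf iM (linv_kr (equi_re _ _))
  have iL : LInv L := linv_inf iM (linv_kr (equi_re _ _))
  have mK : ∀ x, x ∈ K ↔ x ∈ M ∧ ∀ k h, x ((k, Fin.last (n + 1)), h) = 0 := by
    intro x
    rw [hK, Submodule.mem_inf, mem_kr]
    refine and_congr_right fun _ => ?_
    constructor
    · intro h k h'
      have : re κ N ek hek' x ((k, 0), h') = 0 := by
        rw [h]
        rfl
      exact this
    · intro h
      ext ⟨⟨k, j⟩, h'⟩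
      exact h k h'
  have mL : ∀ x, x ∈ L ↔ x ∈ M ∧ ∀ k h, x ((k, 0), h) = 0 := by
    intro x
    rw [hL, Submodule.mem_inf, mem_kr]
    refine and_congr_right fun _ => ?_
    constructor
    · intro h k h'
      have : re κ N ef hef' x ((k, 0), h') = 0 := by
        rw [h]
        rfl
      exact this
    · intro h
      ext ⟨⟨k, j⟩, h'⟩
      exact h k h'
  have h1 := vdim_super cK iK cL iL cM inf_le_left inf_le_left
  -- first embedding
  have h2 : vdim (Kt E S a (n + 1)) ≤ vdim K := by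
    refine vdim_inj_le (isClosed_Kt _ _ _ _) (linv_Kt E hS _ _)
      (em κ N Fin.castSucc (Fin.castSucc_injective _)) (equi_em _ _) cK ?_ ?_
    · intro x hx
      have h3 := J_em E (κ := κ) (n := n + 1) (m := n + 2) Fin.castSucc
        (Fin.castSucc_injective _) a a (fun j => by rw [Fin.val_castSucc]) x
      rw [mK]
      refine ⟨?_, ?_⟩
      · rw [hM, mem_Kt, h3]
        exact hx
      · intro k h
        apply em_apply_ne
        intro j' e
        have := congrArg Fin.val e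
        rw [Fin.val_castSucc, Fin.val_last] at this
        omega
    · intro x _ hx
      have h3 := J_em E (κ := κ) (n := n + 1) (m := n + 2) Fin.castSucc
        (Fin.castSucc_injective _) a a (fun j => by rw [Fin.val_castSucc]) x
      rw [hx, map_zero] at h3
      exact J_inj E h3.symm
  have h2' : vdim (Kt E S a (n + 1)) ≤ vdim L := by
    rw [← vdim_shift E hS a (n + 1)]
    refine vdim_inj_le (isClosed_Kt _ _ _ _) (linv_Kt E hS _ _)
      (em κ N Fin.succ (Fin.succ_injective _)) (equi_em _ _) cL ?_ ?_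
    · intro x hx
      have h3 := J_em E (κ := κ) (n := n + 1) (m := n + 2) Fin.succ
        (Fin.succ_injective _) a (a + 1) (fun j => by rw [Fin.val_succ]; push_cast; ring) x
      rw [mL]
      refine ⟨?_, ?_⟩
      · rw [hM, mem_Kt, h3]
        exact hx
      · intro k h
        apply em_apply_ne
        intro j' e
        have := congrArg Fin.val e
        rw [Fin.val_succ, Fin.val_zero] at this
        omega
    · intro x _ hx
      have h3 := J_em E (κ := κ) (n := n + 1) (m := n + 2) Fin.succ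
        (Fin.succ_injective _) a (a + 1) (fun j => by rw [Fin.val_succ]; push_cast; ring) x
      rw [hx, map_zero] at h3
      exact J_inj E h3.symm
  have h4 : vdim (K ⊓ L) ≤ vdim (Kt E S a n) := by
    rw [← vdim_shift E hS a n]
    set e : Fin n → Fin (n + 2) := fun j => j.castSucc.succ with he
    have he' : Function.Injective e := (Fin.succ_injective _).comp (Fin.castSucc_injective _)
    have h5 : ∀ x ∈ K ⊓ L, em κ N e he' (re κ N e he' x) = x := by
      rintro x ⟨hx1, hx2⟩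
      rw [SetLike.mem_coe, mK] at hx1
      rw [SetLike.mem_coe, mL] at hx2
      ext ⟨⟨k, j⟩, h⟩
      by_cases hj : ∃ j', e j' = j
      · obtain ⟨j', rfl⟩ := hj
        rw [em_apply, re_apply]
      · push Not at hj
        rw [em_apply_ne _ _ _ _ _ _ hj]
        rcases Nat.eq_zero_or_pos j with h0 | h0
        · have : j = 0 := Fin.ext h0
          rw [this, hx2.2]
        · by_cases hl : (j : ℕ) = n + 1
          · have : j = Fin.last (n + 1) := Fin.ext hl
            rw [this, hx1.2]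
          · exfalso
            have hj2 := j.2
            apply hj ⟨j - 1, by omega⟩
            apply Fin.ext
            rw [he]
            simp only [Fin.castSucc_mk, Fin.succ_mk]
            omega
    have h6 : ∀ x ∈ K ⊓ L, E.J κ (a + 1) n (re κ N e he' x) = E.J κ a (n + 2) x := by
      intro x hx
      have h7 := J_em E (κ := κ) (n := n) (m := n + 2) e he' a (a + 1) (fun j => by
        rw [he]
        simp only [Fin.val_succ, Fin.val_castSucc]
        push_cast
        ring) (re κ N e he' x)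
      rw [h5 x hx] at h7
      exact h7.symm
    refine vdim_inj_le (isClosed_inf cK cL) (linv_inf iK iL) (re κ N e he') (equi_re _ _)
      (isClosed_Kt _ _ _ _) ?_ ?_
    · intro x hx
      rw [mem_Kt, h6 x hx]
      exact hx.1.1
    · intro x hx h0
      have h7 := h6 x hx
      rw [h0, map_zero] at h7
      exact J_inj E h7.symm
  linarith

end Pool.Agent.Zk85.AW
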