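import Pool.Agent.Zk85.AW5

/-!
Extensions of `ℤ`: a common denominator of the kernel dimensions over `ℂ[N]` is one over `ℂ[Γ]`.
-/

set_option autoImplicit false
set_option linter.unusedSectionVars false

open scoped InnerProductSpace ENNReal
open Filter Topology

namespace Pool.Agent.Zk85.AW

open Pool.Agent.H80R2
open Pool.Agent.H80R2.BC (L2 GMat vdim IsTr LInv Equi act kerA dk pt vals TorDiv Coef AtR)
open Pool.Agent.H812R3
open Pool.Agent.W656.VA

theorem num_aux (k : ℕ → ℝ) (β C D : ℝ) (hD : 0 ≤ D)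
    (h1 : ∀ n, 2 * k (n + 1) ≤ k n + k (n + 2)) (h2 : ∀ n : ℕ, k n ≤ n * β)
    (h3 : ∀ n : ℕ, n * β ≤ k n + C) (h4 : ∀ n, ∃ z : ℤ, D * k n = z) :
    ∃ z : ℤ, D * β = z := by
  choose z hz using h4
  set w : ℕ → ℤ := fun n => z (n + 1) - z n with hw
  have hmono : ∀ n, w n ≤ w (n + 1) := by
    intro n
    have h5 := mul_le_mul_of_nonneg_left (h1 n) hD
    have h6 : 2 * (z (n + 1) : ℝ) ≤ z n + z (n + 2) := by
      rw [← hz, ← hz, ← hz]
      nlinarith
    have h7 : 2 * z (n + 1) ≤ z n + z (n + 2) := by exact_mod_cast h6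
    rw [hw]
    simp only
    show z (n + 1) - z n ≤ z (n + 2) - z (n + 1)
    omega
  have hm : Monotone w := monotone_nat_of_le_succ hmono
  have hgrow : ∀ n m : ℕ, z n + m * w n ≤ z (n + m) := by
    intro n m
    induction m with
    | zero => simp
    | succ m ih =>
      have h5 : w n ≤ w (n + m) := hm (by omega)
      have h6 : w (n + m) = z (n + m + 1) - z (n + m) := rfl
      rw [← add_assoc]
      push_cast
      linarith
  have hub : ∀ n, (w n : ℝ) ≤ D * β := by
    intro n
    apply lim_aux (c := 0) (e := n * (D * β) - z n)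
    intro m
    have h5 : ((z n : ℝ) + m * w n) ≤ z (n + m) := by exact_mod_cast hgrow n m
    have h6 : (z (n + m) : ℝ) ≤ (n + m) * (D * β) := by
      rw [← hz]
      have := mul_le_mul_of_nonneg_left (h2 (n + m)) hD
      push_cast at this
      linarith
    linarith
  obtain ⟨W, ⟨n0, hn0⟩, hmax⟩ := Int.exists_greatest_of_bdd (P := fun x => ∃ n, w n = x)
    ⟨⌊D * β⌋, by
      rintro x ⟨n, rfl⟩
      exact Int.le_floor.2 (hub n)⟩ ⟨w 0, 0, rfl⟩
  have hconst : ∀ m, z (n0 + m) = z n0 + m * W := by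
    intro m
    induction m with
    | zero => simp
    | succ m ih =>
      have h5 : W ≤ w (n0 + m) := by
        rw [← hn0]
        exact hm (by omega)
      have h6 : w (n0 + m) ≤ W := hmax _ ⟨_, rfl⟩
      have h7 : w (n0 + m) = z (n0 + m + 1) - z (n0 + m) := rfl
      rw [← add_assoc]
      push_cast
      linarith
  refine ⟨W, le_antisymm ?_ ?_⟩
  · apply lim_aux (c := n0) (e := z n0 + D * C)
    intro m
    have h5 : ((z (n0 + m) : ℤ) : ℝ) = z n0 + m * W := by exact_mod_cast hconst m
    have h6 := mul_le_mul_of_nonneg_left (h3 (n0 + m)) hD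
    rw [mul_add, hz, h5] at h6
    push_cast at h6
    linarith
  · rw [← hn0]
    exact hub n0

variable {ι κ N Γ : Type} [Group N] [Group Γ] [Fintype ι] [Fintype κ]

/-- common denominators pass to extensions of `ℤ` -/
theorem ext_mat (E : Ext N Γ) (D : ℕ) (hN : ∀ v : ℝ, Val ⊤ N v → ∃ z : ℤ, (D : ℝ) * v = z)
    (A : GMat κ ι Γ) : ∃ z : ℤ, (D : ℝ) * vdim (kerA A) = z := by
  obtain ⟨a, d, hA⟩ := exists_degInE E A
  have hB := band_opE E hA
  have hS := equi_op A
  set S' := ContinuousLinearMap.adjoint (op A) with hS'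
  have hS'e : Equi S' := equi_adj' hS
  set β := vdim (kr S') with hβ
  have hrel : vdim (kerA A) - Fintype.card ι = β - Fintype.card κ := by
    rw [kerA_eq]
    exact vdim_ker_adjoint (op A) hS
  have hkt : ∀ n', kr (ContinuousLinearMap.adjoint (Tn E (op A) 0 (n' + d) (-a) n')) =
      Kt E S' (-a) n' := by
    intro n'
    ext z
    rw [mem_kr_adj E hB]
    rfl
  have hk : ∀ n', vdim (Kt E S' (-a) n') = vdim (kerA (wm E A (n' + d) (-a) n')) -
      Fintype.card ι * (n' + d) + Fintype.card κ * n' := by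
    intro n'
    have := vdim_Tn_eq E hS a d n'
    rw [hkt, ← kerA_wm] at this
    linarith
  have h := num_aux (fun n => vdim (Kt E S' (-a) n)) β (d * (Fintype.card ι - vdim (kerA A))) D
    (Nat.cast_nonneg D) (fun n => Kt_convex E hS'e (-a) n) ?_ ?_ ?_
  · obtain ⟨z, hz⟩ := h
    refine ⟨z + D * Fintype.card ι - D * Fintype.card κ, ?_⟩
    push_cast
    rw [← hz]
    have : vdim (kerA A) = β - Fintype.card κ + Fintype.card ι := by linarith
    rw [this]
    ring
  · intro n
    have := vdim_adj_le E hS hB n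
    rw [hkt] at this
    exact this
  · intro n
    have h1 := le_vdim_Tn E hS hB n
    rw [← kerA_wm, ← kerA_eq] at h1
    push_cast at h1
    simp only [hk]
    nlinarith
  · intro n
    simp only [hk]
    obtain ⟨z, hz⟩ := hN _ (val_of (wm E A (n + d) (-a) n) fun _ _ _ => Subring.mem_top _)
    refine ⟨z - D * Fintype.card ι * (n + d) + D * Fintype.card κ * n, ?_⟩
    push_cast
    rw [← hz]
    ring

theorem ext_val (E : Ext N Γ) (D : ℕ) (hN : ∀ v : ℝ, Val ⊤ N v → ∃ z : ℤ, (D : ℝ) * v = z)
    (v : ℝ) (hv : Val ⊤ Γ v) : ∃ z : ℤ, (D : ℝ) * v = z := by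
  obtain ⟨m, n, A, -, rfl⟩ := hv
  exact ext_mat E D hN A

/-! ### groups mapping to abelian groups -/

theorem val_incl' {G G' : Type} [Group G] [Group G'] {v : ℝ} (f : G →* G')
    (hf : Function.Injective f) (hv : Val ⊤ G v) : Val ⊤ G' v := val_incl f hf hv

/-- homomorphisms to `ℤ` -/
theorem hom_int {Γ : Type} [Group Γ] (f : Γ →* Multiplicative ℤ) (D : ℕ)
    (hN : ∀ v : ℝ, Val ⊤ f.ker v → ∃ z : ℤ, (D : ℝ) * v = z)
    (v : ℝ) (hv : Val ⊤ Γ v) : ∃ z : ℤ, (D : ℝ) * v = z := by
  by_cases hf : ∀ g, f g = 1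
  · apply hN
    refine val_incl' (MonoidHom.mk' (fun g => (⟨g, hf g⟩ : f.ker)) (fun a b => rfl)) ?_ hv
    intro a b h
    exact congrArg Subtype.val h
  · push Not at hf
    obtain ⟨g0, hg0⟩ := hf
    have hg0' : Multiplicative.toAdd (f g0) ≠ 0 := fun h => hg0 (toAdd_eq_zero.1 h)
    classical
    have hex : ∃ n : ℕ, 0 < n ∧ ∃ g, Multiplicative.toAdd (f g) = (n : ℤ) := by
      rcases lt_or_gt_of_ne hg0' with h | h
      · refine ⟨(-Multiplicative.toAdd (f g0)).toNat, by omega, g0⁻¹, ?_⟩
        rw [map_inv, toAdd_inv]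
        omega
      · exact ⟨(Multiplicative.toAdd (f g0)).toNat, by omega, g0, by omega⟩
    set k := Nat.find hex with hk
    obtain ⟨hk0, t, ht⟩ := Nat.find_spec hex
    rw [← hk] at hk0 ht
    have hk0' : (0 : ℤ) < k := by exact_mod_cast hk0
    have hdvd : ∀ g, (k : ℤ) ∣ Multiplicative.toAdd (f g) := by
      intro g
      by_contra hcon
      set q := Multiplicative.toAdd (f g) / (k : ℤ)
      set r := Multiplicative.toAdd (f g) % (k : ℤ) with hr
      have hr0 : 0 ≤ r := Int.emod_nonneg _ hk0'.ne'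
      have hr1 : r < k := Int.emod_lt_of_pos _ hk0'
      have hr2 : r ≠ 0 := fun h => hcon (Int.dvd_of_emod_eq_zero h)
      have h1 : Multiplicative.toAdd (f (g * (t ^ q)⁻¹)) = r := by
        rw [map_mul, map_inv, map_zpow, toAdd_mul, toAdd_inv, toAdd_zpow, ht, smul_eq_mul]
        have := Int.emod_add_mul_ediv (Multiplicative.toAdd (f g)) (k : ℤ)
        linarith
      have h2 := Nat.find_min' hex ⟨(by omega : 0 < r.toNat), g * (t ^ q)⁻¹, by rw [h1]; omega⟩
      rw [← hk] at h2
      omega
    let deg : Γ →* Multiplicative ℤ := MonoidHom.mk'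
      (fun g => Multiplicative.ofAdd (Multiplicative.toAdd (f g) / (k : ℤ))) (by
        intro a b
        rw [map_mul, toAdd_mul, Int.add_ediv_of_dvd_left (hdvd a), ofAdd_add])
    have hdeg : ∀ g, deg g = 1 ↔ f g = 1 := by
      intro g
      show Multiplicative.ofAdd (Multiplicative.toAdd (f g) / (k : ℤ)) = 1 ↔ _
      rw [ofAdd_eq_one, ← toAdd_eq_zero (x := f g)]
      constructor
      · intro h
        have := Int.ediv_mul_cancel (hdvd g)
        rw [h, zero_mul] at this
        exact this.symm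
      · intro h
        rw [h, Int.zero_ediv]
    let E : Ext f.ker Γ :=
      { inc := f.ker.subtype
        deg := deg
        t := t
        inj := Subtype.val_injective
        degt := by
          show Multiplicative.ofAdd (Multiplicative.toAdd (f t) / (k : ℤ)) = _
          rw [ht, Int.ediv_self hk0'.ne']
        ex := fun g hg => ⟨⟨g, (hdeg g).1 hg⟩, rfl⟩
        deg_inc := fun h => (hdeg _).2 h.2
        σ := MulAut.conjNormal t
        hσ := fun h => by
          show ((MulAut.conjNormal t h : f.ker) : Γ) = _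
          rw [MulAut.conjNormal_apply]
          rfl }
    exact ext_val E D hN v hv

/-- homomorphisms to `ℤ^r` -/
theorem hom_pow (r : ℕ) : ∀ {Γ : Type} [Group Γ] (f : Γ →* Multiplicative (Fin r → ℤ)) (D : ℕ)
    (_ : ∀ v : ℝ, Val ⊤ f.ker v → ∃ z : ℤ, (D : ℝ) * v = z)
    (v : ℝ) (_ : Val ⊤ Γ v), ∃ z : ℤ, (D : ℝ) * v = z := by
  induction r with
  | zero =>
    intro Γ _ f D hN v hv
    apply hN
    have hf : ∀ g, f g = 1 := fun g => Subsingleton.elim _ _
    refine val_incl' (MonoidHom.mk' (fun g => (⟨g, hf g⟩ : f.ker)) (fun a b => rfl)) ?_ hv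
    intro a b h
    exact congrArg Subtype.val h
  | succ r ih =>
    intro Γ _ f D hN v hv
    let f1 : Γ →* Multiplicative ℤ := MonoidHom.mk'
      (fun g => Multiplicative.ofAdd (Multiplicative.toAdd (f g) (Fin.last r))) (by
        intro a b
        rw [map_mul, toAdd_mul, Pi.add_apply, ofAdd_add])
    refine hom_int f1 D ?_ v hv
    intro w hw
    let f2 : f1.ker →* Multiplicative (Fin r → ℤ) := MonoidHom.mk'
      (fun g => Multiplicative.ofAdd fun j => Multiplicative.toAdd (f (g : Γ)) (Fin.castSucc j)) (by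
        intro a b
        rw [Subgroup.coe_mul, map_mul, toAdd_mul, ← ofAdd_add]
        rfl)
    refine ih f2 D ?_ w hw
    intro u hu
    apply hN
    have hmem : ∀ g : f2.ker, f ((g : f1.ker) : Γ) = 1 := by
      intro g
      have h1 : Multiplicative.toAdd (f ((g : f1.ker) : Γ)) = 0 := by
        funext j
        refine Fin.lastCases ?_ (fun j => ?_) j
        · have h2 : f1 ((g : f1.ker) : Γ) = 1 := (g : f1.ker).2
          have h3 : Multiplicative.ofAdd
            (Multiplicative.toAdd (f ((g : f1.ker) : Γ)) (Fin.last r)) = 1 := h2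
          rw [ofAdd_eq_one] at h3
          exact h3
        · have h2 : f2 (g : f1.ker) = 1 := g.2
          have h3 : Multiplicative.ofAdd (fun j =>
            Multiplicative.toAdd (f ((g : f1.ker) : Γ)) (Fin.castSucc j)) = 1 := h2
          rw [ofAdd_eq_one] at h3
          exact congrFun h3 j
      exact toAdd_eq_zero.1 h1
    refine val_incl' (MonoidHom.mk' (fun g : f2.ker =>
      (⟨((g : f1.ker) : Γ), hmem g⟩ : f.ker)) (fun a b => rfl)) ?_ hu
    intro a b h
    have := congrArg Subtype.val h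
    exact Subtype.ext (Subtype.ext this)

/-- products with `ℤ^r` -/
theorem val_prod_pow (r : ℕ) : ∀ {G : Type} [Group G] {v : ℝ}
    (_ : Val ⊤ (G × Multiplicative (Fin r → ℤ)) v), Val ⊤ G v := by
  induction r with
  | zero =>
    intro G _ v hv
    refine val_incl' (MonoidHom.fst G (Multiplicative (Fin 0 → ℤ))) ?_ hv
    rintro ⟨a, b⟩ ⟨c, d⟩ h
    simp only [MonoidHom.coe_fst] at h
    rw [h, Subsingleton.elim b d]
  | succ r ih =>
    intro G _ v hv
    apply ih
    apply val_prod
    let f : G × Multiplicative (Fin (r + 1) → ℤ) →*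
        (G × Multiplicative (Fin r → ℤ)) × Multiplicative ℤ := MonoidHom.mk'
      (fun g => ((g.1, Multiplicative.ofAdd fun j => Multiplicative.toAdd g.2 (Fin.castSucc j)),
        Multiplicative.ofAdd (Multiplicative.toAdd g.2 (Fin.last r)))) (by
        rintro ⟨a, b⟩ ⟨c, d⟩
        rfl)
    refine val_incl' f ?_ hv
    rintro ⟨a, b⟩ ⟨c, d⟩ h
    have h1 := congrArg (fun q => q.1.1) h
    have h2 := congrArg (fun q => Multiplicative.toAdd q.1.2) h
    have h3 := congrArg (fun q => Multiplicative.toAdd q.2) h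
    have h1' : a = c := h1
    subst h1'
    congr 1
    have : Multiplicative.toAdd b = Multiplicative.toAdd d := by
      funext j
      refine Fin.lastCases ?_ (fun j => ?_) j
      · exact h3
      · exact congrFun h2 j
    exact this

end Pool.Agent.Zk85.AW
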