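import Pool.Agent.Zk85.AW6

/-!
Torsionfree abelian quotients and factors.
-/

set_option autoImplicit false
set_option linter.unusedSectionVars false

open scoped InnerProductSpace ENNReal
open Filter Topology

namespace Pool.Agent.Zk85.AW

open Pool.Agent.H80R2
open Pool.Agent.H80R2.BC (L2 GMat vdim IsTr LInv Equi act kerA dk pt vals TorDiv Coef AtR)
open Pool.Agent.H812R3
open Pool.Agent.W656.VA

/-- finitely generated torsionfree abelian groups embed into `ℤ^r` -/
theorem exists_emb (P : Type) [CommGroup P] (hfg : Group.FG P)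
    (h : ∀ (g : P) (n : ℕ), 0 < n → g ^ n = 1 → g = 1) :
    ∃ (r : ℕ) (φ : P →* Multiplicative (Fin r → ℤ)), Function.Injective φ := by
  have h1 : AddGroup.FG (Additive P) := AddGroup.fg_iff_mul_fg.2 hfg
  have h2 : Module.Finite ℤ (Additive P) := Module.Finite.iff_addGroup_fg.2 h1
  have h3 : Module.IsTorsionFree ℤ (Additive P) := by
    refine Module.isTorsionFree_iff_smul_eq_zero.2 ?_
    intro r m hrm
    by_cases hr : r = 0
    · exact Or.inl hr
    · right
      have h4 : ((r.natAbs : ℤ) • m) = 0 := by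
        rcases Int.natAbs_eq r with h5 | h5
        · rw [← h5]
          exact hrm
        · rw [h5, neg_smul, neg_eq_zero] at hrm
          exact hrm
      rw [natCast_zsmul] at h4
      have h6 : (Additive.toMul m) ^ r.natAbs = 1 := congrArg Additive.toMul h4
      exact congrArg Additive.ofMul (h _ _ (Int.natAbs_pos.2 hr) h6)
  have h4 : Module.Free ℤ (Additive P) := inferInstance
  let b := Module.finBasis ℤ (Additive P)
  refine ⟨_, MonoidHom.mk' (fun p => Multiplicative.ofAdd (b.equivFun (Additive.ofMul p))) ?_, ?_⟩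
  · intro x y
    rw [ofMul_mul, map_add, ofAdd_add]
  · intro x y hxy
    have : b.equivFun (Additive.ofMul x) = b.equivFun (Additive.ofMul y) := hxy
    exact Additive.ofMul.injective (b.equivFun.injective this)

variable {ι κ Γ : Type} [Group Γ] [Fintype ι] [Fintype κ]

/-- restriction of a matrix to a subgroup containing its supports -/
theorem val_restrict (M : GMat κ ι Γ) (H : Subgroup Γ) (hM : ∀ k i g, M k i g ≠ 0 → g ∈ H) :
    Val ⊤ H (vdim (kerA M)) := by
  set M' : GMat κ ι H := fun k i =>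
    (M k i).comapDomain (Subtype.val : H → Γ) Subtype.val_injective.injOn with hM'
  have h1 : BC.push (H.subtype : H → Γ) M' = M := by
    funext k i
    show (M' k i).mapDomain (Subtype.val : H → Γ) = M k i
    rw [hM']
    apply Finsupp.mapDomain_comapDomain _ Subtype.val_injective
    intro g hg
    exact ⟨⟨g, hM k i g (by simpa using hg)⟩, rfl⟩
  rw [← h1, vdim_push H.subtype Subtype.val_injective]
  exact val_of _ fun _ _ _ => Subring.mem_top _

theorem exists_fg {Q : Type} [CommGroup Q] (f : Γ →* Q) (M : GMat κ ι Γ) :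
    ∃ P : Subgroup Q, Group.FG P ∧ ∀ k i g, M k i g ≠ 0 → f g ∈ P := by
  classical
  have hf : (⋃ k, ⋃ i, ((M k i).support : Set Γ)).Finite :=
    Set.finite_iUnion fun k => Set.finite_iUnion fun i => Finset.finite_toSet _
  refine ⟨Subgroup.closure (f '' (⋃ k, ⋃ i, ((M k i).support : Set Γ))), ?_, ?_⟩
  · have : Finite (f '' (⋃ k, ⋃ i, ((M k i).support : Set Γ))) := (hf.image f).to_subtype
    exact Group.closure_finite_fg _
  · intro k i g hg
    apply Subgroup.subset_closure
    exact ⟨g, Set.mem_iUnion.2 ⟨k, Set.mem_iUnion.2 ⟨i, by simpa using hg⟩⟩, rfl⟩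

/-- common denominators pass to extensions with torsionfree abelian quotient -/
theorem hom_comm {Q : Type} [CommGroup Q] (hQ : ∀ (q : Q) (n : ℕ), 0 < n → q ^ n = 1 → q = 1)
    (f : Γ →* Q) (D : ℕ) (hN : ∀ v : ℝ, Val ⊤ f.ker v → ∃ z : ℤ, (D : ℝ) * v = z)
    (v : ℝ) (hv : Val ⊤ Γ v) : ∃ z : ℤ, (D : ℝ) * v = z := by
  obtain ⟨m, n, A, -, rfl⟩ := hv
  obtain ⟨P, hP, hAP⟩ := exists_fg f A
  have h1 := val_restrict A (P.comap f) hAP
  obtain ⟨r, φ, hφ⟩ := exists_emb P hP (fun g n hn h => Subtype.ext (hQ g n hn (by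
    have := congrArg Subtype.val h
    simpa using this)))
  let f' : P.comap f →* Multiplicative (Fin r → ℤ) :=
    φ.comp ((f.comp (P.comap f).subtype).codRestrict P (fun g => g.2))
  refine hom_pow r f' D ?_ _ h1
  intro w hw
  apply hN
  have hmem : ∀ g : f'.ker, f ((g : P.comap f) : Γ) = 1 := by
    intro g
    have h2 : f' (g : P.comap f) = 1 := g.2
    have h3 : φ (((f.comp (P.comap f).subtype).codRestrict P (fun g => g.2)) g) = 1 := h2
    have h4 := hφ (h3.trans (map_one φ).symm)
    exact congrArg Subtype.val h4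
  refine val_incl' (MonoidHom.mk' (fun g : f'.ker =>
    (⟨((g : P.comap f) : Γ), hmem g⟩ : f.ker)) (fun a b => rfl)) ?_ hw
  intro a b h
  have := congrArg Subtype.val h
  exact Subtype.ext (Subtype.ext this)

/-- kernel dimensions over a product with a torsionfree abelian group -/
theorem val_prod_comm {G Q : Type} [Group G] [CommGroup Q]
    (hQ : ∀ (q : Q) (n : ℕ), 0 < n → q ^ n = 1 → q = 1) {v : ℝ} :
    Val ⊤ (G × Q) v ↔ Val ⊤ G v := by
  constructor
  · rintro ⟨m, n, A, -, rfl⟩
    obtain ⟨P, hP, hAP⟩ := exists_fg (MonoidHom.snd G Q) A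
    have h1 := val_restrict A (P.comap (MonoidHom.snd G Q)) hAP
    obtain ⟨r, φ, hφ⟩ := exists_emb P hP (fun g n hn h => Subtype.ext (hQ g n hn (by
      have := congrArg Subtype.val h
      simpa using this)))
    let f' : P.comap (MonoidHom.snd G Q) →* G × Multiplicative (Fin r → ℤ) :=
      MonoidHom.mk' (fun g => ((g : G × Q).1, φ ⟨(g : G × Q).2, g.2⟩)) (by
        intro a b
        refine Prod.ext rfl ?_
        show φ _ = φ _ * φ _
        rw [← map_mul]
        rfl)
    apply val_prod_pow r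
    refine val_incl' f' ?_ h1
    rintro ⟨⟨a, b⟩, hb⟩ ⟨⟨c, d⟩, hd⟩ h
    have h2 : a = c := congrArg Prod.fst h
    have h3 : φ ⟨b, hb⟩ = φ ⟨d, hd⟩ := congrArg Prod.snd h
    have h4 : b = d := congrArg Subtype.val (hφ h3)
    subst h2 h4
    rfl
  · intro hv
    exact val_incl' (MonoidHom.inl G Q) (fun a b h => congrArg Prod.fst h) hv

end Pool.Agent.Zk85.AW
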