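import Pool.Agent.Zk85.AW7

/-!
Products with finite groups and with arbitrary abelian groups; a class of quotients closed under
extensions and directed unions.
-/

set_option autoImplicit false
set_option linter.unusedSectionVars false

open scoped InnerProductSpace ENNReal
open Filter Topology

namespace Pool.Agent.Zk85.AW

open Pool.Agent.H80R2
open Pool.Agent.H80R2.BC (L2 GMat vdim IsTr LInv Equi act kerA dk pt vals TorDiv Coef AtR)
open Pool.Agent.H812R3
open Pool.Agent.W656.VA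

section finite
variable {ι κ G T : Type} [Group G] [Group T] [Fintype ι] [Fintype κ] [Fintype T]

/-- the restriction of a matrix from `G × T` to `G` -/
noncomputable def rm (M : GMat κ ι (G × T)) : GMat (κ × T) (ι × T) G :=
  fun p q => (M p.1 q.1).comapDomain (fun g : G => (g, p.2⁻¹ * q.2))
    (fun a _ b _ h => congrArg Prod.fst h)

theorem inj_rs (ι G T : Type) :
    Function.Injective (fun p : (ι × T) × G => (p.1.1, (p.2, p.1.2))) := by
  rintro ⟨⟨a, b⟩, c⟩ ⟨⟨a', b'⟩, c'⟩ h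
  simp only [Prod.mk.injEq] at h
  obtain ⟨rfl, rfl, rfl⟩ := h
  rfl

/-- the identification of `ℓ²(ι × (G × T))` and `ℓ²((ι × T) × G)` -/
noncomputable def U (ι G T : Type) : L2 (ι × (G × T)) →L[ℂ] L2 ((ι × T) × G) :=
  KP.pull (fun p => (p.1.1, (p.2, p.1.2))) (inj_rs ι G T)

/-- its inverse -/
noncomputable def U' (ι G T : Type) : L2 ((ι × T) × G) →L[ℂ] L2 (ι × (G × T)) :=
  KP.push (fun p => (p.1.1, (p.2, p.1.2))) (inj_rs ι G T)

theorem U_apply (x : L2 (ι × (G × T))) (i : ι) (s : T) (g : G) :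
    U ι G T x ((i, s), g) = x (i, (g, s)) := rfl

theorem U'_apply (y : L2 ((ι × T) × G)) (i : ι) (s : T) (g : G) :
    U' ι G T y (i, (g, s)) = y ((i, s), g) :=
  pushL_apply (fun p : (ι × T) × G => (p.1.1, (p.2, p.1.2))) (inj_rs ι G T) y ((i, s), g)

theorem U_U' (y : L2 ((ι × T) × G)) : U ι G T (U' ι G T y) = y := by
  ext ⟨⟨i, s⟩, g⟩
  rw [U_apply, U'_apply]

theorem U'_U (x : L2 (ι × (G × T))) : U' ι G T (U ι G T x) = x := by
  ext ⟨i, ⟨g, s⟩⟩
  rw [U'_apply, U_apply]

theorem inner_U (x : L2 (ι × (G × T))) (y : L2 ((ι × T) × G)) :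
    ⟪U ι G T x, y⟫_ℂ = ⟪x, U' ι G T y⟫_ℂ := by
  unfold U U' KP.push
  rw [ContinuousLinearMap.adjoint_inner_right]

theorem act_rm (M : GMat κ ι (G × T)) (x : L2 (ι × (G × T))) (k : κ) (t : T) (g : G) :
    act (rm M) (U ι G T x) (k, t) g = act M x k (g, t) := by
  classical
  unfold act
  rw [Fintype.sum_prod_type]
  refine Finset.sum_congr rfl fun i _ => ?_
  set F : G × T → ℂ := fun c => M k i c * x (i, (g, t) * c) with hF
  have h1 : ∀ s : T, ((rm M (k, t) (i, s)).sum fun h' c => c * U ι G T x ((i, s), g * h')) =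
      ∑ h' ∈ (M k i).support.preimage (fun g : G => (g, t⁻¹ * s))
        (fun a _ b _ h => congrArg Prod.fst h), F (h', t⁻¹ * s) := by
    intro s
    unfold Finsupp.sum rm
    refine Finset.sum_congr rfl fun h' _ => ?_
    have h2 : x (i, (g, t) * (h', t⁻¹ * s)) = U ι G T x ((i, s), g * h') := by
      rw [U_apply, Prod.mk_mul_mk, mul_inv_cancel_left]
    show _ = M k i (h', t⁻¹ * s) * x (i, (g, t) * (h', t⁻¹ * s))
    rw [h2]
    rfl
  rw [Finset.sum_congr rfl fun j _ => h1 j]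
  unfold Finsupp.sum
  rw [Finset.sum_sigma']
  apply Finset.sum_of_injOn (fun p : (_ : T) × G => (p.2, t⁻¹ * p.1))
  · rintro ⟨j, h'⟩ _ ⟨j', h''⟩ _ e
    simp only [Prod.mk.injEq, mul_right_inj] at e
    obtain ⟨rfl, rfl⟩ := e
    rfl
  · rintro ⟨j, h'⟩ hp
    have h3 := (Finset.mem_sigma.1 (Finset.mem_coe.1 hp)).2
    exact Finset.mem_coe.2 ((Finset.mem_preimage (f := fun g : G => (g, t⁻¹ * j))
      (hf := fun a _ b _ h => congrArg Prod.fst h)).1 h3)
  · rintro ⟨c1, c2⟩ hc hne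
    exfalso
    apply hne
    refine ⟨⟨t * c2, c1⟩, ?_, ?_⟩
    · refine Finset.mem_coe.2 (Finset.mem_sigma.2 ⟨Finset.mem_univ _, Finset.mem_preimage.2 ?_⟩)
      show (c1, t⁻¹ * (t * c2)) ∈ (M k i).support
      rw [inv_mul_cancel_left]
      exact hc
    · simp only [inv_mul_cancel_left]
  · rintro ⟨j, h'⟩ _
    rfl

theorem mem_rm (M : GMat κ ι (G × T)) (x : L2 (ι × (G × T))) :
    U ι G T x ∈ kerA (rm M) ↔ x ∈ kerA M := by
  rw [mem_kerA, mem_kerA]
  constructor
  · rintro h k ⟨g, t⟩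
    rw [← act_rm]
    exact h (k, t) g
  · rintro h ⟨k, t⟩ g
    rw [act_rm]
    exact h k (g, t)

/-- restriction to a factor of finite index multiplies dimensions by the index -/
theorem vdim_rm (M : GMat κ ι (G × T)) :
    vdim (kerA (rm M)) = Fintype.card T * vdim (kerA M) := by
  obtain ⟨u, hu, hu2, hu3⟩ := exists_vec (isClosed_kerA M)
  rw [vdim_of_vec (isClosed_kerA (rm M))
    fun p : ι × T => U ι G T (lt ι ((1, p.2) : G × T)⁻¹ (u p.1))]
  · have h1 : ∀ p : ι × T, (U ι G T (lt ι ((1, p.2) : G × T)⁻¹ (u p.1)) (p, 1)).re =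
        (u p.1 (p.1, 1)).re := by
      rintro ⟨i, s⟩
      rw [U_apply, lt_apply]
      have h2 : ((1, s) : G × T)⁻¹ * ((1 : G), s) = 1 := inv_mul_cancel _
      simp only
      rw [h2]
    rw [Finset.sum_congr rfl fun p _ => h1 p, Fintype.sum_prod_type, hu3, Finset.mul_sum]
    refine Finset.sum_congr rfl fun i _ => ?_
    have h3 : ∀ c : ℝ, ∑ _y : T, c = Fintype.card T * c := by
      intro c
      rw [Finset.sum_const, Finset.card_univ, nsmul_eq_mul]
    exact h3 ((u i (i, 1)).re)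
  · rintro ⟨i, s⟩
    rw [mem_rm]
    exact linv_lt (linv_kerA M) _ (hu i)
  · rintro ⟨i, s⟩ x hx
    rw [inner_U, inner_lt_left, inv_inv]
    rw [← U_U' x, mem_rm] at hx
    rw [hu2 i _ (linv_lt (linv_kerA M) _ hx), lt_apply, mul_one, U'_apply]

/-- kernel dimensions over a product with a finite group -/
theorem val_prod_fin {v : ℝ} :
    Val ⊤ (G × T) v ↔ ∃ w : ℝ, Val ⊤ G w ∧ v = w / (Fintype.card T : ℝ) := by
  have hT : (Fintype.card T : ℝ) ≠ 0 := by exact_mod_cast Fintype.card_ne_zero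
  constructor
  · rintro ⟨m, n, A, -, rfl⟩
    refine ⟨_, val_of (rm A) fun _ _ _ => Subring.mem_top _, ?_⟩
    rw [vdim_rm]
    field_simp
  · rintro ⟨w, hw, rfl⟩
    have h1 : Val ⊤ T (1 / (Nat.card (⊤ : Subgroup T) : ℝ)) := val_subgroup _
    have h2 := val_mul hw h1
    rw [Subgroup.card_top, Nat.card_eq_fintype_card] at h2
    rw [div_eq_mul_one_div]
    exact h2

end finite

/-- kernel dimensions over a product with an arbitrary abelian group -/
theorem val_prod_ab {G Q : Type} [Group G] [CommGroup Q] {v : ℝ} :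
    Val ⊤ (G × Q) v ↔ ∃ T : Subgroup Q, Finite T ∧ ∃ w : ℝ, Val ⊤ G w ∧
      v = w / (Nat.card T : ℝ) := by
  constructor
  · rintro ⟨m, n, A, -, rfl⟩
    obtain ⟨P, hP, hAP⟩ := exists_fg (MonoidHom.snd G Q) A
    have h1 := val_restrict A (P.comap (MonoidHom.snd G Q)) hAP
    obtain ⟨I, J, _, _, p, hp, e, ⟨E⟩⟩ := CommGroup.equiv_free_prod_prod_multiplicative_zmod P
    have hne : ∀ i, NeZero (p i ^ e i) := fun i => ⟨pow_ne_zero _ (hp i).ne_zero⟩
    have hfin : ∀ i, Fintype (Multiplicative (ZMod (p i ^ e i))) := fun i =>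
      (inferInstance : Fintype (ZMod (p i ^ e i)))
    classical
    let T' := (i : I) → Multiplicative (ZMod (p i ^ e i))
    have hT' : Fintype T' := inferInstance
    let f' : P.comap (MonoidHom.snd G Q) →*
        (G × T') × Multiplicative (Fin (Fintype.card J) → ℤ) :=
      MonoidHom.mk' (fun g => (((g : G × Q).1, (E ⟨(g : G × Q).2, g.2⟩).2),
        Multiplicative.ofAdd fun j => Multiplicative.toAdd
          ((E ⟨(g : G × Q).2, g.2⟩).1 ((Fintype.equivFin J).symm j)))) (by
        intro a b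
        have h2 : E ⟨((a * b : P.comap (MonoidHom.snd G Q)) : G × Q).2, (a * b).2⟩ =
            E ⟨(a : G × Q).2, a.2⟩ * E ⟨(b : G × Q).2, b.2⟩ := by
          rw [← map_mul]
          rfl
        rw [h2]
        rfl)
    have hf' : Function.Injective f' := by
      rintro ⟨⟨a, b⟩, hb⟩ ⟨⟨c, d⟩, hd⟩ h
      have h2 : a = c := congrArg (fun q => q.1.1) h
      have h3 : (E ⟨b, hb⟩).2 = (E ⟨d, hd⟩).2 := congrArg (fun q => q.1.2) h
      have h4 : (fun j => Multiplicative.toAdd ((E ⟨b, hb⟩).1 ((Fintype.equivFin J).symm j))) =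
          fun j => Multiplicative.toAdd ((E ⟨d, hd⟩).1 ((Fintype.equivFin J).symm j)) :=
        congrArg (fun q : (G × T') × Multiplicative (Fin (Fintype.card J) → ℤ) =>
          Multiplicative.toAdd q.2) h
      have h5 : (E ⟨b, hb⟩).1 = (E ⟨d, hd⟩).1 := by
        funext j
        have := congrFun h4 (Fintype.equivFin J j)
        simp only [Equiv.symm_apply_apply] at this
        exact this
      have h6 : (⟨b, hb⟩ : P) = ⟨d, hd⟩ := E.injective (Prod.ext h5 h3)
      have h7 : b = d := congrArg Subtype.val h6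
      subst h2 h7
      rfl
    have h2 := val_prod_pow _ (val_incl' f' hf' h1)
    obtain ⟨w, hw, hv⟩ := val_prod_fin.1 h2
    let ψ : T' →* Q := P.subtype.comp (E.symm.toMonoidHom.comp (MonoidHom.inr (J → Multiplicative ℤ) T'))
    have hψ : Function.Injective ψ := by
      intro a b h
      have h3 := E.symm.injective (Subtype.val_injective h)
      exact congrArg Prod.snd h3
    refine ⟨ψ.range, ?_, w, hw, ?_⟩
    · exact Set.finite_range ψ
    · rw [hv, Nat.card_congr (MonoidHom.ofInjective hψ).symm.toEquiv, Nat.card_eq_fintype_card]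
  · rintro ⟨T, hT, w, hw, rfl⟩
    have := Fintype.ofFinite T
    have h1 : Val ⊤ (G × T) (w / (Nat.card T : ℝ)) := by
      rw [Nat.card_eq_fintype_card]
      exact val_prod_fin.2 ⟨w, hw, rfl⟩
    refine val_incl' (MonoidHom.prodMap (MonoidHom.id G) T.subtype) ?_ h1
    rintro ⟨a, b⟩ ⟨c, d⟩ h
    have h2 : a = c := congrArg Prod.fst h
    have h3 : (b : Q) = d := congrArg Prod.snd h
    rw [h2, Subtype.ext h3]

end Pool.Agent.Zk85.AW
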