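import Mathlib

/-!
# A linear change of coordinates with few conflicts
-/

set_option autoImplicit false

open Finset

namespace Pool.Agent.Zk85.GoodEquiv

/-- the general linear group is transitive on the nonzero vectors -/
lemma exists_equiv_apply {K X : Type} [Field K] [AddCommGroup X] [Module K X] (w u : X)
    (hw : w ≠ 0) (hu : u ≠ 0) : ∃ g : X ≃ₗ[K] X, g w = u := by
  obtain ⟨f, hfw, hfu⟩ : ∃ f : Module.Dual K X, f w ≠ 0 ∧ f u ≠ 0 := by
    obtain ⟨f1, h1⟩ : ∃ f : Module.Dual K X, f w ≠ 0 := by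
      by_contra hcon
      push Not at hcon
      exact hw ((Module.forall_dual_apply_eq_zero_iff K w).1 hcon)
    obtain ⟨f2, h2⟩ : ∃ f : Module.Dual K X, f u ≠ 0 := by
      by_contra hcon
      push Not at hcon
      exact hu ((Module.forall_dual_apply_eq_zero_iff K u).1 hcon)
    by_cases h3 : f1 u = 0
    · by_cases h4 : f2 w = 0
      · exact ⟨f1 + f2, by simpa [h4] using h1, by simpa [h3] using h2⟩
      · exact ⟨f2, h4, h2⟩
    · exact ⟨f1, h1, h3⟩
  refine ⟨{ toFun := fun x => x + (f x / f w) • (u - w)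
            invFun := fun x => x + (f x / f u) • (w - u)
            map_add' := fun x y => by
              rw [map_add, add_div, add_smul]; abel
            map_smul' := fun c x => by
              simp only [map_smul, smul_eq_mul, RingHom.id_apply, smul_add, smul_smul, mul_div_assoc]
            left_inv := fun x => ?_
            right_inv := fun x => ?_ }, ?_⟩
  · simp only [map_add, map_smul, smul_eq_mul, map_sub]
    have h1 : (f x + f x / f w * (f u - f w)) / f u = f x / f w := by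
      field_simp
      ring
    rw [h1]
    rw [smul_sub, smul_sub]
    abel
  · simp only [map_add, map_smul, smul_eq_mul, map_sub]
    have h1 : (f x + f x / f u * (f w - f u)) / f w = f x / f u := by
      field_simp
      ring
    rw [h1]
    rw [smul_sub, smul_sub]
    abel
  · simp only [LinearEquiv.coe_mk, LinearMap.coe_mk, AddHom.coe_mk]
    rw [div_self hfw, one_smul]
    abel

section

variable (q : ℕ) [Fact q.Prime] (d R : ℕ)

/-- the space -/
abbrev XX : Type := (Fin d → ZMod q) × (Fin R → ZMod q)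

noncomputable instance : Fintype (XX q d R ≃ₗ[ZMod q] XX q d R) :=
  haveI : Finite (XX q d R ≃ₗ[ZMod q] XX q d R) :=
    Finite.of_injective (fun T => (T : XX q d R → XX q d R)) DFunLike.coe_injective
  Fintype.ofFinite _

lemma card_XX : Fintype.card (XX q d R) = q ^ (d + R) := by
  simp [XX, Fintype.card_prod, ZMod.card, pow_add]

open Classical in
lemma count_le (w : XX q d R) (hw : w ≠ 0) (u : XX q d R) :
    q ^ (d + R) * (univ.filter (fun T : XX q d R ≃ₗ[ZMod q] XX q d R => T w = u)).card ≤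
      2 * Fintype.card (XX q d R ≃ₗ[ZMod q] XX q d R) := by
  by_cases hu : u = 0
  · have : (univ.filter (fun T : XX q d R ≃ₗ[ZMod q] XX q d R => T w = u)) = ∅ := by
      apply filter_false_of_mem
      intro T _ h
      rw [hu] at h
      exact hw ((LinearEquiv.map_eq_zero_iff T).1 h)
    rw [this]
    simp
  set N : XX q d R → ℕ := fun u =>
    (univ.filter (fun T : XX q d R ≃ₗ[ZMod q] XX q d R => T w = u)).card with hN
  have hNN : ∀ u' : XX q d R, u' ≠ 0 → N u' = N u := by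
    intro u' hu'
    obtain ⟨g, hg⟩ := exists_equiv_apply (K := ZMod q) u' u hu' hu
    simp only [hN]
    refine card_bij (fun T _ => T.trans g) ?_ ?_ ?_
    · intro T hT
      rw [mem_filter] at hT ⊢
      refine ⟨mem_univ _, ?_⟩
      rw [LinearEquiv.trans_apply, hT.2, hg]
    · intro T _ T' _ h
      ext1 x
      have h1 := congrArg (fun A : XX q d R ≃ₗ[ZMod q] XX q d R => A x) h
      simp only [LinearEquiv.trans_apply] at h1
      exact g.injective h1
    · intro T hT
      rw [mem_filter] at hT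
      refine ⟨T.trans g.symm, ?_, ?_⟩
      · rw [mem_filter]
        refine ⟨mem_univ _, ?_⟩
        rw [LinearEquiv.trans_apply, hT.2, ← hg, LinearEquiv.symm_apply_apply]
      · ext1 x
        simp
  have hsum : Fintype.card (XX q d R ≃ₗ[ZMod q] XX q d R) = ∑ u : XX q d R, N u := by
    rw [← card_univ]
    exact card_eq_sum_card_fiberwise (fun T _ => mem_univ (T w))
  have h1 : ∑ u' ∈ univ.erase (0 : XX q d R), N u' = (q ^ (d + R) - 1) * N u := by
    rw [sum_congr rfl (fun u' hu' => hNN u' (ne_of_mem_erase hu')), sum_const,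
      card_erase_of_mem (mem_univ _), card_univ, card_XX, smul_eq_mul]
  have h2 : (q ^ (d + R) - 1) * N u ≤ Fintype.card (XX q d R ≃ₗ[ZMod q] XX q d R) := by
    rw [hsum, ← h1]
    exact sum_le_sum_of_subset (erase_subset _ _)
  have h3 : 2 ≤ q ^ (d + R) := by
    have h4 : 1 < Fintype.card (XX q d R) := Fintype.one_lt_card_iff.2 ⟨w, 0, hw⟩
    rw [card_XX] at h4
    exact h4
  calc q ^ (d + R) * N u ≤ (2 * (q ^ (d + R) - 1)) * N u :=
        Nat.mul_le_mul_right _ (by omega)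
    _ = 2 * ((q ^ (d + R) - 1) * N u) := by ring
    _ ≤ 2 * Fintype.card (XX q d R ≃ₗ[ZMod q] XX q d R) := Nat.mul_le_mul_left _ h2

lemma box1 (S : ℕ) (c : ZMod q) :
    (univ.filter (fun y : ZMod q => |(y + c).valMinAbs| ≤ (S : ℤ))).card ≤ 2 * S + 1 := by
  have h1 : (univ.filter (fun y : ZMod q => |(y + c).valMinAbs| ≤ (S : ℤ))).card ≤
      (Icc (-(S : ℤ)) S).card := by
    refine card_le_card_of_injOn (fun y => (y + c).valMinAbs) ?_ ?_
    · intro y hy
      rw [mem_coe, mem_filter] at hy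
      rw [mem_coe, mem_Icc]
      exact abs_le.1 hy.2
    · intro y _ y' _ h
      have := ZMod.injective_valMinAbs h
      exact add_right_cancel this
  refine h1.trans ?_
  rw [Int.card_Icc]
  omega

open Classical in
lemma box (S : ℕ) (c : Fin d → ZMod q) :
    (univ.filter (fun u : XX q d R => ∀ i, |(u.1 i + c i).valMinAbs| ≤ (S : ℤ))).card ≤
      (2 * S + 1) ^ d * q ^ R := by
  have h1 : (univ.filter (fun u : XX q d R => ∀ i, |(u.1 i + c i).valMinAbs| ≤ (S : ℤ))) ⊆
      (Fintype.piFinset (fun i : Fin d =>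
        univ.filter (fun y : ZMod q => |(y + c i).valMinAbs| ≤ (S : ℤ)))) ×ˢ
      (univ : Finset (Fin R → ZMod q)) := by
    intro u hu
    rw [mem_filter] at hu
    rw [mem_product, Fintype.mem_piFinset]
    exact ⟨fun i => mem_filter.2 ⟨mem_univ _, hu.2 i⟩, mem_univ _⟩
  refine (card_le_card h1).trans ?_
  rw [card_product, Fintype.card_piFinset, card_univ, Fintype.card_fun, ZMod.card, Fintype.card_fin]
  refine Nat.mul_le_mul_right _ ?_
  calc ∏ i : Fin d, (univ.filter (fun y : ZMod q => |(y + c i).valMinAbs| ≤ (S : ℤ))).card ≤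
      ∏ _i : Fin d, (2 * S + 1) := prod_le_prod' fun i _ => box1 q S (c i)
    _ = (2 * S + 1) ^ d := by simp

open Classical in
lemma count_box (S : ℕ) (c : Fin d → ZMod q) (w : XX q d R) (hw : w ≠ 0) :
    q ^ (d + R) * (univ.filter (fun T : XX q d R ≃ₗ[ZMod q] XX q d R =>
      ∀ i, |((T w).1 i + c i).valMinAbs| ≤ (S : ℤ))).card ≤
      2 * Fintype.card (XX q d R ≃ₗ[ZMod q] XX q d R) * ((2 * S + 1) ^ d * q ^ R) := by
  set B := (univ.filter (fun u : XX q d R => ∀ i, |(u.1 i + c i).valMinAbs| ≤ (S : ℤ))) with hB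
  have h1 : (univ.filter (fun T : XX q d R ≃ₗ[ZMod q] XX q d R =>
      ∀ i, |((T w).1 i + c i).valMinAbs| ≤ (S : ℤ))).card ≤
      ∑ u ∈ B, (univ.filter (fun T : XX q d R ≃ₗ[ZMod q] XX q d R => T w = u)).card := by
    have h2 : (univ.filter (fun T : XX q d R ≃ₗ[ZMod q] XX q d R =>
      ∀ i, |((T w).1 i + c i).valMinAbs| ≤ (S : ℤ))) ⊆
      B.biUnion (fun u => univ.filter (fun T : XX q d R ≃ₗ[ZMod q] XX q d R => T w = u)) := by
      intro T hT
      rw [mem_filter] at hT
      rw [mem_biUnion]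
      exact ⟨T w, mem_filter.2 ⟨mem_univ _, hT.2⟩, mem_filter.2 ⟨mem_univ _, rfl⟩⟩
    exact (card_le_card h2).trans card_biUnion_le
  calc q ^ (d + R) * (univ.filter (fun T : XX q d R ≃ₗ[ZMod q] XX q d R =>
      ∀ i, |((T w).1 i + c i).valMinAbs| ≤ (S : ℤ))).card
      ≤ q ^ (d + R) * ∑ u ∈ B,
        (univ.filter (fun T : XX q d R ≃ₗ[ZMod q] XX q d R => T w = u)).card :=
        Nat.mul_le_mul_left _ h1
    _ = ∑ u ∈ B, q ^ (d + R) *
        (univ.filter (fun T : XX q d R ≃ₗ[ZMod q] XX q d R => T w = u)).card := by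
        rw [mul_sum]
    _ ≤ ∑ _u ∈ B, 2 * Fintype.card (XX q d R ≃ₗ[ZMod q] XX q d R) :=
        sum_le_sum fun u _ => count_le q d R w hw u
    _ = B.card * (2 * Fintype.card (XX q d R ≃ₗ[ZMod q] XX q d R)) := by
        rw [sum_const, smul_eq_mul]
    _ ≤ ((2 * S + 1) ^ d * q ^ R) * (2 * Fintype.card (XX q d R ≃ₗ[ZMod q] XX q d R)) :=
        Nat.mul_le_mul_right _ (box q d R S c)
    _ = _ := by ring

end

/-- G1a: a linear change of coordinates with few conflicts -/
theorem exists_good_equiv (q : ℕ) [Fact q.Prime] (d R S k : ℕ) (hd : 1 ≤ d) (hR : 1 ≤ R)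
    (A : Finset ((Fin d → ZMod q) × (Fin R → ZMod q))) (hcard : A.card ≤ q ^ (d - 1))
    (a : (Fin d → ZMod q) × (Fin R → ZMod q) → (Fin d → ZMod q) × (Fin R → ZMod q))
    (ha : ∀ ρ, ∀ t : ℕ, t < k → a ρ + t • ρ ∈ A) (D : Finset (Fin d → ZMod q)) :
    ∃ T : ((Fin d → ZMod q) × (Fin R → ZMod q)) ≃ₗ[ZMod q] ((Fin d → ZMod q) × (Fin R → ZMod q)),
      {ρ | ∃ t < k, ∃ v ∈ A, v ≠ a ρ + t • ρ ∧ ∃ c ∈ D,
        ∀ i, |((T (a ρ + t • ρ - v)).1 i + c i).valMinAbs| ≤ (S : ℤ)}.ncard ≤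
        2 * k * D.card * (2 * S + 1) ^ d * q ^ (d + R - 1) := by
  classical
  have hq : 0 < q := (Fact.out : q.Prime).pos
  set M : ℕ := 2 * k * D.card * (2 * S + 1) ^ d * q ^ (d + R - 1) with hM
  set P : (XX q d R ≃ₗ[ZMod q] XX q d R) → (XX q d R × ℕ × XX q d R × (Fin d → ZMod q)) → Prop :=
    fun T x => x.2.2.1 ≠ a x.1 + x.2.1 • x.1 ∧
      ∀ i, |((T (a x.1 + x.2.1 • x.1 - x.2.2.1)).1 i + x.2.2.2 i).valMinAbs| ≤ (S : ℤ) with hP
  set I : Finset (XX q d R × ℕ × XX q d R × (Fin d → ZMod q)) :=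
    univ ×ˢ (range k ×ˢ (A ×ˢ D)) with hI
  have hIc : I.card = q ^ (d + R) * (k * (A.card * D.card)) := by
    rw [hI, card_product, card_product, card_product, card_univ, card_XX, card_range]
  -- each set is bounded by a sum
  have h1 : ∀ T : XX q d R ≃ₗ[ZMod q] XX q d R,
      {ρ | ∃ t < k, ∃ v ∈ A, v ≠ a ρ + t • ρ ∧ ∃ c ∈ D,
        ∀ i, |((T (a ρ + t • ρ - v)).1 i + c i).valMinAbs| ≤ (S : ℤ)}.ncard ≤
        (I.filter (fun x => P T x)).card := by
    intro T
    have h2 : {ρ | ∃ t < k, ∃ v ∈ A, v ≠ a ρ + t • ρ ∧ ∃ c ∈ D,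
        ∀ i, |((T (a ρ + t • ρ - v)).1 i + c i).valMinAbs| ≤ (S : ℤ)} ⊆
        (((I.filter (fun x => P T x)).image (fun x => x.1) : Finset (XX q d R)) :
          Set (XX q d R)) := by
      rintro ρ ⟨t, ht, v, hv, hne, c, hc, h⟩
      rw [mem_coe, mem_image]
      refine ⟨(ρ, t, v, c), ?_, rfl⟩
      rw [mem_filter, hI, mem_product, mem_product, mem_product, mem_range]
      exact ⟨⟨mem_univ _, ht, hv, hc⟩, hne, h⟩
    refine (Set.ncard_le_ncard h2 (finite_toSet _)).trans ?_
    rw [Set.ncard_coe_finset]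
    exact card_image_le
  by_contra hcon
  push Not at hcon
  have h2 : ∀ T : XX q d R ≃ₗ[ZMod q] XX q d R, M + 1 ≤ (I.filter (fun x => P T x)).card :=
    fun T => Nat.succ_le_of_lt ((hcon T).trans_le (h1 T))
  have h3 : Fintype.card (XX q d R ≃ₗ[ZMod q] XX q d R) * (M + 1) ≤
      ∑ T : XX q d R ≃ₗ[ZMod q] XX q d R, (I.filter (fun x => P T x)).card := by
    rw [← card_univ, ← smul_eq_mul, ← sum_const]
    exact sum_le_sum fun T _ => h2 T
  have h4 : ∑ T : XX q d R ≃ₗ[ZMod q] XX q d R, (I.filter (fun x => P T x)).card =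
      ∑ x ∈ I, (univ.filter (fun T : XX q d R ≃ₗ[ZMod q] XX q d R => P T x)).card := by
    simp only [card_filter]
    exact sum_comm
  have h5 : ∀ x ∈ I, q ^ (d + R) *
      (univ.filter (fun T : XX q d R ≃ₗ[ZMod q] XX q d R => P T x)).card ≤
      2 * Fintype.card (XX q d R ≃ₗ[ZMod q] XX q d R) * ((2 * S + 1) ^ d * q ^ R) := by
    intro x _
    by_cases hx : x.2.2.1 = a x.1 + x.2.1 • x.1
    · have : (univ.filter (fun T : XX q d R ≃ₗ[ZMod q] XX q d R => P T x)) = ∅ := by
        apply filter_false_of_mem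
        intro T _ h
        exact h.1 hx
      rw [this]
      simp
    · refine le_trans (Nat.mul_le_mul_left _ (card_le_card ?_))
        (count_box q d R S x.2.2.2 (a x.1 + x.2.1 • x.1 - x.2.2.1)
          (fun h => hx (sub_eq_zero.1 h).symm))
      intro T hT
      rw [mem_filter] at hT ⊢
      exact ⟨mem_univ _, hT.2.2⟩
  have h6 : q ^ (d + R) * (Fintype.card (XX q d R ≃ₗ[ZMod q] XX q d R) * (M + 1)) ≤
      (q ^ (d + R) * (k * (A.card * D.card))) *
        (2 * Fintype.card (XX q d R ≃ₗ[ZMod q] XX q d R) * ((2 * S + 1) ^ d * q ^ R)) := by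
    calc q ^ (d + R) * (Fintype.card (XX q d R ≃ₗ[ZMod q] XX q d R) * (M + 1))
        ≤ q ^ (d + R) *
          ∑ x ∈ I, (univ.filter (fun T : XX q d R ≃ₗ[ZMod q] XX q d R => P T x)).card := by
          rw [← h4]; exact Nat.mul_le_mul_left _ h3
      _ = ∑ x ∈ I, q ^ (d + R) *
          (univ.filter (fun T : XX q d R ≃ₗ[ZMod q] XX q d R => P T x)).card := by rw [mul_sum]
      _ ≤ ∑ _x ∈ I, 2 * Fintype.card (XX q d R ≃ₗ[ZMod q] XX q d R) *
          ((2 * S + 1) ^ d * q ^ R) := sum_le_sum h5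
      _ = _ := by rw [sum_const, smul_eq_mul, hIc]
  have hqp : 0 < q ^ (d + R) := pow_pos hq _
  have hG : 0 < Fintype.card (XX q d R ≃ₗ[ZMod q] XX q d R) :=
    Fintype.card_pos_iff.2 ⟨LinearEquiv.refl _ _⟩
  have h7 : M + 1 ≤ k * (A.card * D.card) * (2 * ((2 * S + 1) ^ d * q ^ R)) := by
    have h8 : (q ^ (d + R) * Fintype.card (XX q d R ≃ₗ[ZMod q] XX q d R)) * (M + 1) ≤
        (q ^ (d + R) * Fintype.card (XX q d R ≃ₗ[ZMod q] XX q d R)) *
          (k * (A.card * D.card) * (2 * ((2 * S + 1) ^ d * q ^ R))) := by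
      calc _ = q ^ (d + R) * (Fintype.card (XX q d R ≃ₗ[ZMod q] XX q d R) * (M + 1)) := by ring
        _ ≤ _ := h6
        _ = _ := by ring
    exact Nat.le_of_mul_le_mul_left h8 (Nat.mul_pos hqp hG)
  have h9 : k * (A.card * D.card) * (2 * ((2 * S + 1) ^ d * q ^ R)) ≤ M := by
    have h10 : d + R - 1 = (d - 1) + R := by omega
    rw [hM, h10, pow_add]
    calc k * (A.card * D.card) * (2 * ((2 * S + 1) ^ d * q ^ R))
        ≤ k * (q ^ (d - 1) * D.card) * (2 * ((2 * S + 1) ^ d * q ^ R)) := by gcongr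
      _ = _ := by ring
  omega

end Pool.Agent.Zk85.GoodEquiv
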