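import Pool.Agent.Zk23.KKSardR

/-!
# The measure-zero refinement of the Sard theorem with a constraint, the core argument

`E1` and `E2` are the statements of two lemmas (flat values are null; the family of Taylor
polynomials has the derivatives of the given map); `sard_null_of` derives the theorem from them.
-/

set_option autoImplicit false

open Set Filter Topology Metric Module MeasureTheory
open scoped ContDiff ENNReal

namespace Pool.Agent.Zk85.SardNull

open Pool.Agent.Zk23.KKInv (dy)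
open Pool.Agent.Zk23.KKRank Pool.Agent.Zk23.KKMorse
open Pool.Agent.Zk23.KKSard (dimH_prod_univ_le exists_proj inj_of_surj vert)
open Pool.Agent.Zk23.KKSardR (kk)
open Pool.Agent.Zk23.KKInvR (local_inverse)

/-- the statement that the flat values of a `C^r` map on `Y` are null for `μH[dim Y / r]` -/
def E1 : Prop :=
  ∀ {Y F : Type} [NormedAddCommGroup Y] [NormedSpace ℝ Y] [FiniteDimensional ℝ Y]
    [NormedAddCommGroup F] [NormedSpace ℝ F] [FiniteDimensional ℝ F] [MeasurableSpace F]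
    [BorelSpace F] (r : ℕ) (_ : 1 ≤ r) (g : Y → F) (_ : ContDiff ℝ r g)
    (_ : 1 ≤ finrank ℝ Y),
    μH[(finrank ℝ Y : ℝ) / r]
      (g '' {y | ∀ i, 1 ≤ i → i ≤ max 1 (r - 1) → iteratedFDeriv ℝ i g y = 0}) = 0

/-- the statement of the theorem on the family of Taylor polynomials -/
def E2 : Prop :=
  ∀ {U Y F : Type} [NormedAddCommGroup U] [NormedSpace ℝ U]
    [FiniteDimensional ℝ U] [NormedAddCommGroup Y] [NormedSpace ℝ Y] [FiniteDimensional ℝ Y]
    [NormedAddCommGroup F] [NormedSpace ℝ F] [FiniteDimensional ℝ F] (r : ℕ) (_ : 1 ≤ r)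
    (f : U × Y → F) (_ : ContDiff ℝ r f),
    ∃ (K : Type) (_ : NormedAddCommGroup K) (_ : NormedSpace ℝ K) (_ : FiniteDimensional ℝ K)
      (κ : U × Y → K) (Φ : K × Y → F), Continuous κ ∧ ContDiff ℝ ∞ Φ ∧
      (∀ x, Φ (κ x, x.2) = f x) ∧
      (∀ x : U × Y, (fderiv ℝ f x).comp (ContinuousLinearMap.inr ℝ U Y) = 0 →
        HasFDerivAt (fun z => Φ (κ x, z)) (0 : Y →L[ℝ] F) x.2) ∧
      (∀ x : U × Y, ∀ i < r, iteratedFDeriv ℝ i (fun z => Φ (κ x, z)) x.2 =
        iteratedFDeriv ℝ i (fun z => f (x.1, z)) x.2) ∧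
      ∀ p₀ : U × Y, ∃ C : ℝ, 0 ≤ C ∧ ∀ x x' : U × Y, ∀ z : Y,
        x.1 ∈ Metric.closedBall p₀.1 1 → x'.1 ∈ Metric.closedBall p₀.1 1 →
        x.2 ∈ Metric.closedBall p₀.2 1 → x'.2 ∈ Metric.closedBall p₀.2 1 →
        z ∈ Metric.closedBall p₀.2 1 →
        ‖Φ (κ x, z) - Φ (κ x', z)‖ ≤ C * (‖x.1 - x'.1‖ + ‖z - x.2‖ ^ r + ‖z - x'.2‖ ^ r)

/-- the points which are not flat -/
theorem dim_nonflat (h2 : E2) {U Y F : Type} [NormedAddCommGroup U] [NormedSpace ℝ U]
    [FiniteDimensional ℝ U]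
    [NormedAddCommGroup Y] [NormedSpace ℝ Y] [FiniteDimensional ℝ Y]
    [NormedAddCommGroup F] [NormedSpace ℝ F] [FiniteDimensional ℝ F] {r : ℕ} (hr : 1 ≤ r)
    (f : U × Y → F) (hf : ContDiff ℝ r f) (Z : Set U) (m : ℕ) (hm : finrank ℝ Y = m + 1) :
    dimH (f '' {p | p.1 ∈ Z ∧ dy f p = 0 ∧ ¬ ∀ i, 1 ≤ i → i ≤ max 1 (r - 1) → pd i f p = 0}) ≤
      dimH Z + (m : ℝ≥0∞) / (r : ℝ≥0∞) := by
  haveI : ProperSpace U := FiniteDimensional.proper ℝ U
  haveI : ProperSpace Y := FiniteDimensional.proper ℝ Y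
  obtain ⟨K, i1, i2, i3, κ, Φ, hκ, hΦ, h1, h2, hlink, h3⟩ := h2 r hr f hf
  have D : Dat r Z {p : U × Y | p.1 ∈ Z ∧ dy f p = 0} (fun p => p.1) κ (fun p => p.2) Φ := by
    refine ⟨continuous_fst, hκ, continuous_snd, hΦ, fun p hp => hp.1, ?_, ?_⟩
    · intro p hp
      rw [dy_eq (hΦ.differentiable (by simp))]
      exact (h2 p hp.2).fderiv
    · intro p₀ _
      obtain ⟨C, hC, H⟩ := h3 p₀
      refine ⟨C * 3, 1, by positivity, one_pos, closedBall p₀ 1, closedBall_mem_nhds _ one_pos, ?_⟩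
      rintro x ⟨-, hx⟩ x' ⟨-, hx'⟩ z hz
      rw [← closedBall_prod_same] at hx hx'
      refine (H x x' z hx.1 hx'.1 hx.2 hx'.2 hz).trans ?_
      rw [mul_assoc]
      apply mul_le_mul_of_nonneg_left _ hC
      have a0 := al_nonneg r (fun p : U × Y => p.1) x x'
      have a1 := norm_nonneg (z - x.2)
      have a2 := norm_nonneg (z - x'.2)
      have b0 : ‖x.1 - x'.1‖ ≤ (al r (fun p : U × Y => p.1) x x' + ‖z - x.2‖ + ‖z - x'.2‖) ^ r := by
        rw [← al_pow r hr (fun p : U × Y => p.1)]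
        exact pow_le_pow_left₀ a0 (by linarith) _
      have b1 : ‖z - x.2‖ ^ r ≤ (al r (fun p : U × Y => p.1) x x' + ‖z - x.2‖ + ‖z - x'.2‖) ^ r :=
        pow_le_pow_left₀ a1 (by linarith) _
      have b2 : ‖z - x'.2‖ ^ r ≤ (al r (fun p : U × Y => p.1) x x' + ‖z - x.2‖ + ‖z - x'.2‖) ^ r :=
        pow_le_pow_left₀ a2 (by linarith) _
      linarith
  have hΦd : Differentiable ℝ Φ := hΦ.differentiable (by simp)
  set A : Set (U × Y) := {p : U × Y | p.1 ∈ Z ∧ dy f p = 0} with hA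
  set S : ℕ → Set (U × Y) := fun j => {x ∈ A | ∀ i, 1 ≤ i → i ≤ j → pd i Φ (κ x, x.2) = 0} with hS
  have hpd1 : ∀ p, pd 1 Φ p = 0 ↔ dy Φ p = 0 := by
    intro p
    rw [← norm_eq_zero, pd, norm_iteratedFDeriv_one, norm_eq_zero, dy_eq hΦd]
  have hl : ∀ x : U × Y, ∀ i < r, pd i Φ (κ x, x.2) = pd i f x := fun x i hi => hlink x i hi
  have hstep : ∀ j, 1 ≤ j → j + 2 ≤ r → dimH ((fun x => Φ (κ x, x.2)) '' (S j \ S (j + 1))) ≤
      dimH Z + (m : ℝ≥0∞) / (r : ℝ≥0∞) := by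
    intro j hj1 hj2
    refine dimH_image_le_of_local' fun x₀ hx₀ => ?_
    have hne : pd (j + 1) Φ (κ x₀, x₀.2) ≠ 0 := by
      intro h0
      apply hx₀.2
      refine ⟨hx₀.1.1, fun i hi1 hi2 => ?_⟩
      rcases Nat.lt_or_ge i (j + 1) with h | h
      · exact hx₀.1.2 i hi1 (by omega)
      · have : i = j + 1 := le_antisymm hi2 h
        rw [this]; exact h0
    have D' : Dat r Z (S j) (fun p => p.1) κ (fun p => p.2) Φ := D.mono fun x hx => hx.1
    obtain ⟨Y', P, Φ', N, hY', hN, DN, heq⟩ := step D' j hj1 hj2 x₀ hx₀.1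
      (fun x hx => hx.2) hne
    refine ⟨N, hN, ?_⟩
    have h1 := morse hr m (Y := Y') (by omega) (S j ∩ N) (fun x => P x.2) Φ' DN
    refine le_trans (dimH_mono ?_) h1
    rintro _ ⟨x, ⟨hx1, hx2⟩, rfl⟩
    exact ⟨x, ⟨hx1.1, hx2⟩, heq x ⟨hx1.1, hx2⟩⟩
  have hcov : f '' {p | p.1 ∈ Z ∧ dy f p = 0 ∧
      ¬ ∀ i, 1 ≤ i → i ≤ max 1 (r - 1) → pd i f p = 0} ⊆
        ⋃ j : {j : ℕ // 1 ≤ j ∧ j + 2 ≤ r}, (fun x => Φ (κ x, x.2)) '' (S j \ S (j + 1)) := by
    rintro _ ⟨x, ⟨hx1, hx2, h⟩, rfl⟩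
    have hx : x ∈ A := ⟨hx1, hx2⟩
    classical
    push Not at h
    set i := Nat.find h with hi
    obtain ⟨hi1, hi3, hi2⟩ := Nat.find_spec h
    have hf1 : pd 1 f x = 0 := by
      rw [← norm_eq_zero, pd, norm_iteratedFDeriv_one, norm_eq_zero,
        ← dy_eq (hf.differentiable (by
          exact_mod_cast (by omega : r ≠ 0)))]
      exact hx2
    have hne1 : i ≠ 1 := by
      intro h1
      apply hi2
      rw [← hi, h1]
      exact hf1
    have hir : i ≤ r - 1 := by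
      rcases le_max_iff.1 hi3 with h | h
      · exact absurd (le_antisymm h hi1) hne1
      · exact h
    refine mem_iUnion.2 ⟨⟨i - 1, by omega, by omega⟩, x, ⟨⟨hx, ?_⟩, ?_⟩, h1 x⟩
    · intro k hk1 hk2
      simp only at hk2
      rw [hl x k (by omega)]
      by_contra h3
      exact Nat.find_min h (m := k) (by omega) ⟨hk1, by
        refine le_trans ?_ hi3
        omega, h3⟩
    · intro h3
      have h4 := h3.2 i hi1 (by simp only; omega)
      rw [hl x i (by omega)] at h4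
      exact hi2 h4
  refine (dimH_mono hcov).trans ?_
  rw [dimH_iUnion]
  exact iSup_le fun j => hstep j j.2.1 j.2.2

/-- Fubini: a compact set all of whose slices are null for the Hausdorff measure is null -/
theorem null_of_slices {F : Type} [NormedAddCommGroup F] [NormedSpace ℝ F] [FiniteDimensional ℝ F]
    [MeasurableSpace F] [BorelSpace F] (V : Submodule ℝ F) (q : F →L[ℝ] V) (hq : ∀ z : V, q z = z)
    (S : Set F) (hS : MeasurableSet S) (d : ℝ) (hd : d + finrank ℝ V = finrank ℝ F)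
    (h : ∀ v : V, μH[d] {s ∈ S | q s = v} = 0) (ν : Measure F) [ν.IsAddHaarMeasure] :
    ν S = 0 := by
  set W : Submodule ℝ F := LinearMap.ker (q : F →ₗ[ℝ] V) with hW
  have hsurj : LinearMap.range (q : F →ₗ[ℝ] V) = ⊤ := by
    rw [LinearMap.range_eq_top]
    intro z
    exact ⟨z, hq z⟩
  have hdim : finrank ℝ V + finrank ℝ W = finrank ℝ F := by
    have h1 := LinearMap.finrank_range_add_finrank_ker (q : F →ₗ[ℝ] V)
    rw [hsurj, finrank_top] at h1
    exact h1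
  have hdW : d = finrank ℝ W := by
    have : (finrank ℝ F : ℝ) = finrank ℝ V + finrank ℝ W := by exact_mod_cast hdim.symm
    linarith
  -- the projection on the kernel
  have hmem : ∀ s : F, s - q s ∈ W := by
    intro s
    rw [hW, LinearMap.mem_ker]
    simp only [ContinuousLinearMap.coe_coe]
    rw [map_sub, hq, sub_self]
  set k : F →L[ℝ] W := (ContinuousLinearMap.id ℝ F - V.subtypeL.comp q).codRestrict W
    (fun s => by simpa using hmem s) with hk
  have hkv : ∀ s, ((k s : W) : F) = s - q s := fun s => by simp [hk]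
  set e : F ≃ₗ[ℝ] V × W := LinearEquiv.ofBijective ((q : F →ₗ[ℝ] V).prod (k : F →ₗ[ℝ] W)) (by
    constructor
    · rw [← LinearMap.ker_eq_bot, LinearMap.ker_eq_bot']
      intro s hs
      have h1 : q s = 0 := congrArg Prod.fst hs
      have h2 : k s = 0 := congrArg Prod.snd hs
      have h3 := hkv s
      rw [h2, h1] at h3
      simpa using h3.symm
    · rintro ⟨v, w⟩
      refine ⟨v + w, ?_⟩
      have h1 : q ((v : F) + (w : F)) = v := by
        rw [map_add, hq]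
        have : q (w : F) = 0 := w.2
        rw [this, add_zero]
      have h2 : k ((v : F) + (w : F)) = w := by
        apply Subtype.ext
        rw [hkv, h1]
        abel
      exact Prod.ext h1 h2) with he
  set E : F ≃L[ℝ] V × W := e.toContinuousLinearEquiv with hE
  have hE1 : ∀ s, (E s).1 = q s := fun s => rfl
  have hE2 : ∀ s, (E s).2 = k s := fun s => rfl
  set νV : Measure V := μH[finrank ℝ V] with hνV
  set νW : Measure W := μH[finrank ℝ W] with hνW
  have hprod : (νV.prod νW) (E '' S) = 0 := by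
    have hEm : MeasurableSet (E '' S) := by
      rw [← ContinuousLinearEquiv.coe_toHomeomorph, ← Homeomorph.toMeasurableEquiv_coe]
      exact (MeasurableEquiv.measurableSet_image _).2 hS
    rw [Measure.measure_prod_null hEm]
    refine Filter.Eventually.of_forall fun v => ?_
    simp only [Pi.zero_apply]
    have hsub : Prod.mk v ⁻¹' (E '' S) ⊆ k '' {s ∈ S | q s = v} := by
      rintro w ⟨s, hs, hsw⟩
      refine ⟨s, ⟨hs, ?_⟩, ?_⟩
      · rw [← hE1, hsw]
      · rw [← hE2, hsw]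
    refine measure_mono_null hsub ?_
    have h1 := (k.lipschitz.lipschitzOnWith (s := {s ∈ S | q s = v})).hausdorffMeasure_image_le
      (d := d) (by rw [hdW]; positivity)
    rw [h v, mul_zero] at h1
    rw [hνW, ← hdW]
    exact le_antisymm h1 bot_le
  haveI : ((νV.prod νW).map E.symm).IsAddHaarMeasure := by
    exact ContinuousLinearEquiv.isAddHaarMeasure_map E.symm _
  have hac : ν ≪ (νV.prod νW).map E.symm := Measure.absolutelyContinuous_isAddHaarMeasure _ _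
  apply hac
  rw [Measure.map_apply E.symm.continuous.measurable hS]
  have : E.symm ⁻¹' S = E '' S := by
    ext x
    constructor
    · intro hx
      exact ⟨E.symm x, hx, by simp⟩
    · rintro ⟨s, hs, rfl⟩
      simpa using hs
  rw [this]
  exact hprod

lemma null_of_local {X F : Type} [TopologicalSpace X] [SecondCountableTopology X]
    [MeasurableSpace F] {ν : Measure F} {f : X → F} {s : Set X}
    (h : ∀ x ∈ s, ∃ V ∈ 𝓝 x, ν (f '' (s ∩ V)) = 0) : ν (f '' s) = 0 := by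
  choose! V hV hr using h
  obtain ⟨t, hts, htc, hcov⟩ := TopologicalSpace.countable_cover_nhdsWithin
    (s := s) (f := V) (fun x hx => mem_nhdsWithin_of_mem_nhds (hV x hx))
  have h1 : f '' s ⊆ ⋃ x ∈ t, f '' (s ∩ V x) := by
    rintro _ ⟨y, hy, rfl⟩
    obtain ⟨x, hx, hyx⟩ := mem_iUnion₂.1 (hcov hy)
    exact mem_iUnion₂.2 ⟨x, hx, y, ⟨hy, hyx⟩, rfl⟩
  refine measure_mono_null h1 ?_
  rw [measure_biUnion_null_iff htc]
  exact fun x hx => hr x (hts hx)

/-- the normal form: `f((u₀, v), y)` with `q (f ((u₀, v), y)) = v` -/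
theorem null_normal (e1 : E1) (e2 : E2) {U Y F : Type} [NormedAddCommGroup U] [NormedSpace ℝ U]
    [FiniteDimensional ℝ U]
    [NormedAddCommGroup Y] [NormedSpace ℝ Y] [FiniteDimensional ℝ Y]
    [NormedAddCommGroup F] [NormedSpace ℝ F] [FiniteDimensional ℝ F] [MeasurableSpace F]
    [BorelSpace F] (V : Submodule ℝ F) (q : F →L[ℝ] V) (hq : ∀ z : V, q z = z)
    {r : ℕ} (hr : 1 ≤ r) (f : (U × V) × Y → F) (hf : ContDiff ℝ r f) (u₀ : U)
    (hY : 1 ≤ finrank ℝ Y) (hdim : r * finrank ℝ V + finrank ℝ Y = r * finrank ℝ F)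
    (ν : Measure F) [ν.IsAddHaarMeasure] :
    ν (f '' {x | x.1.1 = u₀ ∧ dy f x = 0 ∧ q (f x) = x.1.2}) = 0 := by
  haveI : ProperSpace U := FiniteDimensional.proper ℝ U
  haveI : ProperSpace V := FiniteDimensional.proper ℝ V
  haveI : ProperSpace Y := FiniteDimensional.proper ℝ Y
  obtain ⟨m, hm⟩ : ∃ m, finrank ℝ Y = m + 1 := ⟨finrank ℝ Y - 1, by omega⟩
  have hrn : (r : WithTop ℕ∞) ≠ 0 := by exact_mod_cast (by omega : r ≠ 0)
  have hfd : Differentiable ℝ f := hf.differentiable hrn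
  have hcov : f '' {x | x.1.1 = u₀ ∧ dy f x = 0 ∧ q (f x) = x.1.2} ⊆
      (f '' {x | x.1 ∈ ({u₀} : Set U) ×ˢ (univ : Set V) ∧ dy f x = 0 ∧
        ¬ ∀ i, 1 ≤ i → i ≤ max 1 (r - 1) → pd i f x = 0}) ∪
      ⋃ n : ℕ, f '' ({x | x.1.1 = u₀ ∧ q (f x) = x.1.2 ∧
        ∀ i, 1 ≤ i → i ≤ max 1 (r - 1) → pd i f x = 0} ∩ closedBall 0 n) := by
    rintro _ ⟨x, ⟨hx1, hx2, hx3⟩, rfl⟩
    by_cases h : ∀ i, 1 ≤ i → i ≤ max 1 (r - 1) → pd i f x = 0
    · right
      obtain ⟨n, hn⟩ := exists_nat_ge ‖x‖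
      exact mem_iUnion.2 ⟨n, x, ⟨⟨hx1, hx3, h⟩, by simpa using hn⟩, rfl⟩
    · left
      exact ⟨x, ⟨⟨hx1, mem_univ _⟩, hx2, h⟩, rfl⟩
  refine measure_mono_null hcov ?_
  rw [measure_union_null_iff]
  constructor
  · -- the points which are not flat
    have h1 := dim_nonflat e2 hr f hf (({u₀} : Set U) ×ˢ (univ : Set V)) m hm
    have h2 : dimH (({u₀} : Set U) ×ˢ (univ : Set V)) ≤ (finrank ℝ V : ℝ≥0∞) := by
      refine (dimH_prod_univ_le _).trans ?_
      rw [dimH_singleton, zero_add]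
    have hr0 : (r : ℝ≥0∞) ≠ 0 := by exact_mod_cast (by omega : r ≠ 0)
    have hrt : (r : ℝ≥0∞) ≠ ⊤ := ENNReal.natCast_ne_top r
    have h3 : (finrank ℝ V : ℝ≥0∞) + (m : ℝ≥0∞) / (r : ℝ≥0∞) < (finrank ℝ F : ℝ≥0∞) := by
      have h4 : (r : ℝ≥0∞) * ((finrank ℝ V : ℝ≥0∞) + (m : ℝ≥0∞) / (r : ℝ≥0∞)) <
          (r : ℝ≥0∞) * (finrank ℝ F : ℝ≥0∞) := by
        rw [mul_add, ENNReal.mul_div_cancel hr0 hrt]
        have h5 : r * finrank ℝ V + m < r * finrank ℝ F := by omega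
        exact_mod_cast h5
      exact lt_of_mul_lt_mul_left' h4
    have h4 := (h1.trans (add_le_add_left h2 _)).trans_lt h3
    have h5 : μH[((finrank ℝ F : NNReal) : ℝ)] (f '' {x | x.1 ∈ ({u₀} : Set U) ×ˢ (univ : Set V) ∧
        dy f x = 0 ∧ ¬ ∀ i, 1 ≤ i → i ≤ max 1 (r - 1) → pd i f x = 0}) = 0 := by
      apply hausdorffMeasure_of_dimH_lt
      simpa using h4
    rw [NNReal.coe_natCast] at h5
    have hac : ν ≪ μH[finrank ℝ F] := Measure.absolutelyContinuous_isAddHaarMeasure _ _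
    exact hac h5
  · rw [measure_iUnion_null_iff]
    intro n
    refine null_of_slices V q hq _ ?_ ((finrank ℝ Y : ℝ) / r) ?_ ?_ ν
    · -- measurability
      apply IsCompact.measurableSet
      apply IsCompact.image _ hf.continuous
      refine IsCompact.of_isClosed_subset (isCompact_closedBall (0 : (U × V) × Y) n) ?_
        inter_subset_right
      refine IsClosed.inter ?_ isClosed_closedBall
      have hpdc : ∀ i ≤ r, Continuous (pd i f) := by
        intro i hi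
        have hpe : pd i f = fun p => ContinuousMultilinearMap.compContinuousLinearMapL
            (fun _ : Fin i => ContinuousLinearMap.inr ℝ (U × V) Y) (iteratedFDeriv ℝ i f p) := by
          ext p : 1
          have h1 : (fun y => f (p.1, y)) =
              (fun q => f (q + (p.1, 0))) ∘ (ContinuousLinearMap.inr ℝ (U × V) Y) := by
            ext y
            simp
          have h2 : ContDiff ℝ r (fun q : (U × V) × Y => f (q + (p.1, 0))) :=
            hf.comp (contDiff_id.add contDiff_const)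
          rw [pd, h1, ContinuousLinearMap.iteratedFDeriv_comp_right _ h2 _ (by exact_mod_cast hi),
            iteratedFDeriv_comp_add_right]
          simp [ContinuousMultilinearMap.compContinuousLinearMapL]
        rw [hpe]
        exact (ContinuousMultilinearMap.compContinuousLinearMapL
          (fun _ : Fin i => ContinuousLinearMap.inr ℝ (U × V) Y)).continuous.comp
          (hf.continuous_iteratedFDeriv (by exact_mod_cast hi))
      have hset : {x : (U × V) × Y | x.1.1 = u₀ ∧ q (f x) = x.1.2 ∧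
          ∀ i, 1 ≤ i → i ≤ max 1 (r - 1) → pd i f x = 0} =
          {x | x.1.1 = u₀} ∩ ({x | q (f x) = x.1.2} ∩
            ⋂ i ∈ {i : ℕ | 1 ≤ i ∧ i ≤ max 1 (r - 1)}, {x | pd i f x = 0}) := by
        ext x
        simp only [mem_setOf_eq, mem_inter_iff, mem_iInter, and_imp]
      rw [hset]
      refine IsClosed.inter (isClosed_eq (continuous_fst.comp continuous_fst) continuous_const)
        (IsClosed.inter (isClosed_eq (q.continuous.comp hf.continuous)
          (continuous_snd.comp continuous_fst)) (isClosed_biInter fun i hi => ?_))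
      have hir : i ≤ r := hi.2.trans (max_le hr (Nat.sub_le _ _))
      exact isClosed_eq (hpdc i hir) continuous_const
    · -- the dimension
      have h1 : (r : ℝ) * finrank ℝ V + finrank ℝ Y = r * finrank ℝ F := by exact_mod_cast hdim
      have h2 : (r : ℝ) ≠ 0 := by exact_mod_cast (by omega : r ≠ 0)
      field_simp
      linarith
    · -- the slices
      intro v
      have h1 := e1 r hr (fun y => f ((u₀, v), y)) (slice hf (u₀, v)) hY
      refine measure_mono_null ?_ h1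
      rintro s ⟨⟨x, ⟨⟨hx1, hx2, hx3⟩, -⟩, rfl⟩, hs⟩
      have hx : x.1 = (u₀, v) := Prod.ext hx1 (hx2.symm.trans hs)
      refine ⟨x.2, ?_, ?_⟩
      · intro i hi1 hi2
        have := hx3 i hi1 hi2
        rw [pd, hx] at this
        exact this
      · simp only
        rw [← hx]

section main

variable {N Q F : Type} [NormedAddCommGroup N] [NormedSpace ℝ N] [FiniteDimensional ℝ N]
  [NormedAddCommGroup Q] [NormedSpace ℝ Q] [FiniteDimensional ℝ Q]
  [NormedAddCommGroup F] [NormedSpace ℝ F] [FiniteDimensional ℝ F] [MeasurableSpace F]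
  [BorelSpace F]

theorem sard_null_local (e1 : E1) (e2 : E2) {r : ℕ} (hr : 1 ≤ r) {π : N → Q} {ρ : N → F}
    (hπ : ContDiff ℝ r π) (hρ : ContDiff ℝ r ρ) (z : Q) (j w μ : ℕ) (hμ : 1 ≤ μ)
    (hdim : r * w + μ = r * finrank ℝ F) (ν : Measure F) [ν.IsAddHaarMeasure] (x₀ : N)
    (hj : finrank ℝ (LinearMap.range (fderiv ℝ π x₀ : N →ₗ[ℝ] Q)) = j)
    (hw : finrank ℝ (vert π ρ x₀) = w) (hm : finrank ℝ (kk π ρ x₀) = μ) :
    ∃ W ∈ 𝓝 x₀, ν (ρ '' ({x | π x = z ∧
      finrank ℝ (LinearMap.range (fderiv ℝ π x : N →ₗ[ℝ] Q)) = j ∧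
      finrank ℝ (vert π ρ x) = w} ∩ W)) = 0 := by
  have hn : (r : WithTop ℕ∞) ≠ 0 := by exact_mod_cast (by omega : r ≠ 0)
  set U : Submodule ℝ Q := LinearMap.range (fderiv ℝ π x₀ : N →ₗ[ℝ] Q) with hU
  set V : Submodule ℝ F := vert π ρ x₀ with hV
  set Y : Submodule ℝ N := kk π ρ x₀ with hY
  obtain ⟨p, hp⟩ := exists_proj U
  obtain ⟨q, hq⟩ := exists_proj V
  obtain ⟨L, hL⟩ := exists_proj Y
  set Θ : N → (U × V) × Y := fun x => ((p (π x), q (ρ x)), L x) with hΘd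
  have hΘ : ContDiff ℝ r Θ :=
    ((p.contDiff.comp hπ).prodMk (q.contDiff.comp hρ)).prodMk L.contDiff
  have hπd : Differentiable ℝ π := hπ.differentiable hn
  have hρd : Differentiable ℝ ρ := hρ.differentiable hn
  have hder : ∀ x, fderiv ℝ Θ x =
      ((p.comp (fderiv ℝ π x)).prod (q.comp (fderiv ℝ ρ x))).prod L := by
    intro x
    apply HasFDerivAt.fderiv
    exact ((p.hasFDerivAt.comp x (hπd x).hasFDerivAt).prodMk
      (q.hasFDerivAt.comp x (hρd x).hasFDerivAt)).prodMk L.hasFDerivAt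
  have happ : ∀ x δ, fderiv ℝ Θ x δ = ((p (fderiv ℝ π x δ), q (fderiv ℝ ρ x δ)), L δ) := by
    intro x δ
    rw [hder x]
    rfl
  have hbij : Function.Bijective (fderiv ℝ Θ x₀) := by
    constructor
    · rw [injective_iff_map_eq_zero]
      intro δ hδ
      rw [happ] at hδ
      simp only [Prod.mk_eq_zero] at hδ
      obtain ⟨⟨h1, h2⟩, h3⟩ := hδ
      have h4 : fderiv ℝ π x₀ δ = 0 := by
        have := hp ⟨fderiv ℝ π x₀ δ, ⟨δ, rfl⟩⟩
        simp only at this
        rw [h1] at this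
        exact (congrArg Subtype.val this).symm
      have h5 : fderiv ℝ ρ x₀ δ = 0 := by
        have := hq ⟨fderiv ℝ ρ x₀ δ, ⟨δ, LinearMap.mem_ker.2 h4, rfl⟩⟩
        simp only at this
        rw [h2] at this
        exact (congrArg Subtype.val this).symm
      have := hL ⟨δ, ⟨LinearMap.mem_ker.2 h4, LinearMap.mem_ker.2 h5⟩⟩
      simp only at this
      rw [h3] at this
      exact (congrArg Subtype.val this).symm
    · rintro ⟨⟨u, v⟩, y⟩
      obtain ⟨n₁, hn₁⟩ := u.2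
      have hn₁' : fderiv ℝ π x₀ n₁ = u := hn₁
      obtain ⟨k, hk, hk2⟩ := (v - q (fderiv ℝ ρ x₀ n₁) : V).2
      have hk' : fderiv ℝ π x₀ k = 0 := hk
      have hk2' : fderiv ℝ ρ x₀ k = ((v - q (fderiv ℝ ρ x₀ n₁) : V) : F) := hk2
      set n₂ := n₁ + k with hn₂
      set y₂ : Y := y - L n₂ with hy₂
      have hy₂π : fderiv ℝ π x₀ (y₂ : N) = 0 := y₂.2.1
      have hy₂ρ : fderiv ℝ ρ x₀ (y₂ : N) = 0 := y₂.2.2
      refine ⟨n₂ + (y₂ : N), ?_⟩
      rw [happ]
      have e1 : fderiv ℝ π x₀ (n₂ + (y₂ : N)) = u := by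
        rw [map_add, hy₂π, hn₂, map_add, hk', hn₁']; simp
      have e2 : q (fderiv ℝ ρ x₀ (n₂ + (y₂ : N))) = v := by
        rw [map_add (fderiv ℝ ρ x₀), hy₂ρ, hn₂, add_zero, map_add (fderiv ℝ ρ x₀), hk2', map_add, hq]
        abel
      have e3 : L (n₂ + (y₂ : N)) = y := by
        rw [map_add, hL, hy₂]
        abel
      rw [e1, e2, e3, hp]
  obtain ⟨Ψ, hΨ, h1, h2⟩ := local_inverse hr hΘ x₀ hbij
  have h3 : ∀ᶠ x in 𝓝 x₀, ∀ η, fderiv ℝ Θ x (fderiv ℝ Ψ (Θ x) η) = η := by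
    filter_upwards [hΘ.continuous.continuousAt.eventually h2.eventually_nhds, h1] with x hx hx1 η
    have h4 : (fun y => Θ (Ψ y)) =ᶠ[𝓝 (Θ x)] id := hx
    have h5 : HasFDerivAt (fun y => Θ (Ψ y)) ((fderiv ℝ Θ (Ψ (Θ x))).comp (fderiv ℝ Ψ (Θ x)))
        (Θ x) :=
      (hΘ.differentiable hn (Ψ (Θ x))).hasFDerivAt.comp (Θ x)
        (hΨ.differentiable hn (Θ x)).hasFDerivAt
    have h6 := h4.fderiv_eq (𝕜 := ℝ)
    rw [h5.fderiv, fderiv_id, hx1] at h6
    exact congrArg (fun A : ((U × V) × Y) →L[ℝ] ((U × V) × Y) => A η) h6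
  set f : (U × V) × Y → F := fun y => ρ (Ψ y) with hf
  have hfc : ContDiff ℝ r f := hρ.comp hΨ
  have hmain := null_normal e1 e2 V q hq hr f hfc (p z) (by rw [hm]; exact hμ)
    (by rw [hw, hm]; exact hdim) ν
  refine ⟨_, h1.and h3, measure_mono_null ?_ hmain⟩
  rintro _ ⟨x, ⟨⟨hxZ, hxj, hxw⟩, hx1, hx3⟩, rfl⟩
  refine ⟨Θ x, ⟨by simp only [hΘd]; rw [hxZ], ?_, ?_⟩, ?_⟩
  · -- `p` is injective on the range of `Dπ x`
    have hpi : ∀ δ, p (fderiv ℝ π x δ) = 0 → fderiv ℝ π x δ = 0 := by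
      intro δ hδ
      refine inj_of_surj (LinearMap.range (fderiv ℝ π x : N →ₗ[ℝ] Q)) (p : Q →ₗ[ℝ] U) ?_
        (by rw [hxj, ← hj]) _ ⟨δ, rfl⟩ hδ
      intro s
      refine ⟨fderiv ℝ π x (fderiv ℝ Ψ (Θ x) ((s, 0), 0)), ⟨_, rfl⟩, ?_⟩
      have := hx3 ((s, 0), 0)
      rw [happ] at this
      simp only [Prod.mk.injEq] at this
      exact this.1.1
    have hqi : ∀ δ, fderiv ℝ π x δ = 0 → q (fderiv ℝ ρ x δ) = 0 → fderiv ℝ ρ x δ = 0 := by
      intro δ hδ1 hδ2
      refine inj_of_surj (vert π ρ x) (q : F →ₗ[ℝ] V) ?_ (by rw [hxw, ← hw]) _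
        ⟨δ, LinearMap.mem_ker.2 hδ1, rfl⟩ hδ2
      intro s
      have := hx3 ((0, s), 0)
      rw [happ] at this
      simp only [Prod.mk.injEq] at this
      exact ⟨fderiv ℝ ρ x (fderiv ℝ Ψ (Θ x) ((0, s), 0)),
        ⟨_, LinearMap.mem_ker.2 (hpi _ this.1.1), rfl⟩, this.1.2⟩
    ext y
    have h5 : HasFDerivAt f ((fderiv ℝ ρ (Ψ (Θ x))).comp (fderiv ℝ Ψ (Θ x))) (Θ x) :=
      (hρd (Ψ (Θ x))).hasFDerivAt.comp (Θ x) (hΨ.differentiable hn (Θ x)).hasFDerivAt
    rw [dy, h5.fderiv, hx1]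
    simp only [ContinuousLinearMap.comp_apply, ContinuousLinearMap.inr_apply,
      zero_apply]
    have := hx3 (0, y)
    rw [happ] at this
    have h0 : ((0 : U × V), y) = ((0, 0), y) := rfl
    rw [h0] at this
    simp only [Prod.mk.injEq] at this
    exact hqi _ (hpi _ this.1.1) this.1.2
  · change q (ρ (Ψ (Θ x))) = q (ρ x)
    rw [hx1]
  · simp only [hf, hx1]

/-- **The measure-zero refinement of the sharp Sard theorem with a constraint.** -/
theorem sard_null_of (e1 : E1) (e2 : E2) {r : ℕ} (hr : 1 ≤ r) {π : N → Q} {ρ : N → F}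
    (hπ : ContDiff ℝ r π) (hρ : ContDiff ℝ r ρ) (z : Q)
    (w μ : ℕ) (hμ : 1 ≤ μ) (hdim : r * w + μ = r * finrank ℝ F) (ν : Measure F)
    [ν.IsAddHaarMeasure] :
    ν (ρ '' {x | π x = z ∧ finrank ℝ (vert π ρ x) = w ∧ finrank ℝ (kk π ρ x) = μ}) = 0 := by
  haveI : ProperSpace N := FiniteDimensional.proper ℝ N
  have h1 : ρ '' {x | π x = z ∧ finrank ℝ (vert π ρ x) = w ∧ finrank ℝ (kk π ρ x) = μ} ⊆
      ⋃ j : ℕ, ρ '' {x | π x = z ∧
        finrank ℝ (LinearMap.range (fderiv ℝ π x : N →ₗ[ℝ] Q)) = j ∧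
        finrank ℝ (vert π ρ x) = w ∧ finrank ℝ (kk π ρ x) = μ} := by
    rintro _ ⟨x, ⟨hx, hxw, hxm⟩, rfl⟩
    exact mem_iUnion.2 ⟨_, x, ⟨hx, rfl, hxw, hxm⟩, rfl⟩
  refine measure_mono_null h1 ?_
  rw [measure_iUnion_null_iff]
  intro j
  refine null_of_local fun x hx => ?_
  obtain ⟨W, hW, h2⟩ := sard_null_local e1 e2 hr hπ hρ z j w μ hμ hdim ν x hx.2.1 hx.2.2.1
    hx.2.2.2
  refine ⟨W, hW, measure_mono_null (image_mono ?_) h2⟩
  rintro y ⟨⟨hy1, hy2, hy3, -⟩, hy4⟩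
  exact ⟨⟨hy1, hy2, hy3⟩, hy4⟩

end main

end Pool.Agent.Zk85.SardNull
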